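import Pool.Agent.Helper25.SC.BDdef

/-!
# Block SC-BDA: the basic norm estimate, and the chain property

`claimA`: put `s ≥ ‖T y w j‖ = max ‖(w j).1‖ |e y j w|` for `j < p`. Show, by strong induction on `k` and for ALL `p`
(and `s` with this property for this `p`) simultaneously, that `‖T y (tr p w) k‖ ≤ 2 s`.
First component: `(tr p w k).1` is `(w k).1` for `k < p` and `0` otherwise: norm `≤ s`. Second component
`e y k (tr p w)`: for `k < p` it is `e y k w` by `e_local`: `≤ s`. For `k ≥ p` unfold `e` (`rw [e]`), let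
`code k = (η', p', k', i)`; the term `d_k` vanishes because `tr p w k = 0`.
* If `p ≤ p'`: `(1 - tr p') (tr p w) = 0` (`tr_tr`), so only `e y (η' - 1) (tr p w)` remains (if present): `≤ 2 s` by
  induction (`η' - 1 < k`).
* If `p' < p`: the first term (if present, then `η' - 1 < p' < p`) is `e y (η' - 1) (tr p w) = e y (η' - 1) w`: `≤ s`.
  The second term (if present, then `k' < k`): `(1 - tr p') (tr p w) = tr p w - tr p' w`, and
  `|e y k' (tr p w)| ≤ 2 s`, `|e y k' (tr p' w)| ≤ 2 s` by induction (`s` is also admissible for `p' < p`), resp.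
  `|y_j ((tr p w k').1 - (tr p' w k').1)| ≤ ‖(w k').1‖ ≤ s` or `0` (`‖y_j‖ ≤ 1`; the difference is `(w k').1` if
  `p' ≤ k' < p` and `0` otherwise). So the second term is `≤ (1/4) 4 s = s`. Total `≤ 2 s`.
`e_chain`: unfold `e`; if `code k = (η + 1, p, k', i)` with `η < p ≤ k`, `k' < k` and `w` is supported in `[0, p)`, then
`d_k(w) = 0`, `(1 - tr p) w = 0`, so `e y k w = e y η w`.
`e_new`: if moreover `w` is supported in `[p, k)` instead, then `e y η w = 0` (`e_local` with `0`) and
`(1 - tr p) w = w`.
-/

set_option autoImplicit false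
set_option maxSynthPendingDepth 3

namespace Pool.Agent.Helper25.SC

variable {X₁ : Type*} [NormedAddCommGroup X₁] [NormedSpace ℝ X₁]

/-- The recursion for `e y m w`. -/
theorem e_unfold2 (y : ℕ → X₁ →L[ℝ] ℝ) (m : ℕ) (w : ℕ → X₁ × ℝ) :
    e y m w = (w m).2
      + (if 1 ≤ (code m).1 ∧ (code m).1 ≤ (code m).2.1 ∧ (code m).2.1 ≤ m then
          e y ((code m).1 - 1) w else 0)
      + (if (code m).2.1 ≤ m ∧ (code m).2.2.1 < m then
          (1 / 4 : ℝ) * (if (code m).2.2.2 = 0 then e y (code m).2.2.1 (w - tr (code m).2.1 w)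
            else if (code m).2.2.2 = 1 then - e y (code m).2.2.1 (w - tr (code m).2.1 w)
            else y ((code m).2.2.2 - 2) ((w - tr (code m).2.1 w) (code m).2.2.1).1)
        else 0) := by
  conv_lhs => rw [e]
  simp only [LinearMap.add_apply]
  refine congrArg₂ (fun a b : ℝ => a + b) (congrArg₂ (fun a b : ℝ => a + b) rfl ?_) ?_
  · by_cases h : 1 ≤ (code m).1 ∧ (code m).1 ≤ (code m).2.1 ∧ (code m).2.1 ≤ m
    · rw [dif_pos h, if_pos h]
    · rw [dif_neg h, if_neg h, LinearMap.zero_apply]
  · by_cases h : (code m).2.1 ≤ m ∧ (code m).2.2.1 < m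
    · rw [dif_pos h, if_pos h, LinearMap.smul_apply, smul_eq_mul, LinearMap.comp_apply,
        LinearMap.sub_apply, LinearMap.id_apply]
      split_ifs with h1 h2
      · rfl
      · rfl
      · rfl
    · rw [dif_neg h, if_neg h, LinearMap.zero_apply]

private theorem claimA_aux2 (y : ℕ → X₁ →L[ℝ] ℝ) (hy : ∀ i, ‖y i‖ ≤ 1) (k : ℕ) :
    ∀ (p : ℕ) (w : ℕ → X₁ × ℝ) (s : ℝ), 0 ≤ s → (∀ j, j < p → ‖T y w j‖ ≤ s) →
      |e y k (tr p w)| ≤ 2 * s := by
  induction k using Nat.strong_induction_on with
  | _ k ih =>
    intro p w s hs0 hs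
    have hs1 : ∀ j, j < p → ‖(w j).1‖ ≤ s := fun j hj =>
      (norm_fst_le (T y w j)).trans (hs j hj)
    have hs2 : ∀ j, j < p → |e y j w| ≤ s := fun j hj =>
      (norm_snd_le (T y w j)).trans (hs j hj)
    have hloc : ∀ j, j < p → e y j (tr p w) = e y j w := fun j hj =>
      e_local y j _ _ fun l hl => by rw [tr_apply, if_pos (by omega)]
    rcases lt_or_ge k p with hk | hk
    · rw [hloc k hk]
      linarith [hs2 k hk]
    · rw [e_unfold2]
      have h0 : (tr p w k).2 = 0 := by
        rw [tr_apply, if_neg (by omega)]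
        rfl
      rw [h0, zero_add]
      rcases le_or_gt p (code k).2.1 with hp | hp
      · have hz : tr p w - tr (code k).2.1 (tr p w) = 0 := by
          rw [tr_tr, min_eq_right hp, sub_self]
        have hB : (if (code k).2.1 ≤ k ∧ (code k).2.2.1 < k then
            (1 / 4 : ℝ) * (if (code k).2.2.2 = 0 then
                e y (code k).2.2.1 (tr p w - tr (code k).2.1 (tr p w))
              else if (code k).2.2.2 = 1 then
                - e y (code k).2.2.1 (tr p w - tr (code k).2.1 (tr p w))
              else y ((code k).2.2.2 - 2) ((tr p w - tr (code k).2.1 (tr p w)) (code k).2.2.1).1)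
            else 0) = 0 := by
          rw [hz]
          simp only [map_zero, neg_zero, Pi.zero_apply, Prod.fst_zero, ite_self, mul_zero]
        rw [hB, add_zero]
        split_ifs with h
        · exact ih _ (by omega) p w s hs0 hs
        · rw [abs_zero]
          linarith
      · have hA : |(if 1 ≤ (code k).1 ∧ (code k).1 ≤ (code k).2.1 ∧ (code k).2.1 ≤ k then
            e y ((code k).1 - 1) (tr p w) else 0)| ≤ s := by
          split_ifs with h
          · rw [hloc _ (by omega)]
            exact hs2 _ (by omega)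
          · rw [abs_zero]
            exact hs0
        have hB : |(if (code k).2.1 ≤ k ∧ (code k).2.2.1 < k then
            (1 / 4 : ℝ) * (if (code k).2.2.2 = 0 then
                e y (code k).2.2.1 (tr p w - tr (code k).2.1 (tr p w))
              else if (code k).2.2.2 = 1 then
                - e y (code k).2.2.1 (tr p w - tr (code k).2.1 (tr p w))
              else y ((code k).2.2.2 - 2) ((tr p w - tr (code k).2.1 (tr p w)) (code k).2.2.1).1)
            else 0)| ≤ s := by
          rw [tr_tr, min_eq_left hp.le]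
          split_ifs with h h1 h2
          · rw [map_sub, abs_mul, abs_of_pos (by norm_num : (0 : ℝ) < 1 / 4)]
            have e1 := ih _ h.2 p w s hs0 hs
            have e2 := ih _ h.2 (code k).2.1 w s hs0 fun j hj => hs j (hj.trans hp)
            have e3 := abs_sub (e y (code k).2.2.1 (tr p w)) (e y (code k).2.2.1 (tr (code k).2.1 w))
            linarith
          · rw [map_sub, abs_mul, abs_of_pos (by norm_num : (0 : ℝ) < 1 / 4), abs_neg]
            have e1 := ih _ h.2 p w s hs0 hs
            have e2 := ih _ h.2 (code k).2.1 w s hs0 fun j hj => hs j (hj.trans hp)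
            have e3 := abs_sub (e y (code k).2.2.1 (tr p w)) (e y (code k).2.2.1 (tr (code k).2.1 w))
            linarith
          · rw [abs_mul, abs_of_pos (by norm_num : (0 : ℝ) < 1 / 4)]
            have e1 : ‖((tr p w - tr (code k).2.1 w) (code k).2.2.1).1‖ ≤ s := by
              rw [Pi.sub_apply, tr_apply, tr_apply]
              by_cases c1 : (code k).2.2.1 < (code k).2.1
              · rw [if_pos c1, if_pos (c1.trans hp), sub_self]
                simpa using hs0
              · by_cases c2 : (code k).2.2.1 < p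
                · rw [if_neg c1, if_pos c2, sub_zero]
                  exact hs1 _ c2
                · rw [if_neg c1, if_neg c2, sub_zero]
                  simpa using hs0
            have e2 := (y ((code k).2.2.2 - 2)).le_opNorm
              ((tr p w - tr (code k).2.1 w) (code k).2.2.1).1
            rw [Real.norm_eq_abs] at e2
            have e3 := hy ((code k).2.2.2 - 2)
            have e4 : ‖y ((code k).2.2.2 - 2)‖ * ‖((tr p w - tr (code k).2.1 w) (code k).2.2.1).1‖
                ≤ 1 * s := mul_le_mul e3 e1 (norm_nonneg _) (by norm_num)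
            linarith
          · rw [abs_zero]
            exact hs0
        exact (abs_add_le _ _).trans (by linarith)

theorem claimA (y : ℕ → X₁ →L[ℝ] ℝ) (hy : ∀ i, ‖y i‖ ≤ 1) (k p : ℕ) (w : ℕ → X₁ × ℝ) (s : ℝ)
    (hs0 : 0 ≤ s) (hs : ∀ j, j < p → ‖T y w j‖ ≤ s) : ‖T y (tr p w) k‖ ≤ 2 * s := by
  rw [T_apply, Prod.norm_def]
  refine max_le ?_ ?_
  · show ‖(tr p w k).1‖ ≤ 2 * s
    rw [tr_apply]
    split_ifs with h
    · exact ((norm_fst_le (T y w k)).trans (hs k h)).trans (by linarith)
    · simpa using hs0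
  · exact claimA_aux2 y hy k p w s hs0 hs

theorem e_chain (y : ℕ → X₁ →L[ℝ] ℝ) {η p k' i k : ℕ} (hc : code k = (η + 1, p, k', i)) (h1 : η < p)
    (h2 : p ≤ k) (w : ℕ → X₁ × ℝ) (hw : tr p w = w) : e y k w = e y η w := by
  have h0 : w k = 0 := by
    rw [← hw, tr_apply, if_neg (by omega)]
  rw [e_unfold2, hc, h0]
  simp only [hw, sub_self, map_zero, neg_zero, Pi.zero_apply, Prod.fst_zero, Prod.snd_zero, ite_self,
    mul_zero, add_zero, zero_add, Nat.add_sub_cancel]
  rw [if_pos ⟨by omega, by omega, h2⟩]

theorem e_new (y : ℕ → X₁ →L[ℝ] ℝ) {η p k' i k : ℕ} (hc : code k = (η + 1, p, k', i)) (h1 : η < p)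
    (h2 : p ≤ k) (h3 : k' < k) (w : ℕ → X₁ × ℝ) (hw : tr p w = 0) (hw' : tr k w = w) :
    e y k w = (1 / 4) * (if i = 0 then e y k' w else if i = 1 then - e y k' w
      else y (i - 2) ((w k').1)) := by
  have h0 : w k = 0 := by
    rw [← hw', tr_apply, if_neg (by omega)]
  have h4 : e y η w = 0 := by
    rw [e_local y η w 0 fun j hj => ?_, map_zero]
    have h5 := congrFun hw j
    rw [tr_apply, if_pos (by omega)] at h5
    exact h5
  rw [e_unfold2, hc, h0]
  simp only [hw, sub_zero, Prod.snd_zero, zero_add, Nat.add_sub_cancel, h4, ite_self]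
  rw [if_pos ⟨h2, h3⟩]

end Pool.Agent.Helper25.SC
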