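import Pool.Agent.Helper25.SC.BDX

/-!
# Block SC-BDI: the embeddings `X₁ → BD y` and the finite-dimensional perturbation

* `v k x = (x k).1`.
* `i k x = T y (single k (x, 0))` as an element of `BD0 y` (the sequence with value `(x, 0)` at `k` and `0` elsewhere is `tr (k+1)`
  of itself; the norm estimate `≤ 2 B ‖x‖` comes from `norm_T_tr_S_le` / `claimA` with `p = k + 1` and
  `s = max_{j ≤ k} ‖T y (single k (x,0)) j‖`, where `e y j (single k (x, 0))` is `0` for `j ≤ k` (`e_local`, `e_sub_local` with `w' = 0`), so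
  `s = ‖x‖`.) `v k (i k x) = x`.
* Last item: for given `n`, `ε` let `w(x) = tr n (S y (fun j => if j < n then (ε j • x, 0) else 0))` (linear in `x`). By
  `norm_T_tr_S_le` (`s = ‖x‖`), `T y (w(x))` defines an element `R x` of `BD0 y` with `‖R x‖ ≤ 2 ‖x‖`. The sequences `w(x)` and
  `∑_{k<n} single k (ε k • x, 0)` have the same first components, (`(w(x) k).1 = ε k • x` for `k < n`, from `T_S`), so
  `w(x) = ∑_{k<n} single k (ε k • x, 0) + ∑_{k<n} single k (0, r_k(x))` with `r_k(x) = (w(x) k).2`. Put `D k = T y (single k (0, 1))`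
  (in `BD0 y`). Then `R x = ∑_{k<n} ε k • i k x + ∑_{k<n} r_k(x) • D k`. Continuity of `r_k : X₁ → ℝ` (linear): either by
  induction on `k`, `r_k(x) = (w(x) k).2 = e_k(w(x)) - (e y k (w(x)) - (w(x) k).2)`, or: every coordinate functional of
  `z ↦ (S y z k)` restricted to `LX X₁` is bounded; prove by strong induction on `k` that there is `C_k` with
  `‖S y z k‖ ≤ C_k * s` whenever `‖z j‖ ≤ s` for `j ≤ k`; e.g. from `(S y z k) = (z k).1`, and
  `(S y z k).2 = (z k).2 - (e y k (S y z) - (S y z k).2)`, the last bracket being `(T y (tr k (S y z)) k).2`, which is bounded by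
  `2 s` by `norm_T_tr_S_le`! So `|(S y z k).2| ≤ 3 s` directly.
-/

set_option autoImplicit false
set_option maxSynthPendingDepth 3

namespace Pool.Agent.Helper25.SC

variable {X₁ : Type*} [NormedAddCommGroup X₁] [NormedSpace ℝ X₁]

/-- The element of `BD y` given by the truncation to the coordinates `< p` of the sequence `w`. -/
noncomputable def R95 {y : ℕ → X₁ →L[ℝ] ℝ} (hy : ∀ i, ‖y i‖ ≤ 1) (p : ℕ) :
    (ℕ → X₁ × ℝ) →ₗ[ℝ] BD y where
  toFun w := ⟨⟨T y (tr p w), by
      refine memℓp_infty ⟨2 * ∑ j ∈ Finset.range p, ‖T y w j‖, ?_⟩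
      rintro _ ⟨k, rfl⟩
      have h := norm_T_tr_S_le hy p (T y w) (∑ j ∈ Finset.range p, ‖T y w j‖)
        (Finset.sum_nonneg fun _ _ => norm_nonneg _)
        (fun j hj => Finset.single_le_sum (f := fun j => ‖T y w j‖) (fun _ _ => norm_nonneg _)
          (Finset.mem_range.2 hj)) k
      rwa [S_T] at h⟩,
    Submodule.le_topologicalClosure _ ⟨p, by
      change tr p (S y (T y (tr p w))) = S y (T y (tr p w))
      rw [S_T, tr_tr, min_self]⟩⟩
  map_add' a b := by
    apply Subtype.ext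
    apply Subtype.ext
    change T y (tr p (a + b)) = T y (tr p a) + T y (tr p b)
    rw [map_add, map_add]
  map_smul' c a := by
    apply Subtype.ext
    apply Subtype.ext
    change T y (tr p (c • a)) = c • T y (tr p a)
    rw [map_smul, map_smul]

theorem R95_coe {y : ℕ → X₁ →L[ℝ] ℝ} (hy : ∀ i, ‖y i‖ ≤ 1) (p : ℕ) (w : ℕ → X₁ × ℝ) :
    ((R95 hy p w : LX X₁) : ℕ → X₁ × ℝ) = T y (tr p w) := rfl

theorem norm_R95_le {y : ℕ → X₁ →L[ℝ] ℝ} (hy : ∀ i, ‖y i‖ ≤ 1) (p : ℕ) (w : ℕ → X₁ × ℝ) (s : ℝ)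
    (hs0 : 0 ≤ s) (hs : ∀ j, j < p → ‖T y w j‖ ≤ s) : ‖R95 hy p w‖ ≤ 2 * s := by
  change ‖(R95 hy p w : LX X₁)‖ ≤ 2 * s
  refine lp.norm_le_of_forall_le (by positivity) fun k => ?_
  rw [R95_coe]
  have h := norm_T_tr_S_le hy p (T y w) s hs0 hs k
  rwa [S_T] at h

/-- The sequence with the value `u` at `k` and `0` elsewhere. -/
noncomputable def sg95 (k : ℕ) : X₁ × ℝ →ₗ[ℝ] (ℕ → X₁ × ℝ) :=
  LinearMap.single ℝ (fun _ : ℕ => X₁ × ℝ) k

theorem sg95_apply (k : ℕ) (u : X₁ × ℝ) (j : ℕ) :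
    sg95 k u j = if j = k then u else 0 := by
  unfold sg95
  rw [LinearMap.single_apply, Pi.single_apply]

theorem tr_sg95 {k n : ℕ} (h : k < n) (u : X₁ × ℝ) : tr n (sg95 k u) = sg95 k u := by
  funext j
  rw [tr_apply]
  split_ifs with h1
  · rfl
  · rw [sg95_apply, if_neg (by omega)]

theorem R95_sg {y : ℕ → X₁ →L[ℝ] ℝ} (hy : ∀ i, ‖y i‖ ≤ 1) {k n : ℕ} (h : k < n) (u : X₁ × ℝ) :
    R95 hy n (sg95 k u) = R95 hy (k + 1) (sg95 k u) := by
  apply Subtype.ext
  apply Subtype.ext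
  rw [R95_coe, R95_coe, tr_sg95 h, tr_sg95 (Nat.lt_succ_self k)]

theorem T_sg95 (y : ℕ → X₁ →L[ℝ] ℝ) (k : ℕ) (u : X₁ × ℝ) (j : ℕ) (hj : j < k + 1) :
    T y (sg95 k u) j = if j = k then u else 0 := by
  have h0 : ∀ i, i < j → sg95 k u i = (0 : ℕ → X₁ × ℝ) i := by
    intro i hi
    rw [sg95_apply, if_neg (by omega)]
    rfl
  have h1 := e_sub_local y j (sg95 k u) 0 h0
  rw [map_zero] at h1
  simp only [Pi.zero_apply, Prod.snd_zero, sub_zero] at h1
  have h2 : e y j (sg95 k u) = (sg95 k u j).2 := by linarith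
  rw [T_apply, h2, sg95_apply]

theorem bd_interface {y : ℕ → X₁ →L[ℝ] ℝ} (hy : ∀ i, ‖y i‖ ≤ 1) :
    ∃ (i : ℕ → X₁ →L[ℝ] BD y) (v : ℕ → BD y →L[ℝ] X₁),
      (∀ k x, v k (i k x) = x) ∧ (∀ k, ‖v k‖ ≤ 1) ∧
      ∀ (n : ℕ) (ε : ℕ → ℝ), (∀ k, |ε k| ≤ 1) →
        ∃ (r : ℕ → X₁ →L[ℝ] ℝ) (Dv : ℕ → BD y), ∀ x : X₁,
          ‖∑ k ∈ Finset.range n, ε k • i k x + ∑ k ∈ Finset.range n, r k x • Dv k‖ ≤ 2 * ‖x‖ := by
  let i : ℕ → X₁ →L[ℝ] BD y := fun k =>
    LinearMap.mkContinuous ((R95 hy (k + 1)).comp ((sg95 k).comp (LinearMap.inl ℝ X₁ ℝ))) 2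
      (fun x => by
        refine norm_R95_le hy (k + 1) _ ‖x‖ (norm_nonneg x) fun j hj => ?_
        simp only [LinearMap.comp_apply, LinearMap.inl_apply]
        rw [T_sg95 y k _ j hj]
        split_ifs
        · simp
        · simp)
  have hi : ∀ k x, i k x = R95 hy (k + 1) (sg95 k (x, 0)) := fun k x => rfl
  let v : ℕ → BD y →L[ℝ] X₁ := fun k =>
    LinearMap.mkContinuous
      { toFun := fun z => (((z : LX X₁) : ℕ → X₁ × ℝ) k).1
        map_add' := fun a b => rfl
        map_smul' := fun c a => rfl } 1 (fun z => by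
          rw [one_mul]
          exact (norm_fst_le _).trans (lp.norm_apply_le_norm (by simp) (z : LX X₁) k))
  have hv : ∀ k (z : BD y), v k z = (((z : LX X₁) : ℕ → X₁ × ℝ) k).1 := fun k z => rfl
  refine ⟨i, v, ?_, ?_, ?_⟩
  · intro k x
    rw [hv, hi, R95_coe, tr_sg95 (Nat.lt_succ_self k), T_apply, sg95_apply, if_pos rfl]
  · intro k
    exact LinearMap.mkContinuous_norm_le _ zero_le_one _
  · intro n ε hε
    let W : X₁ →ₗ[ℝ] (ℕ → X₁ × ℝ) := (S y).comp (σ₁₂ := RingHom.id ℝ)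
      { toFun := fun x j => (ε j • x, 0)
        map_add' := fun a b => by
          funext j
          refine Prod.ext ?_ ?_
          · exact smul_add (ε j) a b
          · simp
        map_smul' := fun c a => by
          funext j
          refine Prod.ext ?_ ?_
          · exact smul_comm (ε j) c a
          · simp }
    have hTW : ∀ x j, T y (W x) j = (ε j • x, 0) := by
      intro x j
      change T y (S y _) j = _
      rw [T_S]
      rfl
    have hWs : ∀ x j, ‖T y (W x) j‖ ≤ ‖x‖ := by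
      intro x j
      rw [hTW, Prod.norm_mk, norm_smul, norm_zero]
      refine max_le ?_ (norm_nonneg _)
      exact mul_le_of_le_one_left (norm_nonneg _) (hε j)
    have hW1 : ∀ x j, (W x j).1 = ε j • x := by
      intro x j
      have h := hTW x j
      rw [T_apply] at h
      exact (Prod.ext_iff.1 h).1
    have hW2 : ∀ x k, |(W x k).2| ≤ 2 * ‖x‖ := by
      intro x k
      have h1 : e y k (W x) = 0 := by
        have h := hTW x k
        rw [T_apply] at h
        exact (Prod.ext_iff.1 h).2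
      have h2 := e_sub_local y k (W x) (tr k (W x)) (fun j hj => by rw [tr_apply, if_pos hj])
      have h3 : tr k (W x) k = 0 := by rw [tr_apply, if_neg (lt_irrefl k)]
      rw [h1, h3] at h2
      have h4 := norm_T_tr_S_le hy k (T y (W x)) ‖x‖ (norm_nonneg x) (fun j _ => hWs x j) k
      rw [S_T, T_apply] at h4
      have h5 := (norm_snd_le _).trans h4
      simp only [Real.norm_eq_abs] at h5
      have h6 : (W x k).2 = -e y k (tr k (W x)) := by
        simp only [Prod.snd_zero, sub_zero, zero_sub] at h2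
        linarith
      rw [h6, abs_neg]
      exact h5
    let r : ℕ → X₁ →L[ℝ] ℝ := fun k =>
      LinearMap.mkContinuous ((LinearMap.snd ℝ X₁ ℝ).comp ((LinearMap.proj k).comp W)) 2
        (fun x => hW2 x k)
    have hr : ∀ k x, r k x = (W x k).2 := fun k x => rfl
    refine ⟨r, fun k => R95 hy (k + 1) (sg95 k (0, 1)), fun x => ?_⟩
    have h1 : tr n (W x) = ∑ k ∈ Finset.range n, sg95 k (W x k) := by
      funext j
      rw [Finset.sum_apply, tr_apply]
      simp only [sg95_apply]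
      rw [Finset.sum_ite_eq (Finset.range n) j]
      simp only [Finset.mem_range]
    have h2 : R95 hy n (W x) = R95 hy n (tr n (W x)) := by
      apply Subtype.ext
      apply Subtype.ext
      rw [R95_coe, R95_coe, tr_tr, min_self]
    have h3 : ∑ k ∈ Finset.range n, ε k • i k x +
        ∑ k ∈ Finset.range n, r k x • R95 hy (k + 1) (sg95 k (0, 1)) = R95 hy n (W x) := by
      rw [h2, h1, map_sum, ← Finset.sum_add_distrib]
      refine Finset.sum_congr rfl fun k hk => ?_
      rw [hi, R95_sg hy (Finset.mem_range.1 hk), ← map_smul, ← map_smul, ← map_smul, ← map_smul,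
        ← map_add, ← map_add, hr]
      congr 2
      refine Prod.ext ?_ ?_
      · simp [hW1]
      · simp
    rw [h3]
    exact norm_R95_le hy n (W x) ‖x‖ (norm_nonneg x) fun j _ => hWs x j

end Pool.Agent.Helper25.SC
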