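import Pool.Agent.Helper25.SC.BDX

/-!
# Block SC-BDS1: `Q p x → x` on `BD y`, and the chain step

`Q_tendsto`: for `x ∈ BD0 y`, `tr q (S y x) = S y x` for some `q`, so `Q p x = x` for `p ≥ q` (`tr_tr`, `T_S`). The operators
`Q p` are uniformly bounded (`‖Q p x‖ ≤ 2 ‖x‖`, `norm_Q_le` with `s = ‖x‖`), so `Q p x → x` on the closure.

`chain_step`: let `x ∈ BD y`, `c > 0`, `‖x‖ ≥ c`, `m ∈ ℕ`, and let `‖x j‖ ≤ c / 200` for all `j ≤ m`. By density there is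
`x' ∈ BD0 y` with `‖x - x'‖ ≤ c / 200`; put `x'' = x' - Q (m + 1) x'`, `w = S y x''`. `‖x' j‖ ≤ c / 100` for `j ≤ m`, so
`‖Q (m+1) x'‖ ≤ c / 50` (`norm_Q_le`) and `‖x - x''‖ ≤ c / 40`. `w` is finitely supported: `tr q w = w` for some `q > m + 1`, and
`tr (m + 1) w = 0` (`S y (Q (m+1) x') = tr (m+1) (S y x')`). `‖x''‖ ≥ 3 c / 4`. There is `k < q` with `‖T y w k‖ ≥ 3 c / 8`, since
otherwise `‖x''‖ = ‖Q q x''‖ ≤ 2 max_{k<q} ‖x'' k‖ < 3c/4`. So `‖(w k).1‖ ≥ 3c/8` or `|e y k w| ≥ 3c/8`: choose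
`i ∈ {0, 1}` or `i = j + 2` (`hn`: `y j ((w k).1) ≥ 3c/16`) such that `f(w) ≥ 3c/16`, where `f` is the functional of `e_new`, and
`m'` with `m' ≥ max q (k + 1)` and `code m' = (m + 1, m + 1, k, i)` (`exists_code`). By `e_new` `e y m' w ≥ 3c/64`, i.e.
`(x'' m').2 ≥ 3c/64`, so `(x m').2 ≥ 3c/64 - c/40 ≥ c/64`... for the later functionals we need the statement for
`x''` instead of `x`: the last claim says that all functionals `g` which agree with `e y m'` on vectors supported in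
`[0, m']` satisfy `g(w) ≥ 3c/64`; we state it with `x''` and the distance.
`e_pres`: for `m'` as above and every `u` with `tr (m + 1) u = u`: `e y m' u = e y m u` (`e_chain`).
-/

set_option autoImplicit false
set_option maxSynthPendingDepth 3

namespace Pool.Agent.Helper25.SC

open Filter Topology

variable {X₁ : Type*} [NormedAddCommGroup X₁] [NormedSpace ℝ X₁]

private theorem BDS1_Q_fix {y : ℕ → X₁ →L[ℝ] ℝ} (hy : ∀ i, ‖y i‖ ≤ 1) {x : LX X₁} {q p : ℕ}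
    (hq : tr q (S y x) = S y x) (hqp : q ≤ p) : Q hy p x = x := by
  apply Subtype.ext
  rw [Q_apply, ← hq, tr_tr, min_eq_right hqp, hq, T_S]

private theorem BDS1_norm_Q {y : ℕ → X₁ →L[ℝ] ℝ} (hy : ∀ i, ‖y i‖ ≤ 1) (p : ℕ) (x : LX X₁) :
    ‖Q hy p x‖ ≤ 2 * ‖x‖ :=
  norm_Q_le hy p x ‖x‖ (norm_nonneg x) fun j _ => lp.norm_apply_le_norm (by simp) x j

theorem Q_tendsto {y : ℕ → X₁ →L[ℝ] ℝ} (hy : ∀ i, ‖y i‖ ≤ 1) {x : LX X₁} (hx : x ∈ BD y) :
    Tendsto (fun p => Q hy p x) atTop (𝓝 x) := by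
  rw [Metric.tendsto_atTop]
  intro ε hε
  have hx' : x ∈ closure (BD0 y : Set (LX X₁)) := hx
  obtain ⟨x', hx'0, hd⟩ := Metric.mem_closure_iff.1 hx' (ε / 4) (by positivity)
  obtain ⟨q, hq⟩ := hx'0
  refine ⟨q, fun p hp => ?_⟩
  rw [dist_eq_norm] at hd ⊢
  have h1 : Q hy p x' = x' := BDS1_Q_fix hy hq hp
  have h2 : Q hy p x - x = Q hy p (x - x') - (x - x') := by
    rw [map_sub, h1]
    abel
  rw [h2]
  calc ‖Q hy p (x - x') - (x - x')‖ ≤ ‖Q hy p (x - x')‖ + ‖x - x'‖ := norm_sub_le _ _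
    _ ≤ 2 * ‖x - x'‖ + ‖x - x'‖ := by gcongr; exact BDS1_norm_Q hy p _
    _ < ε := by linarith

theorem chain_step {y : ℕ → X₁ →L[ℝ] ℝ} (hy : ∀ i, ‖y i‖ ≤ 1) (hn : ∀ x : X₁, ∃ i, ‖x‖ / 2 ≤ y i x)
    {x : LX X₁} (hx : x ∈ BD y) {c : ℝ} (hc : 0 < c) (hxc : c ≤ ‖x‖) (m : ℕ)
    (hm : ∀ j, j ≤ m → ‖x j‖ ≤ c / 200) :
    ∃ (x'' : LX X₁) (m' : ℕ), m < m' ∧ ‖x - x''‖ ≤ c / 40 ∧ tr m' (S y x'') = S y x'' ∧
      3 * c / 64 ≤ (x'' m').2 ∧
      ∀ u : ℕ → X₁ × ℝ, tr (m + 1) u = u → e y m' u = e y m u := by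
  have hx' : x ∈ closure (BD0 y : Set (LX X₁)) := hx
  obtain ⟨x', hx'0, hd⟩ := Metric.mem_closure_iff.1 hx' (c / 200) (by positivity)
  obtain ⟨q0, hq0⟩ := hx'0
  rw [dist_eq_norm] at hd
  have hx'j : ∀ j, j < m + 1 → ‖x' j‖ ≤ c / 100 := by
    intro j hj
    have h1 : ‖(x - x') j‖ ≤ ‖x - x'‖ := lp.norm_apply_le_norm (by simp) (x - x') j
    have h2 : (x' : ℕ → X₁ × ℝ) j = x j - (x - x') j := by
      rw [lp.coeFn_sub, Pi.sub_apply]
      abel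
    rw [h2]
    have h3 := hm j (by omega)
    calc ‖x j - (x - x') j‖ ≤ ‖x j‖ + ‖(x - x') j‖ := norm_sub_le _ _
      _ ≤ c / 100 := by linarith
  have hQ : ‖Q hy (m + 1) x'‖ ≤ 2 * (c / 100) := norm_Q_le hy (m + 1) x' (c / 100) (by positivity) hx'j
  obtain ⟨x'', hx''⟩ : ∃ x'' : LX X₁, x'' = x' - Q hy (m + 1) x' := ⟨_, rfl⟩
  have hdist : ‖x - x''‖ ≤ c / 40 := by
    have h1 : x - x'' = (x - x') + Q hy (m + 1) x' := by
      rw [hx'']
      abel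
    rw [h1]
    calc ‖(x - x') + Q hy (m + 1) x'‖ ≤ ‖x - x'‖ + ‖Q hy (m + 1) x'‖ := norm_add_le _ _
      _ ≤ c / 40 := by linarith
  obtain ⟨w, hw⟩ : ∃ w : ℕ → X₁ × ℝ, w = S y x'' := ⟨_, rfl⟩
  have hTw : T y w = x'' := by rw [hw, T_S]
  have hw2 : w = S y x' - tr (m + 1) (S y x') := by
    rw [hw, hx'', lp.coeFn_sub, map_sub, Q_apply, S_T]
  have hwm : tr (m + 1) w = 0 := by
    rw [hw2, map_sub, tr_tr, min_self, sub_self]
  have hwq : ∀ q, q0 ≤ q → m + 1 ≤ q → tr q w = w := by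
    intro q h1 h2
    rw [hw2, map_sub, tr_tr, min_eq_right h2]
    congr 1
    rw [← hq0, tr_tr, min_eq_right h1]
  obtain ⟨q, hq⟩ : ∃ q, q = max q0 (m + 1) := ⟨_, rfl⟩
  have hq1 : q0 ≤ q := hq ▸ le_max_left _ _
  have hq2 : m + 1 ≤ q := hq ▸ le_max_right _ _
  have hnorm : 39 * c / 40 ≤ ‖x''‖ := by
    have h1 : ‖x‖ ≤ ‖x - x''‖ + ‖x''‖ := by
      have := norm_add_le (x - x'') x''
      rwa [sub_add_cancel] at this
    linarith
  obtain ⟨k, hkq, hk⟩ : ∃ k, k < q ∧ 3 * c / 8 ≤ ‖x'' k‖ := by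
    by_contra hcon
    push Not at hcon
    have h1 : Q hy q x'' = x'' := BDS1_Q_fix hy (by rw [← hw]; exact hwq q hq1 hq2) le_rfl
    have h2 := norm_Q_le hy q x'' (3 * c / 8) (by positivity) fun j hj => (hcon j hj).le
    rw [h1] at h2
    linarith
  have hk' : ‖(w k).1‖ = ‖(x'' k).1‖ ∧ e y k w = (x'' k).2 := by
    have h1 := congrFun hTw k
    rw [T_apply] at h1
    rw [← h1]
    exact ⟨rfl, rfl⟩
  obtain ⟨i, hi⟩ : ∃ i : ℕ, 3 * c / 16 ≤ (if i = 0 then e y k w else if i = 1 then - e y k w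
      else y (i - 2) ((w k).1)) := by
    rw [Prod.norm_def] at hk
    rcases le_max_iff.1 hk with h | h
    · obtain ⟨j, hj⟩ := hn (w k).1
      refine ⟨j + 2, ?_⟩
      rw [if_neg (by omega), if_neg (by omega), Nat.add_sub_cancel]
      rw [hk'.1] at hj
      linarith
    · rw [← hk'.2, Real.norm_eq_abs] at h
      rcases le_abs.1 h with h1 | h1
      · exact ⟨0, by rw [if_pos rfl]; linarith⟩
      · exact ⟨1, by rw [if_neg (by omega), if_pos rfl]; linarith⟩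
  obtain ⟨m', hm'1, hm'2⟩ := exists_code (m + 1, m + 1, k, i) (q + (k + 1))
  have hwm' : tr m' w = w := hwq m' (by omega) (by omega)
  have he := e_new y hm'2 (Nat.lt_succ_self m) (by omega) (by omega) w hwm hwm'
  refine ⟨x'', m', by omega, hdist, ?_, ?_, ?_⟩
  · rw [← hw]
    exact hwm'
  · have h1 := congrFun hTw m'
    rw [T_apply] at h1
    rw [← h1]
    change 3 * c / 64 ≤ e y m' w
    rw [he]
    linarith
  · intro u hu
    exact e_chain y hm'2 (Nat.lt_succ_self m) (by omega) u hu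

end Pool.Agent.Helper25.SC
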