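import Pool.Agent.Helper25.SC.BDS1

/-!
# Block SC-BDS2: `BD y` is Schur if `X₁` is

It is enough to treat weakly null sequences `x_n ∈ BD y`. If `‖x_n‖` does not tend to `0`, pass to a subsequence with
`‖x_n‖ ≥ c > 0` (still weakly null). For every `j` the coordinate `x ↦ x j` is a bounded linear map
`BD y → X₁ × ℝ`, so its components `(x_n j).1` and `(x_n j).2` are weakly null in `X₁` resp. tend to `0`, so
`‖x_n j‖ → 0` as `n → ∞` (`X₁` is Schur). Using `chain_step` construct recursively `i_0 < i_1 < ...` and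
`m_0 < m_1 < ...` (`m_0 = 0`) and `x''_n`: given `m_n` choose `i_(n+1) > i_n` with `‖x_(i_(n+1)) j‖ ≤ c / 200` for `j ≤ m_n` and
apply `chain_step` to `x_(i_(n+1))`, `m_n`, obtaining `x''_(n+1)` and `m_(n+1)`. For `N ≥ n` we get
`e y m_N (S y x''_n) = e y m_n (S y x''_n) = (x''_n m_n).2 ≥ 3c/64` by induction on `N`: `u = S y x''_n` satisfies
`tr (m_n) u = u`, hence `tr (m_N + 1) u = u` and `e y m_(N+1) u = e y m_N u`. So `(x''_n m_N).2 ≥ 3c/64` and
`(x_(i_n) m_N).2 ≥ 3c/64 - c/40 > c / 64 - ... > 0`: precisely `3/64 - 1/40 = 7/320 > 1/50`.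
The functionals `x ↦ (x m_N).2` on `BD y` have norm `≤ 1`. By Banach-Alaoglu (the closed unit ball of the dual is
weak* compact, `WeakDual.isCompact_closedBall`; or a limit along an ultrafilter `hyperfilter ℕ` of bounded real
sequences) there is a functional `L` with `L (x_(i_n)) ≥ c / 50` for all `n ≥ 1`. Contradiction to `x_n` weakly null.
-/

set_option autoImplicit false
set_option maxSynthPendingDepth 3

namespace Pool.Agent.Helper25.SC

open Filter Topology

variable {X₁ : Type*} [NormedAddCommGroup X₁] [NormedSpace ℝ X₁]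

/-- first component of the `j`-th coordinate -/
private noncomputable def BDS2_c1 (y : ℕ → X₁ →L[ℝ] ℝ) (j : ℕ) : BD y →L[ℝ] X₁ :=
  (ContinuousLinearMap.fst ℝ X₁ ℝ).comp
    ((lp.evalCLM ℝ (fun _ : ℕ => X₁ × ℝ) ⊤ j).comp (BD y).subtypeL)

/-- second component of the `j`-th coordinate -/
private noncomputable def BDS2_c2 (y : ℕ → X₁ →L[ℝ] ℝ) (j : ℕ) : BD y →L[ℝ] ℝ :=
  (ContinuousLinearMap.snd ℝ X₁ ℝ).comp
    ((lp.evalCLM ℝ (fun _ : ℕ => X₁ × ℝ) ⊤ j).comp (BD y).subtypeL)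

private theorem BDS2_c1_apply (y : ℕ → X₁ →L[ℝ] ℝ) (j : ℕ) (x : BD y) :
    BDS2_c1 y j x = ((x : LX X₁) j).1 := rfl

private theorem BDS2_c2_apply (y : ℕ → X₁ →L[ℝ] ℝ) (j : ℕ) (x : BD y) :
    BDS2_c2 y j x = ((x : LX X₁) j).2 := rfl

private theorem BDS2_norm_c2 (y : ℕ → X₁ →L[ℝ] ℝ) (j : ℕ) : ‖BDS2_c2 y j‖ ≤ 1 := by
  refine ContinuousLinearMap.opNorm_le_bound _ zero_le_one fun x => ?_
  rw [BDS2_c2_apply, one_mul]
  calc ‖((x : LX X₁) j).2‖ ≤ ‖(x : LX X₁) j‖ := norm_snd_le _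
    _ ≤ ‖(x : LX X₁)‖ := lp.norm_apply_le_norm (by simp) (x : LX X₁) j
    _ = ‖x‖ := rfl

private theorem BDS2_null {y : ℕ → X₁ →L[ℝ] ℝ} (hS : Schur X₁) (hy : ∀ i, ‖y i‖ ≤ 1)
    (hn : ∀ x : X₁, ∃ i, ‖x‖ / 2 ≤ y i x) (v : ℕ → BD y)
    (hv : ∀ f : BD y →L[ℝ] ℝ, Tendsto (fun n => f (v n)) atTop (𝓝 0)) :
    Tendsto v atTop (𝓝 0) := by
  by_contra hcon
  rw [Metric.tendsto_atTop] at hcon
  push Not at hcon
  obtain ⟨c, hc, hbig⟩ := hcon
  simp only [dist_zero_right] at hbig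
  -- coordinates tend to zero
  have hcoord : ∀ j, Tendsto (fun n => ‖((v n : BD y) : LX X₁) j‖) atTop (𝓝 0) := by
    intro j
    have h1 : Tendsto (fun n => BDS2_c1 y j (v n)) atTop (𝓝 0) := by
      apply hS
      intro f
      have := hv (f.comp (BDS2_c1 y j))
      simpa using this
    have h2 : Tendsto (fun n => BDS2_c2 y j (v n)) atTop (𝓝 0) := hv _
    have h3 := (h1.prodMk_nhds h2).norm
    simp only [Prod.mk_zero_zero, norm_zero] at h3
    exact h3
  have hsmall : ∀ m : ℕ, ∀ᶠ n in atTop, ∀ j, j ≤ m → ‖((v n : BD y) : LX X₁) j‖ ≤ c / 200 := by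
    intro m
    have h1 : ∀ j ∈ Finset.range (m + 1), ∀ᶠ n in atTop, ‖((v n : BD y) : LX X₁) j‖ ≤ c / 200 :=
      fun j _ => (hcoord j).eventually_le_const (by positivity)
    have h2 := (Filter.eventually_all_finset (Finset.range (m + 1))).2 h1
    filter_upwards [h2] with n hn' j hj
    exact hn' j (Finset.mem_range.2 (by omega))
  -- the step
  have hstep : ∀ i m : ℕ, ∃ (i' : ℕ) (x'' : LX X₁) (m' : ℕ), i < i' ∧ m < m' ∧
      ‖((v i' : BD y) : LX X₁) - x''‖ ≤ c / 40 ∧ tr m' (S y x'') = S y x'' ∧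
      3 * c / 64 ≤ (x'' m').2 ∧
      ∀ u : ℕ → X₁ × ℝ, tr (m + 1) u = u → e y m' u = e y m u := by
    intro i m
    obtain ⟨N, hN⟩ := eventually_atTop.1 (hsmall m)
    obtain ⟨i', hi', hci'⟩ := hbig (N + (i + 1))
    obtain ⟨x'', m', h1, h2, h3, h4, h5⟩ := chain_step hy hn (v i').2 hc hci' m
      (hN i' (by omega))
    exact ⟨i', x'', m', by omega, h1, h2, h3, h4, h5⟩
  choose nI nX nM hI hM hd ht hge hpres using hstep
  obtain ⟨st, hst⟩ : ∃ st : ℕ → ℕ × ℕ, ∀ n, st (n + 1) = (nI (st n).1 (st n).2, nM (st n).1 (st n).2) :=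
    ⟨fun n => Nat.rec (0, 0) (fun _ p => (nI p.1 p.2, nM p.1 p.2)) n, fun n => rfl⟩
  have hst1 : ∀ n, (st (n + 1)).1 = nI (st n).1 (st n).2 := fun n => by rw [hst]
  have hst2 : ∀ n, (st (n + 1)).2 = nM (st n).1 (st n).2 := fun n => by rw [hst]
  have hmono1 : StrictMono fun n => (st n).1 := strictMono_nat_of_lt_succ fun n => by
    rw [hst1]
    exact hI _ _
  have hmono2 : StrictMono fun n => (st n).2 := strictMono_nat_of_lt_succ fun n => by
    rw [hst2]
    exact hM _ _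
  obtain ⟨X, hX⟩ : ∃ X : ℕ → LX X₁, ∀ n, X n = nX (st n).1 (st n).2 := ⟨_, fun n => rfl⟩
  have hXt : ∀ n, tr (st (n + 1)).2 (S y (X n)) = S y (X n) := fun n => by
    rw [hst2, hX]
    exact ht _ _
  have hkey : ∀ n k, 3 * c / 64 ≤ e y (st (n + 1 + k)).2 (S y (X n)) := by
    intro n k
    induction k with
    | zero =>
      have h1 := congrFun (T_S y (X n)) (st (n + 1)).2
      rw [T_apply] at h1
      have h2 : e y (st (n + 1)).2 (S y (X n)) = (X n (st (n + 1)).2).2 := (Prod.ext_iff.1 h1).2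
      rw [add_zero, h2, hst2, hX]
      exact hge _ _
    | succ k ih =>
      have h1 : e y (st (n + 1 + k + 1)).2 (S y (X n)) = e y (st (n + 1 + k)).2 (S y (X n)) := by
        rw [hst2]
        apply hpres
        have h2 : (st (n + 1)).2 ≤ (st (n + 1 + k)).2 + 1 :=
          (hmono2.monotone (by omega : n + 1 ≤ n + 1 + k)).trans (Nat.le_succ _)
        rw [← hXt n, tr_tr, min_eq_right h2]
      rw [← add_assoc, h1]
      exact ih
  have hval : ∀ n N, n + 1 ≤ N → 7 * c / 320 ≤ BDS2_c2 y (st N).2 (v (st (n + 1)).1) := by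
    intro n N hN
    obtain ⟨k, rfl⟩ := Nat.exists_eq_add_of_le hN
    have h1 := hkey n k
    have h2 : e y (st (n + 1 + k)).2 (S y (X n)) = (X n (st (n + 1 + k)).2).2 := by
      have h1 := congrFun (T_S y (X n)) (st (n + 1 + k)).2
      rw [T_apply] at h1
      exact (Prod.ext_iff.1 h1).2
    rw [h2] at h1
    have h3 : ‖((v (st (n + 1)).1 : BD y) : LX X₁) - X n‖ ≤ c / 40 := by
      rw [hst1, hX]
      exact hd _ _
    have h4 : |((((v (st (n + 1)).1 : BD y) : LX X₁) - X n) (st (n + 1 + k)).2).2| ≤ c / 40 := by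
      rw [← Real.norm_eq_abs]
      exact (norm_snd_le _).trans ((lp.norm_apply_le_norm (by simp) _ _).trans h3)
    rw [lp.coeFn_sub, Pi.sub_apply, Prod.snd_sub] at h4
    rw [BDS2_c2_apply]
    have h5 := (abs_le.1 h4).1
    linarith
  -- a weak* cluster point
  obtain ⟨L, hL⟩ : ∃ L : BD y →L[ℝ] ℝ, ∀ x, Tendsto (fun N => BDS2_c2 y (st N).2 x)
      (hyperfilter ℕ : Filter ℕ) (𝓝 (L x)) := by
    have hK := WeakDual.isCompact_closedBall (𝕜 := ℝ) (E := BD y) 0 1
    obtain ⟨G, hG⟩ : ∃ G : ℕ → WeakDual ℝ (BD y), ∀ N, G N = StrongDual.toWeakDual (BDS2_c2 y (st N).2) :=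
      ⟨_, fun _ => rfl⟩
    have hmem : ∀ N, G N ∈ WeakDual.toStrongDual ⁻¹' Metric.closedBall (0 : StrongDual ℝ (BD y)) 1 := by
      intro N
      rw [Set.mem_preimage, mem_closedBall_zero_iff, hG]
      exact BDS2_norm_c2 y _
    obtain ⟨L, -, hL⟩ := isCompact_iff_ultrafilter_le_nhds.1 hK ((hyperfilter ℕ).map G)
      (by
        rw [Filter.le_principal_iff, Ultrafilter.mem_coe, Ultrafilter.mem_map]
        exact Filter.Eventually.of_forall (f := (hyperfilter ℕ : Filter ℕ)) hmem)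
    refine ⟨WeakDual.toStrongDual L, fun x => ?_⟩
    have h1 : Tendsto G (hyperfilter ℕ : Filter ℕ) (𝓝 L) := by
      rw [Ultrafilter.coe_map] at hL
      exact hL
    have h2 := ((WeakDual.eval_continuous x).tendsto L).comp h1
    refine h2.congr fun N => ?_
    simp only [Function.comp_apply, hG]
    rfl
  have hLge : ∀ n, 7 * c / 320 ≤ L (v (st (n + 1)).1) := by
    intro n
    refine ge_of_tendsto (hL _) ?_
    have h1 : ∀ᶠ N in atTop, 7 * c / 320 ≤ BDS2_c2 y (st N).2 (v (st (n + 1)).1) := by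
      filter_upwards [eventually_ge_atTop (n + 1)] with N hN
      exact hval n N hN
    exact h1.filter_mono Nat.hyperfilter_le_atTop
  have hlim : Tendsto (fun n => L (v (st (n + 1)).1)) atTop (𝓝 0) := by
    have h1 : Tendsto (fun n => (st (n + 1)).1) atTop atTop :=
      hmono1.tendsto_atTop.comp (tendsto_add_atTop_nat 1)
    exact (hv L).comp h1
  have h0 := ge_of_tendsto hlim (Eventually.of_forall hLge)
  linarith

theorem bd_schur {y : ℕ → X₁ →L[ℝ] ℝ} (hS : Schur X₁) (hy : ∀ i, ‖y i‖ ≤ 1)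
    (hn : ∀ x : X₁, ∃ i, ‖x‖ / 2 ≤ y i x) : Schur (BD y) := by
  intro u a hu
  have h1 : Tendsto (fun n => u n - a) atTop (𝓝 0) := by
    refine BDS2_null hS hy hn _ fun f => ?_
    have h2 := (hu f).sub_const (f a)
    rw [sub_self] at h2
    refine h2.congr fun n => ?_
    rw [map_sub]
  have h3 := h1.add_const a
  rw [zero_add] at h3
  refine h3.congr fun n => ?_
  rw [sub_add_cancel]

end Pool.Agent.Helper25.SC
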