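import Pool.Agent.Helper25.SC.BDA

/-!
# The Bourgain-Delbaen sum `BD y` and the projections `Q`
-/

set_option autoImplicit false
set_option maxSynthPendingDepth 3

namespace Pool.Agent.Helper25.SC

open scoped ENNReal

variable {X₁ : Type*} [NormedAddCommGroup X₁] [NormedSpace ℝ X₁]

/-- The bounded sequences in `X₁ × ℝ`. -/
abbrev LX (X₁ : Type*) [NormedAddCommGroup X₁] := lp (fun _ : ℕ => X₁ × ℝ) ∞

/-- The vectors with finitely many non-zero coordinates `w = S y x`. -/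
noncomputable def BD0 (y : ℕ → X₁ →L[ℝ] ℝ) : Submodule ℝ (LX X₁) where
  carrier := {x | ∃ p, tr p (S y x) = S y x}
  zero_mem' := ⟨0, by rw [lp.coeFn_zero, map_zero, map_zero]⟩
  add_mem' := by
    rintro a b ⟨p, hp⟩ ⟨q, hq⟩
    refine ⟨max p q, ?_⟩
    rw [lp.coeFn_add, map_add, map_add]
    congr 1
    · rw [← hp, tr_tr]
      congr 2
      omega
    · rw [← hq, tr_tr]
      congr 2
      omega
  smul_mem' := by
    rintro c a ⟨p, hp⟩
    refine ⟨p, ?_⟩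
    rw [lp.coeFn_smul, map_smul, map_smul, hp]

/-- The Bourgain-Delbaen sum. -/
noncomputable def BD (y : ℕ → X₁ →L[ℝ] ℝ) : Submodule ℝ (LX X₁) := (BD0 y).topologicalClosure

instance [CompleteSpace X₁] (y : ℕ → X₁ →L[ℝ] ℝ) : CompleteSpace (BD y) :=
  (Submodule.isClosed_topologicalClosure _).completeSpace_coe

theorem norm_T_tr_S_le {y : ℕ → X₁ →L[ℝ] ℝ} (hy : ∀ i, ‖y i‖ ≤ 1) (p : ℕ) (x : ℕ → X₁ × ℝ) (s : ℝ)
    (hs0 : 0 ≤ s) (hs : ∀ j, j < p → ‖x j‖ ≤ s) (k : ℕ) : ‖T y (tr p (S y x)) k‖ ≤ 2 * s := by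
  refine claimA y hy k p (S y x) s hs0 fun j hj => ?_
  rw [T_S]
  exact hs j hj

/-- The truncation operators. -/
noncomputable def Q {y : ℕ → X₁ →L[ℝ] ℝ} (hy : ∀ i, ‖y i‖ ≤ 1) (p : ℕ) : LX X₁ →L[ℝ] LX X₁ :=
  LinearMap.mkContinuous
    { toFun := fun x => ⟨T y (tr p (S y x)), by
        refine memℓp_infty ⟨2 * ‖x‖, ?_⟩
        rintro _ ⟨k, rfl⟩
        exact norm_T_tr_S_le hy p x ‖x‖ (norm_nonneg x)
          (fun j _ => lp.norm_apply_le_norm (by simp) x j) k⟩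
      map_add' := fun a b => by
        apply Subtype.ext
        change T y (tr p (S y ((a + b : LX X₁) : ℕ → X₁ × ℝ))) = T y (tr p (S y a)) + T y (tr p (S y b))
        rw [lp.coeFn_add, map_add, map_add, map_add]
      map_smul' := fun c a => by
        apply Subtype.ext
        change T y (tr p (S y ((c • a : LX X₁) : ℕ → X₁ × ℝ))) = c • T y (tr p (S y a))
        rw [lp.coeFn_smul, map_smul, map_smul, map_smul] } 2 fun x => by
    refine lp.norm_le_of_forall_le (by positivity) fun k => ?_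
    exact norm_T_tr_S_le hy p x ‖x‖ (norm_nonneg x)
      (fun j _ => lp.norm_apply_le_norm (by simp) x j) k

theorem Q_apply {y : ℕ → X₁ →L[ℝ] ℝ} (hy : ∀ i, ‖y i‖ ≤ 1) (p : ℕ) (x : LX X₁) :
    (Q hy p x : ℕ → X₁ × ℝ) = T y (tr p (S y x)) := rfl

theorem norm_Q_le {y : ℕ → X₁ →L[ℝ] ℝ} (hy : ∀ i, ‖y i‖ ≤ 1) (p : ℕ) (x : LX X₁) (s : ℝ)
    (hs0 : 0 ≤ s) (hs : ∀ j, j < p → ‖x j‖ ≤ s) : ‖Q hy p x‖ ≤ 2 * s :=
  lp.norm_le_of_forall_le (by positivity) fun k => norm_T_tr_S_le hy p x s hs0 hs k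

theorem Q_mem {y : ℕ → X₁ →L[ℝ] ℝ} (hy : ∀ i, ‖y i‖ ≤ 1) (p : ℕ) (x : LX X₁) : Q hy p x ∈ BD0 y := by
  refine ⟨p, ?_⟩
  rw [Q_apply, S_T, tr_tr, min_self]

end Pool.Agent.Helper25.SC
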