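import Pool.Agent.Helper25.SC.Defs

/-!
# The Bourgain-Delbaen sum: definitions

`V = X₁ × ℝ` (sup norm). `tr p` truncates a sequence `ℕ → V` to the coordinates `< p`. The functionals `e y m` on the
sequences are defined by recursion:
`e m = d_m + e_(η) + (1/4) f ∘ (1 - tr p)` where `code m = (η + 1, p, k, i)` (no `e_η` term if the first entry is `0`),
`η < p ≤ m`, `k < m` and `f = e_k`, `- e_k`, `y_j ∘ v_k` for `i = 0`, `1`, `j + 2`.
`T w = (v_k(w), e_k(w))_k`; `S` is its inverse.
-/

set_option autoImplicit false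
set_option maxSynthPendingDepth 3

namespace Pool.Agent.Helper25.SC

variable {X₁ : Type*} [NormedAddCommGroup X₁] [NormedSpace ℝ X₁]

/-- Truncation of a sequence to the coordinates `< p`. -/
noncomputable def tr (p : ℕ) : (ℕ → X₁ × ℝ) →ₗ[ℝ] (ℕ → X₁ × ℝ) where
  toFun w m := if m < p then w m else 0
  map_add' w w' := by
    funext m
    by_cases h : m < p <;> simp [h]
  map_smul' c w := by
    funext m
    by_cases h : m < p <;> simp [h]

theorem tr_apply (p : ℕ) (w : ℕ → X₁ × ℝ) (m : ℕ) : tr p w m = if m < p then w m else 0 := rfl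

theorem tr_tr (p q : ℕ) (w : ℕ → X₁ × ℝ) : tr p (tr q w) = tr (min p q) w := by
  funext m
  simp only [tr_apply]
  by_cases h1 : m < p <;> by_cases h2 : m < q <;> simp [h1, h2]

/-- A sequence of codes in which every code occurs infinitely often. -/
def code (m : ℕ) : ℕ × ℕ × ℕ × ℕ :=
  ((Nat.unpair (Nat.unpair (Nat.unpair m).1).1).1, (Nat.unpair (Nat.unpair (Nat.unpair m).1).1).2,
    (Nat.unpair (Nat.unpair (Nat.unpair m).1).2).1, (Nat.unpair (Nat.unpair (Nat.unpair m).1).2).2)

theorem exists_code (c : ℕ × ℕ × ℕ × ℕ) (N : ℕ) : ∃ m, N ≤ m ∧ code m = c := by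
  refine ⟨Nat.pair (Nat.pair (Nat.pair c.1 c.2.1) (Nat.pair c.2.2.1 c.2.2.2)) N,
    Nat.right_le_pair _ _, ?_⟩
  simp [code]

/-- The Bourgain-Delbaen functionals. -/
noncomputable def e (y : ℕ → X₁ →L[ℝ] ℝ) (m : ℕ) : (ℕ → X₁ × ℝ) →ₗ[ℝ] ℝ :=
  (LinearMap.snd ℝ X₁ ℝ).comp (LinearMap.proj m)
  + (if h : 1 ≤ (code m).1 ∧ (code m).1 ≤ (code m).2.1 ∧ (code m).2.1 ≤ m then
      e y ((code m).1 - 1) else 0)
  + (if h : (code m).2.1 ≤ m ∧ (code m).2.2.1 < m then
      (1 / 4 : ℝ) • ((if (code m).2.2.2 = 0 then e y (code m).2.2.1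
        else if (code m).2.2.2 = 1 then - e y (code m).2.2.1
        else (y ((code m).2.2.2 - 2)).toLinearMap.comp
          ((LinearMap.fst ℝ X₁ ℝ).comp (LinearMap.proj (code m).2.2.1))).comp
            (LinearMap.id - tr (code m).2.1))
    else 0)
termination_by m
decreasing_by
  · omega
  · exact h.2
  · exact h.2

/-- The coordinates of the Bourgain-Delbaen sum. -/
noncomputable def T (y : ℕ → X₁ →L[ℝ] ℝ) : (ℕ → X₁ × ℝ) →ₗ[ℝ] (ℕ → X₁ × ℝ) where
  toFun w k := ((w k).1, e y k w)
  map_add' w w' := by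
    funext k
    simp
  map_smul' c w := by
    funext k
    simp

theorem T_apply (y : ℕ → X₁ →L[ℝ] ℝ) (w : ℕ → X₁ × ℝ) (k : ℕ) : T y w k = ((w k).1, e y k w) :=
  rfl

/-- `e y m w` depends only on the coordinates `≤ m` of `w`. -/
theorem e_local (y : ℕ → X₁ →L[ℝ] ℝ) (m : ℕ) : ∀ w w' : ℕ → X₁ × ℝ, (∀ j, j ≤ m → w j = w' j) →
    e y m w = e y m w' := by
  induction m using Nat.strong_induction_on with
  | _ m ih =>
    intro w w' hw
    rw [e]
    simp only [LinearMap.add_apply]
    congr 1
    · congr 1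
      · simp [hw m le_rfl]
      · split_ifs with h
        · exact ih _ (by omega) w w' fun j hj => hw j (by omega)
        · rfl
    · split_ifs with h h1 h2
      · simp only [LinearMap.smul_apply, LinearMap.comp_apply]
        congr 1
        refine ih _ h.2 _ _ fun j hj => ?_
        simp only [LinearMap.sub_apply, LinearMap.id_apply, Pi.sub_apply, tr_apply]
        rw [hw j (by omega)]
      · simp only [LinearMap.smul_apply, LinearMap.comp_apply, LinearMap.neg_apply]
        congr 2
        refine ih _ h.2 _ _ fun j hj => ?_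
        simp only [LinearMap.sub_apply, LinearMap.id_apply, Pi.sub_apply, tr_apply]
        rw [hw j (by omega)]
      · simp only [LinearMap.smul_apply, LinearMap.comp_apply, LinearMap.proj_apply,
          LinearMap.sub_apply, LinearMap.id_apply, Pi.sub_apply, tr_apply]
        rw [hw _ h.2.le]
      · rfl

/-- `e y m w` is `(w m).2` plus a functional of the coordinates `< m`. -/
theorem e_sub_local (y : ℕ → X₁ →L[ℝ] ℝ) (m : ℕ) (w w' : ℕ → X₁ × ℝ)
    (hw : ∀ j, j < m → w j = w' j) : e y m w - (w m).2 = e y m w' - (w' m).2 := by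
  have key : ∀ w : ℕ → X₁ × ℝ, e y m w - (w m).2 =
      e y m (fun j => if j < m then w j else 0) := by
    intro w
    rw [e]
    simp only [LinearMap.add_apply]
    have h0 : ((LinearMap.snd ℝ X₁ ℝ).comp (LinearMap.proj m))
        (fun j => if j < m then w j else 0) = 0 := by simp
    have h1 : ((LinearMap.snd ℝ X₁ ℝ).comp (LinearMap.proj m)) w = (w m).2 := by simp
    rw [h0, h1, zero_add]
    have h2 : ∀ a b c : ℝ, a + b + c - a = b + c := fun a b c => by ring
    rw [h2]
    congr 1
    · split_ifs with h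
      · exact e_local y _ w _ fun j hj => by rw [if_pos (by omega)]
      · rfl
    · split_ifs with h h1 h2
      · simp only [LinearMap.smul_apply, LinearMap.comp_apply]
        congr 1
        refine e_local y _ _ _ fun j hj => ?_
        simp only [LinearMap.sub_apply, LinearMap.id_apply, Pi.sub_apply, tr_apply]
        rw [if_pos (show j < m by omega)]
      · simp only [LinearMap.smul_apply, LinearMap.comp_apply, LinearMap.neg_apply]
        congr 2
        refine e_local y _ _ _ fun j hj => ?_
        simp only [LinearMap.sub_apply, LinearMap.id_apply, Pi.sub_apply, tr_apply]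
        rw [if_pos (show j < m by omega)]
      · simp only [LinearMap.smul_apply, LinearMap.comp_apply, LinearMap.proj_apply,
          LinearMap.sub_apply, LinearMap.id_apply, Pi.sub_apply, tr_apply]
        rw [if_pos (show (code m).2.2.1 < m from h.2)]
      · rfl
  rw [key w, key w']
  refine e_local y m _ _ fun j hj => ?_
  by_cases h : j < m
  · simp [h, hw j h]
  · simp [h]

theorem T_bijective (y : ℕ → X₁ →L[ℝ] ℝ) : Function.Bijective (T y) := by
  constructor
  · intro w w' h
    funext k
    induction k using Nat.strong_induction_on with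
    | _ k ih =>
      have hk := congrFun h k
      rw [T_apply, T_apply] at hk
      have h1 : (w k).1 = (w' k).1 := (Prod.ext_iff.1 hk).1
      have h2 : e y k w = e y k w' := (Prod.ext_iff.1 hk).2
      have h3 := e_sub_local y k w w' ih
      exact Prod.ext h1 (by linarith)
  · intro x
    -- the solution is constructed recursively
    let s : ℕ → X₁ × ℝ := fun k => Nat.strongRecOn (motive := fun _ => X₁ × ℝ) k
      fun k ih => ((x k).1, (x k).2 - e y k (fun j => if h : j < k then ih j h else 0))
    have hs : ∀ k, s k = ((x k).1, (x k).2 - e y k (fun j => if j < k then s j else 0)) := by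
      intro k
      have : s k = ((x k).1, (x k).2 - e y k (fun j => if h : j < k then s j else 0)) := by
        change Nat.strongRecOn (motive := fun _ => X₁ × ℝ) k _ = _
        rw [Nat.strongRecOn_eq]
      rw [this]
      simp only [dite_eq_ite]
    refine ⟨s, ?_⟩
    funext k
    rw [T_apply]
    have h1 := e_sub_local y k s (fun j => if j < k then s j else 0)
      (fun j hj => by rw [if_pos hj])
    simp only [lt_irrefl, if_false, Prod.snd_zero, sub_zero] at h1
    have h2 : e y k s = (x k).2 := by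
      have h3 : (s k).2 = (x k).2 - e y k (fun j => if j < k then s j else 0) := by rw [hs k]
      linarith
    rw [h2]
    exact Prod.ext (by rw [hs k]) rfl

/-- The inverse of `T`. -/
noncomputable def S (y : ℕ → X₁ →L[ℝ] ℝ) : (ℕ → X₁ × ℝ) →ₗ[ℝ] (ℕ → X₁ × ℝ) :=
  (LinearEquiv.ofBijective (T y) (T_bijective y)).symm.toLinearMap

@[simp] theorem T_S (y : ℕ → X₁ →L[ℝ] ℝ) (x : ℕ → X₁ × ℝ) : T y (S y x) = x :=
  (LinearEquiv.ofBijective (T y) (T_bijective y)).apply_symm_apply x

@[simp] theorem S_T (y : ℕ → X₁ →L[ℝ] ℝ) (w : ℕ → X₁ × ℝ) : S y (T y w) = w :=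
  (LinearEquiv.ofBijective (T y) (T_bijective y)).symm_apply_apply w

theorem S_local (y : ℕ → X₁ →L[ℝ] ℝ) (p : ℕ) (x x' : ℕ → X₁ × ℝ) (h : ∀ j, j < p → x j = x' j) :
    ∀ j, j < p → S y x j = S y x' j := by
  intro k
  induction k using Nat.strong_induction_on with
  | _ k ih =>
    intro hk
    have h1 := congrFun (T_S y x) k
    have h2 := congrFun (T_S y x') k
    rw [T_apply] at h1 h2
    have h3 := e_sub_local y k (S y x) (S y x') fun j hj => ih j hj (hj.trans hk)
    have h4 : e y k (S y x) = (x k).2 := (Prod.ext_iff.1 h1).2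
    have h5 : e y k (S y x') = (x' k).2 := (Prod.ext_iff.1 h2).2
    have h6 : (S y x k).1 = (x k).1 := (Prod.ext_iff.1 h1).1
    have h7 : (S y x' k).1 = (x' k).1 := (Prod.ext_iff.1 h2).1
    rw [h k hk] at h4 h6
    exact Prod.ext (by rw [h6, h7]) (by linarith)

end Pool.Agent.Helper25.SC
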