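import Pool.Agent.Helper25.SC.Defs

/-!
# Block SC-V: a gliding hump for functions vanishing at infinity

Proof. Choose inductively `φ 0 < φ 1 < ...` and `m_0 ≤ m_1 ≤ ...` such that
* `m_i` is so large that `|f (φ j) ω| ≤ 2^(-i) / (i + 1)` for all `j ≤ i` and `ω ∉ O (m_i)` (`hvan`, `hO`),
* `φ (i + 1) > φ i` is so large that `|f (φ l) ω - g ω| ≤ 2^(-(i+1))` for every later choice `l ≥ i + 1` and
  `ω ∈ O (m_i)` (`hconv`: take the `n₀` of `O (m_i)` as a lower bound for all later `φ l`; note that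
  `O (m_i) ⊆ O (m_(i+1))`).
Fix `ω`. If `ω` lies in no `O (m_i)`, then `|f (φ j) ω| ≤ 2^(-i)` for all `i ≥ j`, so `f (φ j) ω = 0` for all `j`.
Otherwise let `I` be minimal with `ω ∈ O (m_I)`. The terms `k ≤ I - 2` are at most `2 * 2^(-(I-1)) / I` each
(all `j ≤ I - 1`, `ω ∉ O (m_(I-1))`): their sum is at most `2`. The terms `k = I - 1, I` are at most `2`
each. The terms `k ≥ I + 1` are at most `2^(-k) + 2^(-(k+1)) ≤ 2 * 2^(-k)`: their sum is at most `2`. Total `≤ 12`.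
-/

set_option autoImplicit false
set_option maxSynthPendingDepth 3

namespace Pool.Agent.Helper25.SC

theorem exists_subseq {Ω : Type*} (O : ℕ → Set Ω) (hO : Monotone O) (f : ℕ → Ω → ℝ) (g : Ω → ℝ)
    (hb : ∀ n ω, |f n ω| ≤ 1)
    (hvan : ∀ n, ∀ ε : ℝ, 0 < ε → ∃ m, ∀ ω, ω ∉ O m → |f n ω| ≤ ε)
    (hconv : ∀ m, ∀ ε : ℝ, 0 < ε → ∃ n₀, ∀ n, n₀ ≤ n → ∀ ω ∈ O m, |f n ω - g ω| ≤ ε) :
    ∃ φ : ℕ → ℕ, StrictMono φ ∧
      ∀ ω N, ∑ k ∈ Finset.range N, |f (φ (k + 1)) ω - f (φ k) ω| ≤ 12 := by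
  have hpos : ∀ i : ℕ, (0 : ℝ) < (1 / 2) ^ i := fun i => by positivity
  have h1 : ∀ n i : ℕ, ∃ m, ∀ ω, ω ∉ O m → |f n ω| ≤ (1 / 2 : ℝ) ^ i :=
    fun n i => hvan n _ (hpos i)
  choose M hM using h1
  have h2 : ∀ m i : ℕ, ∃ n₀, ∀ n, n₀ ≤ n → ∀ ω ∈ O m, |f n ω - g ω| ≤ (1 / 2 : ℝ) ^ i :=
    fun m i => hconv m _ (hpos i)
  choose N₀ hN₀ using h2
  let s : ℕ → ℕ × ℕ := fun i => Nat.rec (0, M 0 0)
    (fun i p => (max (p.1 + 1) (N₀ p.2 i),
      max p.2 (M (max (p.1 + 1) (N₀ p.2 i)) (i + 1)))) i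
  have hs1 : ∀ i, (s (i + 1)).1 = max ((s i).1 + 1) (N₀ (s i).2 i) := fun i => rfl
  have hs2 : ∀ i, (s (i + 1)).2 = max (s i).2 (M (s (i + 1)).1 (i + 1)) := fun i => rfl
  have hφ : StrictMono fun i => (s i).1 := by
    refine strictMono_nat_of_lt_succ fun i => ?_
    rw [hs1 i]
    exact lt_of_lt_of_le (Nat.lt_succ_self _) (le_max_left _ _)
  have hm : Monotone fun i => (s i).2 := by
    refine monotone_nat_of_le_succ fun i => ?_
    rw [hs2 i]
    exact le_max_left _ _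
  have hA : ∀ i ω, ω ∉ O (s i).2 → |f (s i).1 ω| ≤ (1 / 2 : ℝ) ^ i := by
    intro i ω hω
    refine hM (s i).1 i ω fun h => hω (hO ?_ h)
    cases i with
    | zero => exact le_rfl
    | succ i =>
      rw [hs2 i]
      exact le_max_right _ _
  have hB : ∀ i n ω, (s (i + 1)).1 ≤ n → ω ∈ O (s i).2 → |f n ω - g ω| ≤ (1 / 2 : ℝ) ^ i := by
    intro i n ω hn hω
    refine hN₀ (s i).2 i n (le_trans ?_ hn) ω hω
    rw [hs1 i]
    exact le_max_right _ _
  refine ⟨fun i => (s i).1, hφ, fun ω N => ?_⟩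
  have hgeo : ∑ k ∈ Finset.range N, 4 * (1 / 2 : ℝ) ^ k ≤ 8 := by
    rw [← Finset.mul_sum]
    have := sum_geometric_two_le N
    linarith
  have hoff : ∀ k, ω ∉ O (s k).2 → ω ∉ O (s (k + 1)).2 →
      |f (s (k + 1)).1 ω - f (s k).1 ω| ≤ 4 * (1 / 2 : ℝ) ^ k := by
    intro k k1 k2
    have k3 := hA k ω k1
    have k4 := hA (k + 1) ω k2
    have k5 := abs_sub (f (s (k + 1)).1 ω) (f (s k).1 ω)
    have k6 := hpos k
    rw [pow_succ] at k4
    linarith
  by_cases h : ∃ i, ω ∈ O (s i).2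
  · classical
    set I := Nat.find h with hI
    have hI1 : ω ∈ O (s I).2 := Nat.find_spec h
    have hI2 : ∀ j, j < I → ω ∉ O (s j).2 := fun j hj => Nat.find_min h hj
    have hI3 : ∀ j, I ≤ j → ω ∈ O (s j).2 := fun j hj => hO (hm hj) hI1
    have key : ∀ k ∈ Finset.range N, |f (s (k + 1)).1 ω - f (s k).1 ω| ≤
        4 * (1 / 2 : ℝ) ^ k + ((if k = I then 2 else 0) + (if k = I - 1 then 2 else 0)) := by
      intro k _
      have hn1 : (0 : ℝ) ≤ (if k = I then 2 else 0) := by split_ifs <;> norm_num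
      have hn2 : (0 : ℝ) ≤ (if k = I - 1 then 2 else 0) := by split_ifs <;> norm_num
      have hp := hpos k
      have htriv : |f (s (k + 1)).1 ω - f (s k).1 ω| ≤ 2 := by
        have k5 := abs_sub (f (s (k + 1)).1 ω) (f (s k).1 ω)
        have k6 := hb (s (k + 1)).1 ω
        have k7 := hb (s k).1 ω
        linarith
      by_cases c1 : k = I
      · rw [if_pos c1]
        linarith
      by_cases c2 : k = I - 1
      · rw [if_pos c2]
        linarith
      rcases lt_or_ge k I with c3 | c3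
      · have := hoff k (hI2 k c3) (hI2 (k + 1) (by omega))
        linarith
      · obtain ⟨j, rfl⟩ : ∃ j, k = j + 1 := ⟨k - 1, by omega⟩
        have c4 : I ≤ j := by omega
        have k1 := hB j (s (j + 1)).1 ω le_rfl (hI3 j c4)
        have k2 := hB j (s (j + 1 + 1)).1 ω (hφ.monotone (Nat.le_succ (j + 1))) (hI3 j c4)
        have k3 := abs_sub_le (f (s (j + 1 + 1)).1 ω) (g ω) (f (s (j + 1)).1 ω)
        rw [abs_sub_comm (g ω)] at k3
        have k4 : 4 * (1 / 2 : ℝ) ^ (j + 1) = 2 * (1 / 2) ^ j := by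
          rw [pow_succ]
          ring
        rw [k4]
        linarith
    refine (Finset.sum_le_sum key).trans ?_
    rw [Finset.sum_add_distrib, Finset.sum_add_distrib, Finset.sum_ite_eq', Finset.sum_ite_eq']
    have e1 : (if I ∈ Finset.range N then (2 : ℝ) else 0) ≤ 2 := by split_ifs <;> norm_num
    have e2 : (if I - 1 ∈ Finset.range N then (2 : ℝ) else 0) ≤ 2 := by split_ifs <;> norm_num
    linarith
  · have key : ∀ k ∈ Finset.range N, |f (s (k + 1)).1 ω - f (s k).1 ω| ≤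
        4 * (1 / 2 : ℝ) ^ k :=
      fun k _ => hoff k (fun hh => h ⟨k, hh⟩) (fun hh => h ⟨k + 1, hh⟩)
    refine (Finset.sum_le_sum key).trans ?_
    linarith

end Pool.Agent.Helper25.SC
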