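import Pool.Agent.Helper25.SC.LemU
import Pool.Agent.Helper25.SC.LemV

/-!
# Block SC-DS: the dual of a subspace of `c₀(G)` is Schur

`D` is a subspace of `ℓ_∞(G)` consisting of functions vanishing at infinity, `G` countable. Use
`schur_of_subseq` with `𝓔 = {evaluation at w : w ∈ D, ‖w‖ ≤ 1}` (as functionals on `D →L[ℝ] ℝ`), `C = 12`.
* `hnorm`: for `φ ≠ 0` there is `w` with `‖w‖ ≤ 1`, `φ w ≥ ‖φ‖ / 2` (definition of the operator norm; `φ = 0`: `w = 0`).
* `hsub`: given `w_n` in the unit ball of `D`, the values `w_n g` lie in `[-1, 1]`; `G` is countable, so there is a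
  subsequence converging at every `g` (`tendsto_subseq_of_bounded` / compactness of `G → Icc (-1) 1`,
  `IsCompact.tendsto_subseq`). Let `O m` be the set of the first `m` elements of `G` (finite sets exhausting
  `G`, e.g. `{g | encode g < m}`) and apply `exists_subseq` with `Ω = G`: `hvan` because `w_n` vanishes at infinity,
  `hconv` because `O m` is finite. Result: `∑_{k<N} |w_(φ(k+1)) g - w_(φ k) g| ≤ 12` for all `g`, hence
  `‖∑_{k<N} s_k • (w_(φ(k+1)) - w_(φ k))‖ ≤ 12` for all signs `s_k`, hence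
  `∑_{k<N} |ψ (w_(φ(k+1))) - ψ (w_(φ k))| ≤ 12 ‖ψ‖` (choose `s_k` = sign).
-/

set_option autoImplicit false
set_option maxSynthPendingDepth 3

namespace Pool.Agent.Helper25.SC

open scoped ENNReal

open Filter Topology

/-- evaluation functionals are norming -/
theorem ds33_norm {W : Type*} [NormedAddCommGroup W] [NormedSpace ℝ W] (φ : W →L[ℝ] ℝ) :
    ∃ w : W, ‖w‖ ≤ 1 ∧ ‖φ‖ / 2 ≤ φ w := by
  rcases eq_or_ne φ 0 with rfl | h0
  · exact ⟨0, by simp, by simp⟩
  · have hpos : 0 < ‖φ‖ := norm_pos_iff.mpr h0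
    obtain ⟨x, hx1, hx2⟩ := φ.exists_lt_apply_of_lt_opNorm (half_lt_self hpos)
    rw [Real.norm_eq_abs] at hx2
    rcases le_total 0 (φ x) with h | h
    · rw [abs_of_nonneg h] at hx2
      exact ⟨x, hx1.le, hx2.le⟩
    · rw [abs_of_nonpos h] at hx2
      exact ⟨-x, by rw [norm_neg]; exact hx1.le, by rw [map_neg]; exact hx2.le⟩

/-- signed sums of differences -/
theorem ds33_sum {G : Type*} (D : Submodule ℝ (lp (fun _ : G => ℝ) ∞)) (w : ℕ → D) (N : ℕ)
    (h : ∀ g : G, ∑ k ∈ Finset.range N, |(w (k + 1) : lp (fun _ : G => ℝ) ∞) g -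
      (w k : lp (fun _ : G => ℝ) ∞) g| ≤ 12) (ψ : D →L[ℝ] ℝ) :
    ∑ k ∈ Finset.range N, |ψ (w (k + 1)) - ψ (w k)| ≤ 12 * ‖ψ‖ := by
  set s : ℕ → ℝ := fun k => if 0 ≤ ψ (w (k + 1)) - ψ (w k) then 1 else -1 with hs
  have hs1 : ∀ k, |s k| = 1 := by
    intro k
    simp only [hs]
    split_ifs <;> simp
  have hs2 : ∀ k, |ψ (w (k + 1)) - ψ (w k)| = s k * (ψ (w (k + 1)) - ψ (w k)) := by
    intro k
    simp only [hs]
    split_ifs with h1
    · rw [abs_of_nonneg h1, one_mul]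
    · rw [abs_of_neg (not_le.mp h1)]; ring
  set x : D := ∑ k ∈ Finset.range N, s k • (w (k + 1) - w k) with hx
  have e1 : ∑ k ∈ Finset.range N, |ψ (w (k + 1)) - ψ (w k)| = ψ x := by
    rw [hx, map_sum]
    refine Finset.sum_congr rfl fun k _ => ?_
    rw [map_smul, map_sub, smul_eq_mul, hs2]
  have e2 : ∀ g : G, (x : lp (fun _ : G => ℝ) ∞) g =
      ∑ k ∈ Finset.range N, s k * ((w (k + 1) : lp (fun _ : G => ℝ) ∞) g -
        (w k : lp (fun _ : G => ℝ) ∞) g) := by
    intro g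
    rw [hx, Submodule.coe_sum, lp.coeFn_sum, Finset.sum_apply]
    refine Finset.sum_congr rfl fun k _ => ?_
    rw [Submodule.coe_smul, Submodule.coe_sub, lp.coeFn_smul, Pi.smul_apply, lp.coeFn_sub,
      Pi.sub_apply, smul_eq_mul]
  have e3 : ‖x‖ ≤ 12 := by
    rw [Submodule.coe_norm]
    apply lp.norm_le_of_forall_le (by norm_num)
    intro g
    rw [e2 g, Real.norm_eq_abs]
    refine (Finset.abs_sum_le_sum_abs _ _).trans (le_trans (le_of_eq ?_) (h g))
    refine Finset.sum_congr rfl fun k _ => ?_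
    rw [abs_mul, hs1, one_mul]
  rw [e1]
  calc ψ x ≤ ‖ψ x‖ := by rw [Real.norm_eq_abs]; exact le_abs_self _
    _ ≤ ‖ψ‖ * ‖x‖ := ψ.le_opNorm x
    _ ≤ ‖ψ‖ * 12 := by gcongr
    _ = 12 * ‖ψ‖ := mul_comm _ _

theorem schur_dual_c0 {G : Type*} [Countable G] (D : Submodule ℝ (lp (fun _ : G => ℝ) ∞))
    (hD : ∀ w ∈ D, ∀ ε : ℝ, 0 < ε → {g : G | ε < |w g|}.Finite) : Schur (D →L[ℝ] ℝ) := by
  classical
  have := Encodable.ofCountable G
  refine schur_of_subseq {F | ∃ w : D, ‖w‖ ≤ 1 ∧ F = ContinuousLinearMap.apply ℝ ℝ w} 12 ?_ ?_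
  · intro φ
    obtain ⟨w, hw1, hw2⟩ := ds33_norm φ
    exact ⟨_, ⟨w, hw1, rfl⟩, hw2⟩
  · intro f hf
    choose w hw1 hw2 using hf
    have hval : ∀ n (g : G), |(w n : lp (fun _ : G => ℝ) ∞) g| ≤ 1 := by
      intro n g
      have h1 := lp.norm_apply_le_norm ENNReal.top_ne_zero (w n : lp (fun _ : G => ℝ) ∞) g
      rw [Real.norm_eq_abs] at h1
      exact h1.trans (hw1 n)
    -- pointwise convergent subsequence
    obtain ⟨a, ψ, hψ, hconv⟩ := CompactSpace.tendsto_subseq
      (fun n : ℕ => (fun g : G => (⟨(w n : lp (fun _ : G => ℝ) ∞) g, abs_le.mp (hval n g)⟩ :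
        Set.Icc (-1 : ℝ) 1)))
    have hconv' : ∀ g : G, Tendsto (fun n => (w (ψ n) : lp (fun _ : G => ℝ) ∞) g) atTop
        (𝓝 ((a g : Set.Icc (-1 : ℝ) 1) : ℝ)) := by
      intro g
      have h1 := (tendsto_pi_nhds.mp hconv) g
      exact (continuous_subtype_val.tendsto _).comp h1
    set O : ℕ → Set G := fun m => {g | Encodable.encode g < m} with hO
    have hOfin : ∀ m, (O m).Finite := by
      intro m
      exact (Set.finite_lt_nat m).preimage (Encodable.encode_injective.injOn)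
    obtain ⟨φ, hφ, hsum⟩ := exists_subseq O
      (fun m n hmn g hg => lt_of_lt_of_le hg hmn)
      (fun n g => (w (ψ n) : lp (fun _ : G => ℝ) ∞) g) (fun g => ((a g : Set.Icc (-1 : ℝ) 1) : ℝ))
      (fun n g => hval (ψ n) g)
      (by
        intro n ε hε
        have hfin := hD (w (ψ n)) (w (ψ n)).2 ε hε
        obtain ⟨M, hM⟩ := (hfin.image (Encodable.encode : G → ℕ)).bddAbove
        refine ⟨M + 1, fun g hg => ?_⟩
        by_contra hcon
        apply hg
        have h2 : Encodable.encode g ≤ M := hM (Set.mem_image_of_mem _ (not_le.mp hcon))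
        exact Nat.lt_succ_of_le h2)
      (by
        intro m ε hε
        have h1 : ∀ᶠ n in atTop, ∀ g ∈ O m, |(w (ψ n) : lp (fun _ : G => ℝ) ∞) g -
            ((a g : Set.Icc (-1 : ℝ) 1) : ℝ)| ≤ ε := by
          rw [Filter.eventually_all_finite (hOfin m)]
          intro g _
          have h2 := (Metric.tendsto_nhds.mp (hconv' g)) ε hε
          filter_upwards [h2] with n hn
          rw [Real.dist_eq] at hn
          exact hn.le
        exact eventually_atTop.mp h1)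
    refine ⟨ψ ∘ φ, hψ.comp hφ, fun θ N => ?_⟩
    have h3 := ds33_sum D (fun k => w (ψ (φ k))) N (fun g => hsum g N) θ
    have e : ∀ k, f ((ψ ∘ φ) k) θ = θ (w (ψ (φ k))) := by
      intro k
      rw [Function.comp_apply, hw2]
      rfl
    simp only [e]
    exact h3

end Pool.Agent.Helper25.SC
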