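import Pool.Agent.Helper25.SC.Vec

/-!
# Block SC-DAV1: the facts about Davie's vectors

All sums over `j` are finite sums. The value of `Φ ⟨k, g⟩` at `x : G` (use `uf_same`, `uf_succ`, `uf_other`), for `k = m + 1`:
* `x = ⟨k, h⟩`: `2^-(k+1) ∑_j H (bb k j) g * H (bb k j) h - 2^-k ∑_j sg² * H (aa k j) g * H (aa k j) h`: for `h = g` it is
  `2^-(k+1) * 2^(k+1) - 2^-k * 2^k = 0` (`H_mul_self`, `card (Gk n) = 2^n`), for `h ≠ g` it is `≤ 2 * 2^-k rk k` in absolute value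
  (`bb_sum`, `aa_sum`);
* `x = ⟨k + 1, h⟩`: `2^-(k+1) ∑_j H (bb k j) g * sg (ee k j) * H (aa (k+1) j) h`: `≤ 2^-(k+1) rk k` (`ee_sum`);
* `x = ⟨k - 1, h⟩`: `- 2^-k ∑_j sg (ee (k-1) j) * H (aa k j) g * H (bb (k-1) j) h`: `≤ 2^-k rk (k-1)` (`ee_sum`);
* `0` otherwise. For `k = 0` only the first sum: `x = ⟨0, h⟩`: `1` if `h = g`, `≤ rk 0 / 2` otherwise; `x = ⟨1, h⟩`: `≤ rk 0 / 2`.
`2^-k rk k = 16 * 2^(-k/4)`. So `‖Φ g‖ ≤ 32 * 2^(-k/4)` (`lp.norm_le_of_forall_le`).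
-/

set_option autoImplicit false
set_option maxSynthPendingDepth 3

namespace Pool.Agent.Helper25.SC

open scoped ENNReal

private theorem h27_sum_apply {ι : Type} [Fintype ι] (c : ι → ℝ)
    (v : ι → lp (fun _ : G => ℝ) ∞) (x : G) : (∑ j, c j • v j) x = ∑ j, c j * v j x := by
  rw [lp.coeFn_sum, Finset.sum_apply]
  rfl

private theorem h27_val0 (g : Gk 2) (x : G) :
    Phi ⟨0, g⟩ x = (2 : ℝ)⁻¹ * ∑ j : Gk 1, H (bb 0 j) g * uf 0 j x := by
  change (2 : ℝ)⁻¹ * (∑ j : Gk 1, H (bb 0 j) g • uv 0 j) x = _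
  rw [h27_sum_apply]
  rfl

private theorem h27_val1 (k : ℕ) (g : Gk (k + 3)) (x : G) :
    Phi ⟨k + 1, g⟩ x = ((2 : ℝ) ^ (k + 2))⁻¹ * ∑ j : Gk (k + 2), H (bb (k + 1) j) g * uf (k + 1) j x
      - ((2 : ℝ) ^ (k + 1))⁻¹ *
        ∑ j : Gk (k + 1), (sg (ee k j) * H (aa (k + 1) j) g) * uf k j x := by
  change ((2 : ℝ) ^ (k + 2))⁻¹ * (∑ j : Gk (k + 2), H (bb (k + 1) j) g • uv (k + 1) j) x
      - ((2 : ℝ) ^ (k + 1))⁻¹ *
        (∑ j : Gk (k + 1), (sg (ee k j) * H (aa (k + 1) j) g) • uv k j) x = _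
  rw [h27_sum_apply, h27_sum_apply]
  rfl

private theorem h27_card (n : ℕ) : ∑ _j : Gk n, (1 : ℝ) = 2 ^ n := by
  rw [Finset.sum_const, nsmul_eq_mul, mul_one, Finset.card_univ]
  simp [Gk]

private theorem h27_rk (k : ℕ) :
    ((2 : ℝ) ^ k)⁻¹ * rk k = 16 * (2 : ℝ) ^ (-(k : ℝ) / 4) := by
  unfold rk
  have h1 : ((2 : ℝ) ^ k)⁻¹ = (2 : ℝ) ^ (-(k : ℝ)) := by
    rw [Real.rpow_neg (by norm_num), Real.rpow_natCast]
  rw [h1, mul_left_comm, ← Real.rpow_add (by norm_num)]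
  congr 2
  ring

private theorem h27_rk_mono (k : ℕ) : rk k ≤ rk (k + 1) := by
  unfold rk
  refine mul_le_mul_of_nonneg_left (Real.rpow_le_rpow_of_exponent_le (by norm_num) ?_) (by norm_num)
  push_cast
  linarith

private theorem h27_rk_nonneg (k : ℕ) : 0 ≤ rk k := by
  unfold rk
  positivity

/-- Same level, same index: the sum over the rows `b`. -/
private theorem h27_bself (k : ℕ) (g : Gk (k + 2)) :
    ∑ j : Gk (k + 1), H (bb k j) g * uf k j ⟨k, g⟩ = 2 ^ (k + 1) := by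
  rw [← h27_card]
  refine Finset.sum_congr rfl fun j _ => ?_
  rw [uf_same, H_mul_self]

private theorem h27_bne (k : ℕ) {g h : Gk (k + 2)} (hgh : g ≠ h) :
    |∑ j : Gk (k + 1), H (bb k j) g * uf k j ⟨k, h⟩| ≤ rk k := by
  have h1 : ∑ j : Gk (k + 1), H (bb k j) g * uf k j ⟨k, h⟩ =
      ∑ j : Gk (k + 1), H (bb k j) g * H (bb k j) h :=
    Finset.sum_congr rfl fun j _ => by rw [uf_same]
  rw [h1]
  exact bb_sum k hgh

private theorem h27_bsucc (k : ℕ) (g : Gk (k + 2)) (h : Gk (k + 3)) :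
    |∑ j : Gk (k + 1), H (bb k j) g * uf k j ⟨k + 1, h⟩| ≤ rk k := by
  have h1 : ∑ j : Gk (k + 1), H (bb k j) g * uf k j ⟨k + 1, h⟩ =
      ∑ j : Gk (k + 1), sg (ee k j) * (H (bb k j) g * H (aa (k + 1) j) h) :=
    Finset.sum_congr rfl fun j _ => by
      rw [uf_succ]
      ring
  rw [h1]
  exact ee_sum k g h

private theorem h27_bother (k : ℕ) (g : Gk (k + 2)) (x : G) (h1 : x.1 ≠ k) (h2 : x.1 ≠ k + 1) :
    ∑ j : Gk (k + 1), H (bb k j) g * uf k j x = 0 :=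
  Finset.sum_eq_zero fun j _ => by rw [uf_other k j x h1 h2, mul_zero]

private theorem h27_aself (k : ℕ) (g : Gk (k + 3)) :
    ∑ j : Gk (k + 1), (sg (ee k j) * H (aa (k + 1) j) g) * uf k j ⟨k + 1, g⟩ = 2 ^ (k + 1) := by
  rw [← h27_card]
  refine Finset.sum_congr rfl fun j _ => ?_
  rw [uf_succ]
  calc sg (ee k j) * H (aa (k + 1) j) g * (sg (ee k j) * H (aa (k + 1) j) g)
      = (sg (ee k j) * sg (ee k j)) * (H (aa (k + 1) j) g * H (aa (k + 1) j) g) := by ring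
    _ = 1 := by rw [sg_mul_self, H_mul_self, mul_one]

private theorem h27_ane (k : ℕ) {g h : Gk (k + 3)} (hgh : g ≠ h) :
    |∑ j : Gk (k + 1), (sg (ee k j) * H (aa (k + 1) j) g) * uf k j ⟨k + 1, h⟩| ≤ rk (k + 1) := by
  have h1 : ∑ j : Gk (k + 1), (sg (ee k j) * H (aa (k + 1) j) g) * uf k j ⟨k + 1, h⟩ =
      ∑ j : Gk (k + 1), H (aa (k + 1) j) g * H (aa (k + 1) j) h :=
    Finset.sum_congr rfl fun j _ => by
      rw [uf_succ]
      calc sg (ee k j) * H (aa (k + 1) j) g * (sg (ee k j) * H (aa (k + 1) j) h)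
          = (sg (ee k j) * sg (ee k j)) * (H (aa (k + 1) j) g * H (aa (k + 1) j) h) := by ring
        _ = _ := by rw [sg_mul_self, one_mul]
  rw [h1]
  exact aa_sum (k + 1) hgh

private theorem h27_asame (k : ℕ) (g : Gk (k + 3)) (h : Gk (k + 2)) :
    |∑ j : Gk (k + 1), (sg (ee k j) * H (aa (k + 1) j) g) * uf k j ⟨k, h⟩| ≤ rk k := by
  have h1 : ∑ j : Gk (k + 1), (sg (ee k j) * H (aa (k + 1) j) g) * uf k j ⟨k, h⟩ =
      ∑ j : Gk (k + 1), sg (ee k j) * (H (bb k j) h * H (aa (k + 1) j) g) :=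
    Finset.sum_congr rfl fun j _ => by
      rw [uf_same]
      ring
  rw [h1]
  exact ee_sum k h g

private theorem h27_aother (k : ℕ) (g : Gk (k + 3)) (x : G) (h1 : x.1 ≠ k) (h2 : x.1 ≠ k + 1) :
    ∑ j : Gk (k + 1), (sg (ee k j) * H (aa (k + 1) j) g) * uf k j x = 0 :=
  Finset.sum_eq_zero fun j _ => by rw [uf_other k j x h1 h2, mul_zero]

private theorem h27_diag0 (g : Gk 2) : Phi ⟨0, g⟩ ⟨0, g⟩ = 1 := by
  rw [h27_val0]
  have h1 := h27_bself 0 g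
  rw [h1]
  norm_num

private theorem h27_diag1 (k : ℕ) (g : Gk (k + 3)) : Phi ⟨k + 1, g⟩ ⟨k + 1, g⟩ = 0 := by
  rw [h27_val1]
  have h1 := h27_bself (k + 1) g
  have h2 := h27_aself k g
  rw [h1, h2]
  have h3 : ((2 : ℝ) ^ (k + 2))⁻¹ * 2 ^ (k + 1 + 1) = 1 :=
    inv_mul_cancel₀ (by positivity)
  have h4 : ((2 : ℝ) ^ (k + 1))⁻¹ * 2 ^ (k + 1) = 1 := inv_mul_cancel₀ (by positivity)
  rw [h3, h4, sub_self]

private theorem h27_bd0 (g : Gk 2) (x : G) : |Phi ⟨0, g⟩ x| ≤ 32 := by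
  have hr : rk 0 = 16 := by simp [rk]
  obtain ⟨l, h⟩ := x
  by_cases hl0 : l = 0
  · subst hl0
    by_cases hgh : g = h
    · subst hgh
      rw [h27_diag0]
      norm_num
    · have h1 := h27_bne 0 hgh
      rw [h27_val0, abs_mul]
      rw [hr] at h1
      have h2 : |(2 : ℝ)⁻¹| = 2⁻¹ := by norm_num
      rw [h2]
      linarith
  · by_cases hl1 : l = 1
    · subst hl1
      have h1 := h27_bsucc 0 g h
      rw [h27_val0, abs_mul]
      rw [hr] at h1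
      have h2 : |(2 : ℝ)⁻¹| = 2⁻¹ := by norm_num
      rw [h2]
      linarith
    · rw [h27_val0, h27_bother 0 g ⟨l, h⟩ hl0 hl1]
      norm_num

private theorem h27_bd1 (k : ℕ) (g : Gk (k + 3)) (x : G) :
    |Phi ⟨k + 1, g⟩ x| ≤ 32 * (2 : ℝ) ^ (-((k + 1 : ℕ) : ℝ) / 4) := by
  have hr := h27_rk (k + 1)
  have hr0 : 0 ≤ ((2 : ℝ) ^ (k + 1))⁻¹ * rk (k + 1) :=
    mul_nonneg (by positivity) (h27_rk_nonneg _)
  have hh : ((2 : ℝ) ^ (k + 2))⁻¹ = ((2 : ℝ) ^ (k + 1))⁻¹ / 2 := by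
    rw [pow_succ (2 : ℝ) (k + 1), mul_inv]
    ring
  have hp : 0 < ((2 : ℝ) ^ (k + 1))⁻¹ := by positivity
  obtain ⟨l, h⟩ := x
  by_cases hl1 : l = k + 1
  · subst hl1
    by_cases hgh : g = h
    · subst hgh
      rw [h27_diag1, abs_zero]
      positivity
    · have h1 := h27_bne (k + 1) hgh
      have h2 := h27_ane k hgh
      rw [h27_val1]
      refine (abs_sub _ _).trans ?_
      rw [abs_mul, abs_mul, hh, abs_of_pos hp, abs_of_pos (half_pos hp)]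
      have h3 := mul_le_mul_of_nonneg_left h1 (half_pos hp).le
      have h4 := mul_le_mul_of_nonneg_left h2 hp.le
      have h5 : ((2 : ℝ) ^ (k + 1))⁻¹ / 2 * rk (k + 1) = 1 / 2 * (((2 : ℝ) ^ (k + 1))⁻¹ * rk (k + 1)) := by
        ring
      rw [h5] at h3
      rw [hr] at h3 h4 hr0
      linarith
  · by_cases hl2 : l = k + 2
    · subst hl2
      have h1 := h27_bsucc (k + 1) g h
      have h2 := h27_aother k g ⟨k + 2, h⟩ (by simp) (by simp)
      rw [h27_val1, h2, mul_zero, sub_zero, abs_mul, hh, abs_of_pos (half_pos hp)]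
      have h3 := mul_le_mul_of_nonneg_left h1 (half_pos hp).le
      have h5 : ((2 : ℝ) ^ (k + 1))⁻¹ / 2 * rk (k + 1) = 1 / 2 * (((2 : ℝ) ^ (k + 1))⁻¹ * rk (k + 1)) := by
        ring
      rw [h5] at h3
      rw [hr] at h3 hr0
      linarith
    · by_cases hl0 : l = k
      · subst hl0
        have h1 := h27_asame l g h
        have h2 := h27_bother (l + 1) g ⟨l, h⟩ (by simp) (by simp; omega)
        rw [h27_val1, h2, mul_zero, zero_sub, abs_neg, abs_mul, abs_of_pos hp]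
        have h3 := mul_le_mul_of_nonneg_left (h1.trans (h27_rk_mono l)) hp.le
        rw [hr] at h3 hr0
        linarith
      · have h2 := h27_bother (k + 1) g ⟨l, h⟩ hl1 hl2
        have h3 := h27_aother k g ⟨l, h⟩ hl0 hl1
        rw [h27_val1, h2, h3, mul_zero, mul_zero, sub_self, abs_zero]
        positivity

theorem norm_Phi_le (g : G) : ‖Phi g‖ ≤ 32 * (2 : ℝ) ^ (-(g.1 : ℝ) / 4) := by
  refine lp.norm_le_of_forall_le (by positivity) fun x => ?_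
  rw [Real.norm_eq_abs]
  obtain ⟨k, g⟩ := g
  cases k with
  | zero =>
    have h1 := h27_bd0 g x
    simpa using h1
  | succ k => exact h27_bd1 k g x

theorem Phi_diag (g : G) : Phi g g = if g.1 = 0 then 1 else 0 := by
  obtain ⟨k, g⟩ := g
  cases k with
  | zero =>
    rw [h27_diag0]
    simp
  | succ k =>
    rw [h27_diag1]
    simp

theorem uv_finite (k : ℕ) (j : Gk (k + 1)) : {g : G | uv k j g ≠ 0}.Finite := by
  have h1 : ((Set.range fun h : Gk (k + 2) => (⟨k, h⟩ : G)) ∪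
      Set.range fun h : Gk (k + 3) => (⟨k + 1, h⟩ : G)).Finite :=
    (Set.finite_range _).union (Set.finite_range _)
  refine h1.subset ?_
  rintro ⟨l, h⟩ hx
  by_cases h0 : l = k
  · subst h0
    exact Or.inl ⟨h, rfl⟩
  · by_cases h2 : l = k + 1
    · subst h2
      exact Or.inr ⟨h, rfl⟩
    · exact absurd (uf_other k j ⟨l, h⟩ h0 h2) hx

theorem Phi_mem (g : G) :
    Phi g ∈ Submodule.span ℝ (Set.range fun p : (Σ k : ℕ, Gk (k + 1)) => uv p.1 p.2) := by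
  have h1 : ∀ (k : ℕ) (j : Gk (k + 1)), uv k j ∈
      Submodule.span ℝ (Set.range fun p : (Σ k : ℕ, Gk (k + 1)) => uv p.1 p.2) :=
    fun k j => Submodule.subset_span ⟨⟨k, j⟩, rfl⟩
  obtain ⟨k, g⟩ := g
  cases k with
  | zero =>
    exact Submodule.smul_mem _ _ (Submodule.sum_mem _ fun j _ => Submodule.smul_mem _ _ (h1 0 j))
  | succ k =>
    exact Submodule.sub_mem _
      (Submodule.smul_mem _ _ (Submodule.sum_mem _ fun j _ => Submodule.smul_mem _ _ (h1 (k + 1) j)))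
      (Submodule.smul_mem _ _ (Submodule.sum_mem _ fun j _ => Submodule.smul_mem _ _ (h1 k j)))

end Pool.Agent.Helper25.SC
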