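import Pool.Agent.Helper25.SC.Vec

/-!
# Block SC-DAV2: the relations between Davie's vectors

`Phi_rel`: fix `k`, `j`. The function `g ↦ (2^-(g.1+2) * uv k j g) • Phi g` is supported on the levels `k`, `k + 1` (finite), so the
`finsum` is the sum over `g : Gk (k+2)` (level `k`) plus the sum over `h : Gk (k + 3)` (level `k + 1`)
(`finsum_eq_sum_of_support_subset` with the image finset, or write it as a `tsum`/finite sum over a Finset of `G`).
Level `k`: `∑_g 2^-(k+2) H (bb k j) g • Phi ⟨k, g⟩ = 2^-(k+1) • uv k j`: interchange the sums; `∑_g H (bb k j) g * H (bb k i) g` is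
`2^(k+2)` for `i = j` and `0` for `i ≠ j` (`H_row`, `bb_inj`), `∑_g H (bb k j) g * H (aa k i) g = 0` (`bb_ne_aa`).
Level `k + 1`: `∑_h 2^-(k+3) sg (ee k j) H (aa (k+1) j) h • Phi ⟨k+1, h⟩ = - 2^-(k+1) • uv k j`: the first sum of `Phi` gives `0`
(`bb_ne_aa`), the second `- 2^-(k+3) 2^-(k+1) ∑_i sg (ee k j) sg (ee k i) (∑_h H (aa (k+1) j) h * H (aa (k+1) i) h) • uv k i`
`= - 2^-(k+3) 2^-(k+1) 2^(k+3) • uv k j`.
-/

set_option autoImplicit false
set_option maxSynthPendingDepth 3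

namespace Pool.Agent.Helper25.SC

open scoped ENNReal

private theorem sum_row_self_h51 {m : ℕ} (r : Gk m) : ∑ g, H r g * H r g = (2 : ℝ) ^ m := by
  simp [H_mul_self]

private theorem sum_row_diff_h51 {E : Type*} [AddCommGroup E] [Module ℝ E] {m : ℕ} {ι : Type*}
    [Fintype ι] (r : Gk m) (b : ι → Gk m) (hb : ∀ i, r ≠ b i) (c : ι → ℝ) (v : ι → E) :
    ∑ g, H r g • ∑ i, (c i * H (b i) g) • v i = 0 := by
  simp_rw [Finset.smul_sum, smul_smul]
  rw [Finset.sum_comm]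
  refine Finset.sum_eq_zero fun i _ => ?_
  rw [← Finset.sum_smul]
  have h1 : ∑ g, H r g * (c i * H (b i) g) = c i * ∑ g, H r g * H (b i) g := by
    rw [Finset.mul_sum]
    refine Finset.sum_congr rfl fun g _ => by ring
  rw [h1, H_row (hb i), mul_zero, zero_smul]

private theorem sum_row_same_h51 {E : Type*} [AddCommGroup E] [Module ℝ E] {m : ℕ} {ι : Type*}
    [Fintype ι] (b : ι → Gk m) (hb : Function.Injective b) (j : ι) (c : ι → ℝ) (v : ι → E) :
    ∑ g, H (b j) g • ∑ i, (c i * H (b i) g) • v i = ((2 : ℝ) ^ m * c j) • v j := by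
  classical
  simp_rw [Finset.smul_sum, smul_smul]
  rw [Finset.sum_comm, Finset.sum_eq_single j]
  · rw [← Finset.sum_smul]
    have h1 : ∑ g, H (b j) g * (c j * H (b j) g) = c j * ∑ g, H (b j) g * H (b j) g := by
      rw [Finset.mul_sum]
      refine Finset.sum_congr rfl fun g _ => by ring
    rw [h1, sum_row_self_h51, mul_comm]
  · intro i _ hij
    rw [← Finset.sum_smul]
    have h1 : ∑ g, H (b j) g * (c i * H (b i) g) = c i * ∑ g, H (b j) g * H (b i) g := by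
      rw [Finset.mul_sum]
      refine Finset.sum_congr rfl fun g _ => by ring
    rw [h1, H_row (fun h => hij (hb h).symm), mul_zero, zero_smul]
  · intro h
    exact absurd (Finset.mem_univ _) h

/-- Level `k`. -/
private theorem level_same_h51 (k : ℕ) (j : Gk (k + 1)) :
    ∑ g : Gk (k + 2), H (bb k j) g • Phi ⟨k, g⟩ = (2 : ℝ) • uv k j := by
  cases k with
  | zero =>
    have h1 : ∀ g : Gk 2, H (bb 0 j) g • Phi ⟨0, g⟩
        = (2 : ℝ)⁻¹ • (H (bb 0 j) g • ∑ i : Gk 1, ((1 : ℝ) * H (bb 0 i) g) • uv 0 i) := by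
      intro g
      rw [smul_comm]
      simp only [one_mul]
      rfl
    rw [Finset.sum_congr rfl fun g _ => h1 g, ← Finset.smul_sum,
      sum_row_same_h51 (bb 0) (bb_inj 0) j (fun _ => 1) (uv 0), smul_smul]
    norm_num
  | succ m =>
    have h1 : ∀ g : Gk (m + 3), H (bb (m + 1) j) g • Phi ⟨m + 1, g⟩
        = ((2 : ℝ) ^ (m + 2))⁻¹ • (H (bb (m + 1) j) g •
            ∑ i : Gk (m + 2), ((1 : ℝ) * H (bb (m + 1) i) g) • uv (m + 1) i)
          - ((2 : ℝ) ^ (m + 1))⁻¹ • (H (bb (m + 1) j) g •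
            ∑ i : Gk (m + 1), (sg (ee m i) * H (aa (m + 1) i) g) • uv m i) := by
      intro g
      have h2 : Phi ⟨m + 1, g⟩ = ((2 : ℝ) ^ (m + 2))⁻¹ •
            ∑ i : Gk (m + 2), H (bb (m + 1) i) g • uv (m + 1) i
          - ((2 : ℝ) ^ (m + 1))⁻¹ •
            ∑ i : Gk (m + 1), (sg (ee m i) * H (aa (m + 1) i) g) • uv m i := rfl
      rw [h2, smul_sub, smul_comm (H (bb (m + 1) j) g), smul_comm (H (bb (m + 1) j) g)]
      simp only [one_mul]
    rw [Finset.sum_congr rfl fun g _ => h1 g, Finset.sum_sub_distrib, ← Finset.smul_sum,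
      ← Finset.smul_sum,
      sum_row_same_h51 (bb (m + 1)) (bb_inj (m + 1)) j (fun _ => 1) (uv (m + 1)),
      sum_row_diff_h51 (bb (m + 1) j) (aa (m + 1)) (fun i => bb_ne_aa (m + 1) j i)
        (fun i => sg (ee m i)) (uv m), smul_zero, sub_zero, smul_smul]
    congr 1
    have h3 : (2 : ℝ) ^ (m + 2) ≠ 0 := by positivity
    have h4 : (2 : ℝ) ^ (m + 1 + 2) = (2 : ℝ) ^ (m + 2) * 2 := by
      rw [← pow_succ]
    rw [mul_one, h4, ← mul_assoc, inv_mul_cancel₀ h3, one_mul]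

/-- Level `k + 1`. -/
private theorem level_succ_h51 (k : ℕ) (j : Gk (k + 1)) :
    ∑ h : Gk (k + 3), H (aa (k + 1) j) h • Phi ⟨k + 1, h⟩
      = -((4 : ℝ) * sg (ee k j)) • uv k j := by
  have h1 : ∀ g : Gk (k + 3), H (aa (k + 1) j) g • Phi ⟨k + 1, g⟩
      = ((2 : ℝ) ^ (k + 2))⁻¹ • (H (aa (k + 1) j) g •
          ∑ i : Gk (k + 2), ((1 : ℝ) * H (bb (k + 1) i) g) • uv (k + 1) i)
        - ((2 : ℝ) ^ (k + 1))⁻¹ • (H (aa (k + 1) j) g •
          ∑ i : Gk (k + 1), (sg (ee k i) * H (aa (k + 1) i) g) • uv k i) := by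
    intro g
    have h2 : Phi ⟨k + 1, g⟩ = ((2 : ℝ) ^ (k + 2))⁻¹ •
          ∑ i : Gk (k + 2), H (bb (k + 1) i) g • uv (k + 1) i
        - ((2 : ℝ) ^ (k + 1))⁻¹ •
          ∑ i : Gk (k + 1), (sg (ee k i) * H (aa (k + 1) i) g) • uv k i := rfl
    rw [h2, smul_sub, smul_comm (H (aa (k + 1) j) g), smul_comm (H (aa (k + 1) j) g)]
    simp only [one_mul]
  rw [Finset.sum_congr rfl fun g _ => h1 g, Finset.sum_sub_distrib, ← Finset.smul_sum,
    ← Finset.smul_sum,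
    sum_row_diff_h51 (aa (k + 1) j) (bb (k + 1)) (fun i => (bb_ne_aa (k + 1) i j).symm)
      (fun _ => 1) (uv (k + 1)),
    sum_row_same_h51 (aa (k + 1)) (aa_inj (k + 1)) j (fun i => sg (ee k i)) (uv k),
    smul_zero, zero_sub, smul_smul, ← neg_smul]
  congr 1
  have h3 : (2 : ℝ) ^ (k + 1) ≠ 0 := by positivity
  have h4 : (2 : ℝ) ^ (k + 1 + 2) = (2 : ℝ) ^ (k + 1) * 4 := by
    rw [pow_add]
    norm_num
  rw [h4, ← mul_assoc, ← mul_assoc, inv_mul_cancel₀ h3, one_mul]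

theorem Phi_rel (k : ℕ) (j : Gk (k + 1)) :
    ∑ᶠ g : G, (((2 : ℝ) ^ (g.1 + 2))⁻¹ * uv k j g) • Phi g = 0 := by
  classical
  set f : G → lp (fun _ : G => ℝ) ∞ := fun g => (((2 : ℝ) ^ (g.1 + 2))⁻¹ * uv k j g) • Phi g with hf
  set S₁ : Finset G := (Finset.univ : Finset (Gk (k + 2))).map ⟨Sigma.mk k, sigma_mk_injective⟩
    with hS₁
  set S₂ : Finset G :=
    (Finset.univ : Finset (Gk (k + 1 + 2))).map ⟨Sigma.mk (k + 1), sigma_mk_injective⟩ with hS₂
  have hsupp : Function.support f ⊆ ↑(S₁ ∪ S₂) := by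
    rintro ⟨m, g⟩ hg
    rw [Function.mem_support, hf] at hg
    simp only [uv_apply] at hg
    have h1 : uf k j ⟨m, g⟩ ≠ 0 := by
      intro h0
      apply hg
      rw [h0, mul_zero, zero_smul]
    rw [Finset.mem_coe, Finset.mem_union]
    by_cases hm : m = k
    · left
      subst hm
      rw [hS₁, Finset.mem_map]
      exact ⟨g, Finset.mem_univ _, rfl⟩
    · by_cases hm' : m = k + 1
      · right
        subst hm'
        rw [hS₂, Finset.mem_map]
        exact ⟨g, Finset.mem_univ _, rfl⟩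
      · exact absurd (uf_other k j ⟨m, g⟩ hm hm') h1
  have hdisj : Disjoint S₁ S₂ := by
    rw [Finset.disjoint_left]
    intro x hx hx'
    rw [hS₁, Finset.mem_map] at hx
    rw [hS₂, Finset.mem_map] at hx'
    obtain ⟨g, -, rfl⟩ := hx
    obtain ⟨h, -, hh⟩ := hx'
    have := congrArg Sigma.fst hh
    simp at this
  rw [finsum_eq_sum_of_support_subset f hsupp, Finset.sum_union hdisj, hS₁, hS₂,
    Finset.sum_map, Finset.sum_map]
  have h1 : ∑ g : Gk (k + 2), f ⟨k, g⟩ = (((2 : ℝ) ^ (k + 2))⁻¹ * 2) • uv k j := by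
    rw [mul_smul, ← level_same_h51, Finset.smul_sum]
    refine Finset.sum_congr rfl fun g _ => ?_
    rw [hf]
    simp only [uv_apply]
    rw [uf_same, mul_smul]
  have h2 : ∑ h : Gk (k + 1 + 2), f ⟨k + 1, h⟩
      = -(((2 : ℝ) ^ (k + 3))⁻¹ * 4) • uv k j := by
    have h3 : ∑ h : Gk (k + 1 + 2), f ⟨k + 1, h⟩
        = (((2 : ℝ) ^ (k + 3))⁻¹ * sg (ee k j)) •
          ∑ h : Gk (k + 3), H (aa (k + 1) j) h • Phi ⟨k + 1, h⟩ := by
      rw [Finset.smul_sum]
      refine Finset.sum_congr rfl fun g _ => ?_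
      rw [hf]
      simp only [uv_apply]
      rw [uf_succ, smul_smul, mul_assoc]
    rw [h3, level_succ_h51, smul_smul]
    congr 1
    have h4 := sg_mul_self (ee k j)
    calc ((2 : ℝ) ^ (k + 3))⁻¹ * sg (ee k j) * -(4 * sg (ee k j))
        = -(((2 : ℝ) ^ (k + 3))⁻¹ * 4) * (sg (ee k j) * sg (ee k j)) := by ring
      _ = _ := by rw [h4, mul_one]
  have h5 : (((2 : ℝ) ^ (k + 2))⁻¹ * 2) + -(((2 : ℝ) ^ (k + 3))⁻¹ * 4) = 0 := by
    rw [show k + 3 = (k + 2) + 1 from rfl, pow_succ (2 : ℝ) (k + 2), mul_inv]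
    ring
  calc _ = ∑ g : Gk (k + 2), f ⟨k, g⟩ + ∑ h : Gk (k + 1 + 2), f ⟨k + 1, h⟩ := rfl
    _ = 0 := by rw [h1, h2, ← add_smul, h5, zero_smul]

end Pool.Agent.Helper25.SC
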