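import Mathlib

/-!
# Lipschitz-free spaces, projective tensor products, the Schur property: definitions
-/

set_option autoImplicit false
set_option maxSynthPendingDepth 3

namespace Pool.Agent.Helper25.SC

open Filter Topology

/-- The Schur property: every weakly convergent sequence converges in norm. -/
def Schur (E : Type*) [NormedAddCommGroup E] [NormedSpace ℝ E] : Prop :=
  ∀ (u : ℕ → E) (a : E), (∀ f : E →L[ℝ] ℝ, Tendsto (fun n => f (u n)) atTop (𝓝 (f a))) →
    Tendsto u atTop (𝓝 a)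

section Lip0

variable (M : Type*) [MetricSpace M] (o : M)

/-- The real-valued Lipschitz functions on `M` which vanish at the base point `o`. -/
def lipSub : Submodule ℝ (M → ℝ) where
  carrier := {f | f o = 0 ∧ ∃ K : ℝ, ∀ x y, |f x - f y| ≤ K * dist x y}
  zero_mem' := ⟨rfl, 0, fun x y => by simp⟩
  add_mem' := by
    rintro f g ⟨hf0, K, hK⟩ ⟨hg0, L, hL⟩
    refine ⟨by simp [hf0, hg0], K + L, fun x y => ?_⟩
    have h : (f + g) x - (f + g) y = (f x - f y) + (g x - g y) := by
      simp only [Pi.add_apply]; ring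
    rw [h, add_mul]
    exact (abs_add_le _ _).trans (add_le_add (hK x y) (hL x y))
  smul_mem' := by
    rintro c f ⟨hf0, K, hK⟩
    refine ⟨by simp [hf0], |c| * K, fun x y => ?_⟩
    have h : (c • f) x - (c • f) y = c * (f x - f y) := by
      simp only [Pi.smul_apply, smul_eq_mul]; ring
    rw [h, abs_mul, mul_assoc]
    exact mul_le_mul_of_nonneg_left (hK x y) (abs_nonneg c)

/-- The Banach space `Lip_0(M)`. -/
def Lip0 : Type _ := lipSub M o

noncomputable instance : AddCommGroup (Lip0 M o) := inferInstanceAs (AddCommGroup (lipSub M o))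

noncomputable instance : Module ℝ (Lip0 M o) := inferInstanceAs (Module ℝ (lipSub M o))

instance : CoeFun (Lip0 M o) (fun _ => M → ℝ) := ⟨fun f => f.1⟩

variable {M o}

@[simp] theorem Lip0.add_apply (f g : Lip0 M o) (x : M) : (f + g) x = f x + g x := rfl

@[simp] theorem Lip0.zero_apply (x : M) : (0 : Lip0 M o) x = 0 := rfl

@[simp] theorem Lip0.smul_apply (c : ℝ) (f : Lip0 M o) (x : M) : (c • f) x = c * f x := rfl

@[simp] theorem Lip0.sub_apply (f g : Lip0 M o) (x : M) : (f - g) x = f x - g x := rfl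

@[simp] theorem Lip0.neg_apply (f : Lip0 M o) (x : M) : (-f) x = -(f x) := rfl

@[ext] theorem Lip0.ext {f g : Lip0 M o} (h : ∀ x, f x = g x) : f = g :=
  Subtype.ext (funext h)

@[simp] theorem Lip0.base (f : Lip0 M o) : f o = 0 := f.2.1

/-- The norm of `Lip_0(M)` is the best Lipschitz constant. -/
noncomputable instance : Norm (Lip0 M o) :=
  ⟨fun f => sInf {K : ℝ | 0 ≤ K ∧ ∀ x y, |f x - f y| ≤ K * dist x y}⟩

theorem Lip0.norm_def (f : Lip0 M o) :
    ‖f‖ = sInf {K : ℝ | 0 ≤ K ∧ ∀ x y, |f x - f y| ≤ K * dist x y} := rfl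

theorem Lip0.norm_le {f : Lip0 M o} {K : ℝ} (hK : 0 ≤ K) (h : ∀ x y, |f x - f y| ≤ K * dist x y) :
    ‖f‖ ≤ K :=
  csInf_le ⟨0, fun _ hL => hL.1⟩ ⟨hK, h⟩

theorem Lip0.norm_nonneg' (f : Lip0 M o) : 0 ≤ ‖f‖ :=
  Real.sInf_nonneg fun _ hL => hL.1

theorem Lip0.le_norm (f : Lip0 M o) (x y : M) : |f x - f y| ≤ ‖f‖ * dist x y := by
  obtain ⟨-, K, hK⟩ := f.2
  have hne : ({K : ℝ | 0 ≤ K ∧ ∀ x y, |f x - f y| ≤ K * dist x y}).Nonempty := by
    refine ⟨|K|, abs_nonneg K, fun x y => (hK x y).trans ?_⟩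
    exact mul_le_mul_of_nonneg_right (le_abs_self K) dist_nonneg
  rcases eq_or_ne x y with rfl | hxy
  · simp
  · have hd : 0 < dist x y := dist_pos.2 hxy
    rw [← div_le_iff₀ hd]
    refine le_csInf hne fun L hL => ?_
    rw [div_le_iff₀ hd]
    exact hL.2 x y

theorem Lip0.core : NormedSpace.Core ℝ (Lip0 M o) where
  norm_nonneg := Lip0.norm_nonneg'
  norm_smul := by
    intro c f
    have key : ∀ (c : ℝ) (f : Lip0 M o), ‖c • f‖ ≤ |c| * ‖f‖ := by
      intro c f
      refine Lip0.norm_le (mul_nonneg (abs_nonneg c) f.norm_nonneg') fun x y => ?_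
      rw [Lip0.smul_apply, Lip0.smul_apply, ← mul_sub, abs_mul, mul_assoc]
      exact mul_le_mul_of_nonneg_left (f.le_norm x y) (abs_nonneg c)
    rw [Real.norm_eq_abs]
    refine le_antisymm (key c f) ?_
    rcases eq_or_ne c 0 with rfl | hc
    · simpa using Lip0.norm_nonneg' _
    · have h := key c⁻¹ (c • f)
      rw [smul_smul, inv_mul_cancel₀ hc, one_smul, abs_inv] at h
      have hc' : 0 < |c| := abs_pos.2 hc
      calc |c| * ‖f‖ ≤ |c| * (|c|⁻¹ * ‖c • f‖) := mul_le_mul_of_nonneg_left h hc'.le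
        _ = ‖c • f‖ := by rw [← mul_assoc, mul_inv_cancel₀ hc'.ne', one_mul]
  norm_triangle := by
    intro f g
    refine Lip0.norm_le (add_nonneg f.norm_nonneg' g.norm_nonneg') fun x y => ?_
    have h : (f + g) x - (f + g) y = (f x - f y) + (g x - g y) := by
      simp only [Lip0.add_apply]; ring
    rw [h, add_mul]
    exact (abs_add_le _ _).trans (add_le_add (f.le_norm x y) (g.le_norm x y))
  norm_eq_zero_iff := by
    intro f
    constructor
    · intro h
      ext x
      have := f.le_norm x o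
      rw [h, zero_mul, Lip0.base, sub_zero] at this
      simpa using abs_nonpos_iff.1 this
    · rintro rfl
      refine le_antisymm (Lip0.norm_le le_rfl fun x y => by simp) (Lip0.norm_nonneg' _)

noncomputable instance : NormedAddCommGroup (Lip0 M o) := NormedAddCommGroup.ofCore Lip0.core

noncomputable instance : NormedSpace ℝ (Lip0 M o) := NormedSpace.ofCore Lip0.core

theorem Lip0.abs_apply_le (f : Lip0 M o) (x : M) : |f x| ≤ ‖f‖ * dist x o := by
  simpa using f.le_norm x o

variable (o)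

/-- The evaluation functional `δ(x)` on `Lip_0(M)`. -/
noncomputable def delta (x : M) : Lip0 M o →L[ℝ] ℝ :=
  LinearMap.mkContinuous
    { toFun := fun f => f x
      map_add' := fun _ _ => rfl
      map_smul' := fun _ _ => rfl } (dist x o) fun f => by
    rw [mul_comm]
    exact f.abs_apply_le x

@[simp] theorem delta_apply (x : M) (f : Lip0 M o) : delta o x f = f x := rfl

@[simp] theorem delta_base : delta o o = 0 := by
  ext f
  simp

theorem norm_delta_sub_le (x y : M) : ‖delta o x - delta o y‖ ≤ dist x y := by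
  refine ContinuousLinearMap.opNorm_le_bound _ dist_nonneg fun f => ?_
  rw [_root_.sub_apply, delta_apply, delta_apply, mul_comm, Real.norm_eq_abs]
  exact f.le_norm x y

variable (M)

/-- The Lipschitz-free space `F(M)`: the closed linear span of the `δ(x)` in the dual of
`Lip_0(M)`. -/
noncomputable def Free : Submodule ℝ (Lip0 M o →L[ℝ] ℝ) :=
  (Submodule.span ℝ (Set.range (delta o : M → _))).topologicalClosure

instance : CompleteSpace (Free M o) :=
  (Submodule.isClosed_topologicalClosure _).completeSpace_coe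

variable {M}

/-- `δ(x)` as an element of `F(M)`. -/
noncomputable def dlt (x : M) : Free M o :=
  ⟨delta o x, Submodule.le_topologicalClosure _ (Submodule.subset_span ⟨x, rfl⟩)⟩

@[simp] theorem dlt_coe (x : M) : (dlt o x : Lip0 M o →L[ℝ] ℝ) = delta o x := rfl

theorem norm_dlt_sub_le (x y : M) : ‖dlt o x - dlt o y‖ ≤ dist x y :=
  norm_delta_sub_le o x y

@[simp] theorem dlt_base : dlt o o = 0 := Subtype.ext (delta_base o)

variable {o}

/-- The functional on `F(M)` given by `f ∈ Lip_0(M)`. -/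
noncomputable def evL (f : Lip0 M o) : Free M o →L[ℝ] ℝ :=
  (ContinuousLinearMap.apply ℝ ℝ f).comp (Free M o).subtypeL

@[simp] theorem evL_apply (f : Lip0 M o) (μ : Free M o) : evL f μ = (μ : Lip0 M o →L[ℝ] ℝ) f := rfl

theorem abs_evL_le (f : Lip0 M o) (μ : Free M o) : |evL f μ| ≤ ‖f‖ * ‖μ‖ := by
  rw [evL_apply, mul_comm]
  exact (μ : Lip0 M o →L[ℝ] ℝ).le_opNorm f

/-- Induction on the elements of `F(M)`. -/
theorem Free.induction {p : Free M o → Prop} (h0 : p 0) (hd : ∀ x, p (dlt o x))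
    (ha : ∀ μ ν, p μ → p ν → p (μ + ν)) (hs : ∀ (c : ℝ) μ, p μ → p (c • μ))
    (hc : IsClosed {μ | p μ}) (μ : Free M o) : p μ := by
  have h1 : ∀ ν ∈ Submodule.span ℝ (Set.range (delta o : M → _)),
      ∀ hν : ν ∈ Free M o, p ⟨ν, hν⟩ := by
    intro ν hν
    refine Submodule.span_induction (p := fun ν _ => ∀ hν : ν ∈ Free M o, p ⟨ν, hν⟩)
      ?_ ?_ ?_ ?_ hν
    · rintro _ ⟨x, rfl⟩ _
      exact hd x
    · intro _
      exact h0
    · intro a b ha' hb' h1 h2 hab
      have h3 : a ∈ Free M o := Submodule.le_topologicalClosure _ ha'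
      have h4 : b ∈ Free M o := Submodule.le_topologicalClosure _ hb'
      exact ha ⟨a, h3⟩ ⟨b, h4⟩ (h1 h3) (h2 h4)
    · intro c a ha' h1 hca
      have h3 : a ∈ Free M o := Submodule.le_topologicalClosure _ ha'
      exact hs c ⟨a, h3⟩ (h1 h3)
  obtain ⟨ν, hν⟩ := μ
  have h2 : ν ∈ closure (Submodule.span ℝ (Set.range (delta o : M → _)) : Set _) := hν
  rw [mem_closure_iff_seq_limit] at h2
  obtain ⟨s, hs1, hs2⟩ := h2
  have hmem : ∀ n, s n ∈ Free M o := fun n => Submodule.le_topologicalClosure _ (hs1 n)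
  have h3 : Tendsto (fun n => (⟨s n, hmem n⟩ : Free M o)) atTop (𝓝 ⟨ν, hν⟩) := by
    rw [tendsto_subtype_rng]
    exact hs2
  exact hc.mem_of_tendsto h3 (Eventually.of_forall fun n => h1 _ (hs1 n) _)

end Lip0

section Proj

variable {F X : Type*} [NormedAddCommGroup F] [NormedSpace ℝ F] [NormedAddCommGroup X]
  [NormedSpace ℝ X]

/-- The elementary tensor `μ ⊗ x` as a functional on the bounded bilinear forms on `F × X`. -/
noncomputable def tmul (μ : F) (x : X) : (F →L[ℝ] X →L[ℝ] ℝ) →L[ℝ] ℝ :=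
  (ContinuousLinearMap.apply ℝ ℝ x).comp (ContinuousLinearMap.apply ℝ (X →L[ℝ] ℝ) μ)

@[simp] theorem tmul_apply (μ : F) (x : X) (B : F →L[ℝ] X →L[ℝ] ℝ) : tmul μ x B = B μ x := rfl

theorem norm_tmul_le (μ : F) (x : X) : ‖tmul μ x‖ ≤ ‖μ‖ * ‖x‖ := by
  refine ContinuousLinearMap.opNorm_le_bound _ (by positivity) fun B => ?_
  rw [tmul_apply]
  calc ‖B μ x‖ ≤ ‖B μ‖ * ‖x‖ := (B μ).le_opNorm x
    _ ≤ (‖B‖ * ‖μ‖) * ‖x‖ := mul_le_mul_of_nonneg_right (B.le_opNorm μ) (norm_nonneg x)
    _ = ‖μ‖ * ‖x‖ * ‖B‖ := by ring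

variable (F X)

/-- The (completed) projective tensor product of `F` and `X`: the closed linear span of the
elementary tensors in the dual of the space of bounded bilinear forms on `F × X`. -/
noncomputable def Proj : Submodule ℝ ((F →L[ℝ] X →L[ℝ] ℝ) →L[ℝ] ℝ) :=
  (Submodule.span ℝ (Set.range fun p : F × X => tmul p.1 p.2)).topologicalClosure

instance : CompleteSpace (Proj F X) :=
  (Submodule.isClosed_topologicalClosure _).completeSpace_coe

variable {F X}

/-- The elementary tensor as an element of `Proj F X`. -/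
noncomputable def tm (μ : F) (x : X) : Proj F X :=
  ⟨tmul μ x, Submodule.le_topologicalClosure _ (Submodule.subset_span ⟨(μ, x), rfl⟩)⟩

@[simp] theorem tm_coe (μ : F) (x : X) : ((tm μ x : Proj F X) : _ →L[ℝ] ℝ) = tmul μ x := rfl

end Proj

section Snow

/-- The snowflake `(K, d^(9/10))` of a metric space `K`. -/
structure Snow (K : Type*) where
  /-- the underlying point of `K` -/
  pt : K

variable {K : Type*} [MetricSpace K]

/-- The exponent. -/
noncomputable def al : ℝ := 9 / 10

theorem al_pos : 0 < al := by norm_num [al]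

theorem al_le_one : al ≤ 1 := by norm_num [al]

theorem al_lt_one : al < 1 := by norm_num [al]

noncomputable instance : MetricSpace (Snow K) where
  dist x y := (dist x.pt y.pt) ^ al
  dist_self x := by rw [dist_self, Real.zero_rpow al_pos.ne']
  dist_comm x y := by rw [dist_comm]
  dist_triangle x y z := by
    refine (Real.rpow_le_rpow dist_nonneg (dist_triangle x.pt y.pt z.pt) al_pos.le).trans ?_
    exact Real.rpow_add_le_add_rpow dist_nonneg dist_nonneg al_pos.le al_le_one
  eq_of_dist_eq_zero := by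
    rintro ⟨x⟩ ⟨y⟩ h
    change (dist x y) ^ al = 0 at h
    rw [Real.rpow_eq_zero dist_nonneg al_pos.ne'] at h
    rw [dist_eq_zero.1 h]

theorem snow_dist (x y : Snow K) : dist x y = (dist x.pt y.pt) ^ al := rfl

theorem continuous_mk : Continuous (Snow.mk : K → Snow K) := by
  rw [Metric.continuous_iff]
  intro b ε hε
  refine ⟨ε ^ (1 / al), Real.rpow_pos_of_pos hε _, fun a ha => ?_⟩
  rw [snow_dist]
  calc (dist a b) ^ al < (ε ^ (1 / al)) ^ al := Real.rpow_lt_rpow dist_nonneg ha al_pos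
    _ = ε := by rw [← Real.rpow_mul hε.le, one_div, inv_mul_cancel₀ al_pos.ne', Real.rpow_one]

instance [CompactSpace K] : CompactSpace (Snow K) := by
  refine ⟨?_⟩
  have h : (Set.univ : Set (Snow K)) = (Snow.mk : K → Snow K) '' Set.univ := by
    rw [Set.image_univ]
    exact (Set.range_eq_univ.2 fun x => ⟨x.pt, rfl⟩).symm
  rw [h]
  exact isCompact_univ.image continuous_mk

end Snow

end Pool.Agent.Helper25.SC
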