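import Pool.Agent.Helper25.SC.Defs

/-!
# Block SC-FS1: flat functions are norming for `F(Snow K)`

`Flat f`: `f` is Lipschitz for the original metric of `K`. Proof of `flat_norming`: there is `f₀` with `‖f₀‖ ≤ 1` and
`evL f₀ μ ≥ (3/4) ‖μ‖` (definition of the operator norm). For `n ≥ 1` put (`a = al = 9/10`, `ρ = dist x.pt y.pt`)
`h_n x = inf_y (f₀ y + min (n ρ(x,y)) (ρ(x,y)^a))`. Since `t ↦ min (n t) (t^a)` is increasing and subadditive on `[0, ∞)`
(`min (n (s+t)) ((s+t)^a) ≤ min (n s + n t) (s^a + t^a)`, and `min (A + B) (C + D) ≤ min A C + min B D` holds here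
because `s ≤ t_n ⟺ n s ≤ s^a` with `t_n = n^(-1/(1-a))`; or: it is concave and vanishes at `0`), `d_n = min (n ρ) (ρ^a)` is a
metric, `h_n` is 1-Lipschitz for `d_n`, so `|h_n x - h_n y| ≤ d(x,y)` and `≤ n ρ(x,y)`. (`f₀` is bounded below:
`K` is compact, hence bounded.) Moreover `h_n ≤ f₀` and `h_n x ≥ f₀ x - sup_t (t^a - min (n t) (t^a)) ≥ f₀ x - t_n^a`,
because `f₀ y ≥ f₀ x - ρ^a`. So `h_n - h_n o → f₀` pointwise, and `g_n = h_n - h_n(o) ∈ Lip0`, `‖g_n‖ ≤ 1`, `Flat g_n`.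
By density of the span of the `δ(x)` (`Free.induction` on `μ`, the `g_n` are uniformly bounded in norm),
`evL g_n μ → evL f₀ μ`, so `evL g_n μ ≥ ‖μ‖ / 2` for some `n` (if `μ = 0` take `0`). (Proved by helper9.)
-/

set_option autoImplicit false
set_option maxSynthPendingDepth 3

namespace Pool.Agent.Helper25.SC

variable {K : Type*} [MetricSpace K]

/-- `f` is Lipschitz for the metric of `K`. -/
def Flat {o : Snow K} (f : Lip0 (Snow K) o) : Prop :=
  ∃ L : ℝ, ∀ x y : Snow K, |f x - f y| ≤ L * dist x.pt y.pt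

/-- `min (n t) (t ^ al)` -/
private noncomputable def mn (n t : ℝ) : ℝ := min (n * t) (t ^ al)

private theorem mn_mixed {n s t : ℝ} (hs : 0 ≤ s) (ht : 0 ≤ t) (h : t ^ al ≤ n * t) (h2 : 0 ≤ n) :
    mn n (s + t) ≤ n * s + t ^ al := by
  rcases eq_or_lt_of_le ht with h0 | h0
  · unfold mn
    rw [← h0, add_zero, Real.zero_rpow al_pos.ne', add_zero]
    exact min_le_left _ _
  · refine (min_le_right _ _).trans ?_
    have e : s + t = t * (1 + s / t) := by field_simp; ring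
    rw [e, Real.mul_rpow ht (by positivity)]
    have h3 : (1 + s / t) ^ al ≤ 1 + s / t := by
      have h4 : (1:ℝ) ≤ 1 + s / t := by
        have : 0 ≤ s / t := by positivity
        linarith
      calc (1 + s / t) ^ al ≤ (1 + s / t) ^ (1:ℝ) := Real.rpow_le_rpow_of_exponent_le h4 al_le_one
        _ = _ := Real.rpow_one _
    have h5 : 0 ≤ t ^ al := Real.rpow_nonneg ht _
    calc t ^ al * (1 + s / t) ^ al ≤ t ^ al * (1 + s / t) := mul_le_mul_of_nonneg_left h3 h5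
      _ = t ^ al + (t ^ al) * (s / t) := by ring
      _ ≤ t ^ al + (n * t) * (s / t) := by
          have : 0 ≤ s / t := by positivity
          gcongr
      _ = n * s + t ^ al := by field_simp; ring

private theorem mn_add {n s t : ℝ} (hn : 0 ≤ n) (hs : 0 ≤ s) (ht : 0 ≤ t) :
    mn n (s + t) ≤ mn n s + mn n t := by
  rcases le_total (n * s) (s ^ al) with h1 | h1 <;> rcases le_total (n * t) (t ^ al) with h2 | h2
  · have e1 : mn n s = n * s := min_eq_left h1
    have e2 : mn n t = n * t := min_eq_left h2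
    rw [e1, e2, ← mul_add]
    exact min_le_left _ _
  · have e1 : mn n s = n * s := min_eq_left h1
    have e2 : mn n t = t ^ al := min_eq_right h2
    rw [e1, e2]
    exact mn_mixed hs ht h2 hn
  · have e1 : mn n s = s ^ al := min_eq_right h1
    have e2 : mn n t = n * t := min_eq_left h2
    rw [e1, e2, add_comm s t, add_comm (s ^ al)]
    exact mn_mixed ht hs h1 hn
  · have e1 : mn n s = s ^ al := min_eq_right h1
    have e2 : mn n t = t ^ al := min_eq_right h2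
    rw [e1, e2]
    exact (min_le_right _ _).trans (Real.rpow_add_le_add_rpow hs ht al_pos.le al_le_one)

private theorem mn_mono {n s t : ℝ} (hn : 0 ≤ n) (hs : 0 ≤ s) (h : s ≤ t) : mn n s ≤ mn n t := by
  unfold mn
  exact min_le_min (mul_le_mul_of_nonneg_left h hn) (Real.rpow_le_rpow hs h al_pos.le)

private theorem mn_nonneg {n s : ℝ} (hn : 0 ≤ n) (hs : 0 ≤ s) : 0 ≤ mn n s :=
  le_min (mul_nonneg hn hs) (Real.rpow_nonneg hs _)

private theorem mn_zero (n : ℝ) : mn n 0 = 0 := by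
  unfold mn
  rw [mul_zero, Real.zero_rpow al_pos.ne', min_self]

private theorem mn_lower {n t : ℝ} (hn : 1 ≤ n) (ht : 0 ≤ t) : t ^ al - 1 / n ≤ mn n t := by
  have hn0 : 0 < n := by linarith
  rcases le_or_gt (t ^ al) (n * t) with h | h
  · have e : mn n t = t ^ al := min_eq_right h
    rw [e]
    have : 0 ≤ 1 / n := by positivity
    linarith
  · have e : mn n t = n * t := min_eq_left h.le
    rw [e]
    have h0 : 0 < t := by
      rcases eq_or_lt_of_le ht with h0 | h0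
      · rw [← h0, mul_zero, Real.zero_rpow al_pos.ne'] at h
        exact absurd h (lt_irrefl _)
      · exact h0
    have hal : al = 9 / 10 := rfl
    set r := t ^ (1 / 10 : ℝ) with hr
    have hr0 : 0 < r := Real.rpow_pos_of_pos h0 _
    have e1 : t ^ al = r ^ 9 := by
      rw [hr, ← Real.rpow_natCast, ← Real.rpow_mul ht, hal]
      norm_num
    have e2 : t = r ^ 10 := by
      rw [hr, ← Real.rpow_natCast, ← Real.rpow_mul ht]
      norm_num
    rw [e1, e2] at h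
    have h3 : n * r < 1 := by
      have h4 : (n * r) * r ^ 9 < 1 * r ^ 9 := by
        calc (n * r) * r ^ 9 = n * r ^ 10 := by ring
          _ < r ^ 9 := h
          _ = 1 * r ^ 9 := by ring
      exact lt_of_mul_lt_mul_right h4 (by positivity)
    have h5 : r ≤ 1 / n := by
      rw [le_div_iff₀ hn0]; linarith
    have h6 : r ≤ 1 := h5.trans (by rw [div_le_one hn0]; exact hn)
    have h7 : r ^ 9 ≤ r := by
      calc r ^ 9 = r ^ 8 * r := by ring
        _ ≤ 1 * r := by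
            have : r ^ 8 ≤ 1 := pow_le_one₀ hr0.le h6
            gcongr
        _ = r := one_mul r
    rw [e1]
    have : 0 ≤ n * t := by positivity
    linarith

/-- the inf-convolution -/
private noncomputable def hn {o : Snow K} (f₀ : Lip0 (Snow K) o) (n : ℝ) (x : Snow K) : ℝ :=
  ⨅ y : Snow K, (f₀ y + mn n (dist x.pt y.pt))

private theorem hn_bdd [CompactSpace K] {o : Snow K} (f₀ : Lip0 (Snow K) o) {n : ℝ} (hn : 0 ≤ n) (x : Snow K) :
    BddBelow (Set.range fun y : Snow K => f₀ y + mn n (dist x.pt y.pt)) := by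
  obtain ⟨D, hD⟩ := (isCompact_univ : IsCompact (Set.univ : Set (Snow K))).isBounded.subset_closedBall o
  refine ⟨-(‖f₀‖ * D), ?_⟩
  rintro _ ⟨y, rfl⟩
  have h1 := f₀.abs_apply_le y
  have h2 : dist y o ≤ D := by simpa using hD (Set.mem_univ y)
  have h3 := mn_nonneg hn (dist_nonneg (x := x.pt) (y := y.pt))
  have h4 : -(‖f₀‖ * D) ≤ f₀ y := by
    have := (abs_le.1 h1).1
    have h5 : ‖f₀‖ * dist y o ≤ ‖f₀‖ * D := mul_le_mul_of_nonneg_left h2 (norm_nonneg _)
    linarith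
  simp only
  linarith

private theorem hn_sub [CompactSpace K] {o : Snow K} (f₀ : Lip0 (Snow K) o) {n : ℝ} (h0 : 0 ≤ n) (x y : Snow K) :
    hn f₀ n x ≤ hn f₀ n y + mn n (dist x.pt y.pt) := by
  rw [← sub_le_iff_le_add]
  haveI : Nonempty (Snow K) := ⟨o⟩
  unfold hn
  refine le_ciInf fun z => ?_
  rw [sub_le_iff_le_add]
  refine (ciInf_le (hn_bdd f₀ h0 x) z).trans ?_
  have h1 : mn n (dist x.pt z.pt) ≤ mn n (dist x.pt y.pt) + mn n (dist y.pt z.pt) :=
    (mn_mono h0 dist_nonneg (dist_triangle _ _ _)).trans (mn_add h0 dist_nonneg dist_nonneg)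
  linarith

private theorem hn_abs [CompactSpace K] {o : Snow K} (f₀ : Lip0 (Snow K) o) {n : ℝ} (h0 : 0 ≤ n) (x y : Snow K) :
    |hn f₀ n x - hn f₀ n y| ≤ mn n (dist x.pt y.pt) := by
  rw [abs_le]
  have h1 := hn_sub f₀ h0 x y
  have h2 := hn_sub f₀ h0 y x
  rw [dist_comm] at h2
  constructor <;> linarith

private theorem hn_le [CompactSpace K] {o : Snow K} (f₀ : Lip0 (Snow K) o) {n : ℝ} (h0 : 0 ≤ n) (x : Snow K) :
    hn f₀ n x ≤ f₀ x := by
  refine (ciInf_le (hn_bdd f₀ h0 x) x).trans ?_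
  rw [dist_self, mn_zero, add_zero]

private theorem hn_ge [CompactSpace K] {o : Snow K} (f₀ : Lip0 (Snow K) o) (hf : ‖f₀‖ ≤ 1) {n : ℝ} (h1 : 1 ≤ n)
    (x : Snow K) : f₀ x - 1 / n ≤ hn f₀ n x := by
  haveI : Nonempty (Snow K) := ⟨o⟩
  unfold hn
  refine le_ciInf fun y => ?_
  have h2 := mn_lower h1 (dist_nonneg (x := x.pt) (y := y.pt))
  have h3 := f₀.le_norm x y
  rw [snow_dist] at h3
  have h4 : ‖f₀‖ * dist x.pt y.pt ^ al ≤ 1 * dist x.pt y.pt ^ al := by
    have : 0 ≤ dist x.pt y.pt ^ al := Real.rpow_nonneg dist_nonneg _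
    gcongr
  have h5 := (abs_le.1 h3).2
  linarith

/-- the flat approximations -/
private noncomputable def gn [CompactSpace K] {o : Snow K} (f₀ : Lip0 (Snow K) o) (n : ℕ) : Lip0 (Snow K) o :=
  ⟨fun x => hn f₀ n x - hn f₀ n o, by simp, 1, fun x y => by
    have h := hn_abs f₀ (Nat.cast_nonneg n) x y
    have e : hn f₀ n x - hn f₀ n o - (hn f₀ n y - hn f₀ n o) = hn f₀ n x - hn f₀ n y := by ring
    rw [e, one_mul, snow_dist]
    exact h.trans (min_le_right _ _)⟩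

private theorem gn_apply [CompactSpace K] {o : Snow K} (f₀ : Lip0 (Snow K) o) (n : ℕ) (x : Snow K) :
    gn f₀ n x = hn f₀ n x - hn f₀ n o := rfl

private theorem gn_norm [CompactSpace K] {o : Snow K} (f₀ : Lip0 (Snow K) o) (n : ℕ) : ‖gn f₀ n‖ ≤ 1 := by
  refine Lip0.norm_le zero_le_one fun x y => ?_
  have h := hn_abs f₀ (Nat.cast_nonneg n) x y
  have e : hn f₀ n x - hn f₀ n o - (hn f₀ n y - hn f₀ n o) = hn f₀ n x - hn f₀ n y := by ring
  rw [gn_apply, gn_apply, e, one_mul, snow_dist]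
  exact h.trans (min_le_right _ _)

private theorem gn_flat [CompactSpace K] {o : Snow K} (f₀ : Lip0 (Snow K) o) (n : ℕ) : Flat (gn f₀ n) := by
  refine ⟨n, fun x y => ?_⟩
  have h := hn_abs f₀ (Nat.cast_nonneg n) x y
  have e : hn f₀ n x - hn f₀ n o - (hn f₀ n y - hn f₀ n o) = hn f₀ n x - hn f₀ n y := by ring
  rw [gn_apply, gn_apply, e]
  exact h.trans (min_le_left _ _)

private theorem gn_close [CompactSpace K] {o : Snow K} (f₀ : Lip0 (Snow K) o) (hf : ‖f₀‖ ≤ 1) {n : ℕ} (hn1 : 1 ≤ n)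
    (x : Snow K) : |gn f₀ n x - f₀ x| ≤ 2 / n := by
  have h1 : (1:ℝ) ≤ n := by exact_mod_cast hn1
  have a1 := hn_le f₀ (Nat.cast_nonneg n) x
  have a2 := hn_le f₀ (Nat.cast_nonneg n) o
  have b1 := hn_ge f₀ hf h1 x
  have b2 := hn_ge f₀ hf h1 o
  rw [Lip0.base] at a2 b2
  have e : (2:ℝ) / n = 1 / n + 1 / n := by ring
  have : (0:ℝ) ≤ 1 / n := by positivity
  rw [gn_apply, e, abs_le]
  constructor <;> linarith

private theorem gn_tendsto [CompactSpace K] {o : Snow K} (f₀ : Lip0 (Snow K) o) (hf : ‖f₀‖ ≤ 1)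
    (μ : Free (Snow K) o) : ∀ ε : ℝ, 0 < ε → ∃ N : ℕ, ∀ n, N ≤ n → |evL (gn f₀ n) μ - evL f₀ μ| ≤ ε := by
  refine Free.induction (p := fun μ => ∀ ε : ℝ, 0 < ε → ∃ N : ℕ, ∀ n, N ≤ n → |evL (gn f₀ n) μ - evL f₀ μ| ≤ ε)
    ?_ ?_ ?_ ?_ ?_ μ
  · intro ε hε
    refine ⟨0, fun n _ => ?_⟩
    rw [map_zero, map_zero, sub_zero, abs_zero]
    exact hε.le
  · intro x ε hε
    obtain ⟨N, hN⟩ := exists_nat_gt (2 / ε)
    refine ⟨max N 1, fun n hn => ?_⟩
    have h1 : 1 ≤ n := (le_max_right _ _).trans hn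
    have h2 : N ≤ n := (le_max_left _ _).trans hn
    have h3 := gn_close f₀ hf h1 x
    have e1 : evL (gn f₀ n) (dlt o x) = gn f₀ n x := by rw [evL_apply, dlt_coe, delta_apply]
    have e2 : evL f₀ (dlt o x) = f₀ x := by rw [evL_apply, dlt_coe, delta_apply]
    rw [e1, e2]
    refine h3.trans ?_
    have h4 : (2:ℝ) / ε < n := hN.trans_le (by exact_mod_cast h2)
    have h5 : (0:ℝ) < n := by exact_mod_cast h1
    rw [div_le_iff₀ h5]
    rw [div_lt_iff₀ hε] at h4
    linarith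
  · intro μ ν h1 h2 ε hε
    obtain ⟨N1, h1⟩ := h1 (ε / 2) (by positivity)
    obtain ⟨N2, h2⟩ := h2 (ε / 2) (by positivity)
    refine ⟨max N1 N2, fun n hn => ?_⟩
    have a := h1 n ((le_max_left _ _).trans hn)
    have b := h2 n ((le_max_right _ _).trans hn)
    rw [map_add, map_add]
    have e : evL (gn f₀ n) μ + evL (gn f₀ n) ν - (evL f₀ μ + evL f₀ ν) =
        (evL (gn f₀ n) μ - evL f₀ μ) + (evL (gn f₀ n) ν - evL f₀ ν) := by ring
    rw [e]
    exact (abs_add_le _ _).trans (by linarith)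
  · intro c μ h ε hε
    obtain ⟨N, h⟩ := h (ε / (|c| + 1)) (by positivity)
    refine ⟨N, fun n hn => ?_⟩
    have a := h n hn
    rw [map_smul, map_smul, smul_eq_mul, smul_eq_mul, ← mul_sub, abs_mul]
    calc |c| * |evL (gn f₀ n) μ - evL f₀ μ| ≤ (|c| + 1) * (ε / (|c| + 1)) := by
          have := abs_nonneg c
          gcongr
          linarith
      _ = ε := by
          have : |c| + 1 ≠ 0 := by positivity
          field_simp
  · rw [← isSeqClosed_iff_isClosed]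
    intro s μ hs hlim ε hε
    have h1 := (Metric.tendsto_atTop.1 hlim) (ε / 4) (by positivity)
    obtain ⟨k, hk⟩ := h1
    have hk := hk k le_rfl
    rw [dist_eq_norm] at hk
    obtain ⟨N, hN⟩ := hs k (ε / 2) (by positivity)
    refine ⟨N, fun n hn => ?_⟩
    have a := hN n hn
    have b : |evL (gn f₀ n) (s k - μ)| ≤ ε / 4 := by
      refine (abs_evL_le _ _).trans ?_
      have := gn_norm f₀ n
      calc ‖gn f₀ n‖ * ‖s k - μ‖ ≤ 1 * (ε / 4) := by gcongr
        _ = _ := one_mul _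
    have c : |evL f₀ (s k - μ)| ≤ ε / 4 := by
      refine (abs_evL_le _ _).trans ?_
      calc ‖f₀‖ * ‖s k - μ‖ ≤ 1 * (ε / 4) := by gcongr
        _ = _ := one_mul _
    rw [map_sub] at b c
    rw [abs_le] at a b c ⊢
    constructor <;> linarith [a.1, a.2, b.1, b.2, c.1, c.2]

theorem flat_norming [CompactSpace K] {o : Snow K} (μ : Free (Snow K) o) :
    ∃ f : Lip0 (Snow K) o, ‖f‖ ≤ 1 ∧ Flat f ∧ ‖μ‖ / 2 ≤ evL f μ := by
  by_cases hμ : μ = 0
  · refine ⟨0, by simp, ⟨0, fun x y => by simp⟩, ?_⟩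
    rw [hμ]
    simp
  have hpos : 0 < ‖μ‖ := norm_pos_iff.2 hμ
  have h1 : (3 / 4) * ‖μ‖ < ‖(μ : Lip0 (Snow K) o →L[ℝ] ℝ)‖ := by
    have : ‖(μ : Lip0 (Snow K) o →L[ℝ] ℝ)‖ = ‖μ‖ := rfl
    rw [this]
    linarith
  obtain ⟨f₁, hf1, hf2⟩ := ContinuousLinearMap.exists_lt_apply_of_lt_opNorm _ h1
  obtain ⟨f₀, hf0, hf3⟩ : ∃ f₀ : Lip0 (Snow K) o, ‖f₀‖ ≤ 1 ∧ (3 / 4) * ‖μ‖ < evL f₀ μ := by
    rcases le_total 0 ((μ : Lip0 (Snow K) o →L[ℝ] ℝ) f₁) with h | h
    · refine ⟨f₁, hf1.le, ?_⟩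
      rw [evL_apply]
      rwa [Real.norm_of_nonneg h] at hf2
    · refine ⟨-f₁, by rw [norm_neg]; exact hf1.le, ?_⟩
      rw [evL_apply, map_neg]
      rwa [Real.norm_of_nonpos h] at hf2
  obtain ⟨N, hN⟩ := gn_tendsto f₀ hf0 μ (‖μ‖ / 4) (by positivity)
  refine ⟨gn f₀ N, gn_norm f₀ N, gn_flat f₀ N, ?_⟩
  have := (abs_le.1 (hN N le_rfl)).1
  linarith

end Pool.Agent.Helper25.SC
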