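import Pool.Agent.Helper25.SC.L1

/-!
# Block SC-U: a criterion for the Schur property

Proof. It is enough to show `u n → 0` for weakly null `u` (replace `u` by `u - a`). Otherwise there are `c > 0` and
infinitely many `n` with `‖u n‖ ≥ c`; replace `u` by this subsequence (still weakly null). Choose `f n ∈ 𝓔` with
`f n (u n) ≥ c / 2`, apply `hsub` to `f` and get `φ`. The bound of `hsub` is inherited by all further
subsequences `φ ∘ ψ`: `|f (φ (ψ (k+1))) w - f (φ (ψ k)) w| ≤ ∑ over the block ψ k ≤ i < ψ (k + 1)`, so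
`∑_{k < N} ≤ ∑_{i < ψ N} ≤ C ‖w‖`. Choose `ψ` such that `|f (φ (ψ k)) (u (φ (ψ (k + 1))))| ≤ c / 8` (possible since `u`
is weakly null). Put `a n k = (f (φ (ψ (k + 1))) - f (φ (ψ k))) (u (φ (ψ n)))`. Then
`∑_k |a n k| ≤ C ‖u _‖` is summable, and for `|θ k| ≤ 1` the map `w ↦ ∑' k, θ k * (f _ w - f _ w)` is a bounded linear
functional on `W` (norm `≤ C`), hence `∑' k, θ k * a n k → 0`. By `l1_schur` `∑' k, |a n k| → 0`, but
`|a (k + 1) k| ≥ c / 2 - c / 8`.
-/

set_option autoImplicit false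
set_option maxSynthPendingDepth 3

namespace Pool.Agent.Helper25.SC

open Filter Topology

theorem schur_of_subseq {W : Type*} [NormedAddCommGroup W] [NormedSpace ℝ W]
    (𝓔 : Set (W →L[ℝ] ℝ)) (C : ℝ) (hnorm : ∀ w : W, ∃ f ∈ 𝓔, ‖w‖ / 2 ≤ f w)
    (hsub : ∀ f : ℕ → W →L[ℝ] ℝ, (∀ n, f n ∈ 𝓔) → ∃ φ : ℕ → ℕ, StrictMono φ ∧
      ∀ (w : W) (N : ℕ), ∑ k ∈ Finset.range N, |f (φ (k + 1)) w - f (φ k) w| ≤ C * ‖w‖) :
    Schur W := by
  intro u a hu
  by_contra hcon
  -- the weakly null sequence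
  have hv : ∀ f : W →L[ℝ] ℝ, Tendsto (fun n => f (u n - a)) atTop (𝓝 0) := by
    intro f
    have h1 := (hu f).sub_const (f a)
    rw [sub_self] at h1
    refine h1.congr fun n => ?_
    rw [map_sub]
  have hv2 : ¬ Tendsto (fun n => ‖u n - a‖) atTop (𝓝 0) := by
    intro h
    exact hcon (tendsto_iff_norm_sub_tendsto_zero.2 h)
  obtain ⟨c, hc, hfreq⟩ : ∃ c : ℝ, 0 < c ∧ ∃ᶠ n in atTop, c ≤ ‖u n - a‖ := by
    by_contra hno
    push Not at hno
    apply hv2
    rw [tendsto_order]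
    refine ⟨fun b hb => Eventually.of_forall fun n => lt_of_lt_of_le hb (norm_nonneg _),
      fun b hb => ?_⟩
    have h1 := hno b hb
    filter_upwards [h1] with n hn
    exact hn
  obtain ⟨φ0, hφ0, hφ1⟩ := extraction_of_frequently_atTop hfreq
  choose F hFE hFn using fun w : W => hnorm w
  obtain ⟨φ, hφ, hφC⟩ := hsub (fun n => F (u (φ0 n) - a)) (fun n => hFE _)
  -- functionals and vectors
  set g : ℕ → W →L[ℝ] ℝ := fun k => F (u (φ0 (φ k)) - a) with hg
  set x : ℕ → W := fun k => u (φ0 (φ k)) - a with hx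
  have hgx : ∀ k, c / 2 ≤ g k (x k) := by
    intro k
    have h1 := hφ1 (φ k)
    have h2 := hFn (u (φ0 (φ k)) - a)
    have h3 : g k (x k) = F (u (φ0 (φ k)) - a) (u (φ0 (φ k)) - a) := rfl
    rw [h3]
    linarith
  have hx0 : ∀ f : W →L[ℝ] ℝ, Tendsto (fun n => f (x n)) atTop (𝓝 0) := by
    intro f
    exact (hv f).comp (hφ0.tendsto_atTop.comp hφ.tendsto_atTop)
  have hgC : ∀ (w : W) (N : ℕ), ∑ k ∈ Finset.range N, |g (k + 1) w - g k w| ≤ C * ‖w‖ := hφC
  -- second subsequence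
  have hnx : ∀ n : ℕ, ∃ m, n < m ∧ |g n (x m)| ≤ c / 8 := by
    intro n
    have h1 := (hx0 (g n)).abs
    rw [abs_zero] at h1
    have h2 : ∀ᶠ m in atTop, |g n (x m)| < c / 8 := h1.eventually_lt_const (by positivity)
    obtain ⟨m, hm1, hm2⟩ := (h2.and (eventually_gt_atTop n)).exists
    exact ⟨m, hm2, hm1.le⟩
  choose nx hnx1 hnx2 using hnx
  set ψ : ℕ → ℕ := fun k => nx^[k] 0 with hψ
  have hψs : ∀ k, ψ (k + 1) = nx (ψ k) := fun k => Function.iterate_succ_apply' nx k 0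
  have hψm : StrictMono ψ := strictMono_nat_of_lt_succ fun k => by
    rw [hψs]
    exact hnx1 _
  have hGX : ∀ k, |g (ψ k) (x (ψ (k + 1)))| ≤ c / 8 := by
    intro k
    rw [hψs]
    exact hnx2 _
  have hGC : ∀ (w : W) (N : ℕ), ∑ k ∈ Finset.range N, |g (ψ (k + 1)) w - g (ψ k) w| ≤ C * ‖w‖ := by
    intro w N
    refine le_trans ?_ (hgC w (ψ N))
    induction N with
    | zero =>
      rw [Finset.range_zero, Finset.sum_empty]
      exact Finset.sum_nonneg fun _ _ => abs_nonneg _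
    | succ N ih =>
      rw [Finset.sum_range_succ]
      have h1 : ψ N ≤ ψ (N + 1) := (hψm (Nat.lt_succ_self N)).le
      rw [← Finset.sum_range_add_sum_Ico _ h1]
      refine add_le_add ih ?_
      have h2 := Finset.sum_Ico_sub (fun i => g i w) h1
      rw [← h2]
      exact Finset.abs_sum_le_sum_abs _ _
  have hsum : ∀ w : W, Summable (fun k => |g (ψ (k + 1)) w - g (ψ k) w|) := fun w =>
    summable_of_sum_range_le (fun _ => abs_nonneg _) (hGC w)
  have htsum : ∀ w : W, ∑' k, |g (ψ (k + 1)) w - g (ψ k) w| ≤ C * ‖w‖ := fun w =>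
    Real.tsum_le_of_sum_range_le (fun _ => abs_nonneg _) (hGC w)
  have hθs : ∀ θ : ℕ → ℝ, (∀ k, |θ k| ≤ 1) → ∀ w : W,
      Summable (fun k => θ k * (g (ψ (k + 1)) w - g (ψ k) w)) ∧
      |∑' k, θ k * (g (ψ (k + 1)) w - g (ψ k) w)| ≤ C * ‖w‖ := by
    intro θ hθ w
    have h1 : ∀ k, ‖θ k * (g (ψ (k + 1)) w - g (ψ k) w)‖ ≤ |g (ψ (k + 1)) w - g (ψ k) w| := by
      intro k
      rw [Real.norm_eq_abs, abs_mul]
      exact mul_le_of_le_one_left (abs_nonneg _) (hθ k)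
    have h2 : Summable (fun k => θ k * (g (ψ (k + 1)) w - g (ψ k) w)) :=
      Summable.of_norm_bounded (hsum w) h1
    refine ⟨h2, ?_⟩
    have h3 := tsum_of_norm_bounded (hsum w).hasSum h1
    rw [Real.norm_eq_abs] at h3
    exact h3.trans (htsum w)
  have key := l1_schur (fun n k => g (ψ (k + 1)) (x (ψ n)) - g (ψ k) (x (ψ n)))
    (fun n => hsum (x (ψ n))) ?_
  · have h1 : ∀ᶠ n in atTop,
        ∑' k, |g (ψ (k + 1)) (x (ψ n)) - g (ψ k) (x (ψ n))| < c / 4 :=
      key.eventually_lt_const (by positivity)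
    obtain ⟨n, hn1, hn2⟩ := (h1.and (eventually_ge_atTop 1)).exists
    obtain ⟨m, rfl⟩ : ∃ m, n = m + 1 := ⟨n - 1, by omega⟩
    have h2 : |g (ψ (m + 1)) (x (ψ (m + 1))) - g (ψ m) (x (ψ (m + 1)))| ≤
        ∑' k, |g (ψ (k + 1)) (x (ψ (m + 1))) - g (ψ k) (x (ψ (m + 1)))| :=
      (hsum (x (ψ (m + 1)))).le_tsum m (fun _ _ => abs_nonneg _)
    have h3 := le_abs_self (g (ψ (m + 1)) (x (ψ (m + 1))) - g (ψ m) (x (ψ (m + 1))))
    have h4 := hgx (ψ (m + 1))
    have h5 := (abs_le.1 (hGX m)).2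
    linarith
  · intro θ hθ
    let Φ : W →ₗ[ℝ] ℝ :=
      { toFun := fun w => ∑' k, θ k * (g (ψ (k + 1)) w - g (ψ k) w)
        map_add' := by
          intro w w'
          rw [← (hθs θ hθ w).1.tsum_add (hθs θ hθ w').1]
          refine tsum_congr fun k => ?_
          rw [map_add, map_add]
          ring
        map_smul' := by
          intro r w
          rw [RingHom.id_apply, smul_eq_mul, ← tsum_mul_left]
          refine tsum_congr fun k => ?_
          rw [map_smul, map_smul, smul_eq_mul, smul_eq_mul]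
          ring }
    let Ψ : W →L[ℝ] ℝ := Φ.mkContinuous C (fun w => (hθs θ hθ w).2)
    have h1 := (hx0 Ψ).comp hψm.tendsto_atTop
    exact h1

end Pool.Agent.Helper25.SC
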