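import Pool.Agent.Helper25.SC.FS1
import Pool.Agent.Helper25.SC.LemU
import Pool.Agent.Helper25.SC.LemV

/-!
# Block SC-FS2: `F(Snow K)` is Schur for compact `K`

`flat_subseq`: the `f n` are uniformly bounded and equicontinuous on the compact space `Snow K` (Hölder for `K`), so a
subsequence converges uniformly (Arzelà-Ascoli: `BoundedContinuousFunction.arzela_ascoli₂` or a diagonal
argument over a countable dense set) to some `g : Snow K → ℝ`. Apply `exists_subseq` with `Ω = Snow K × Snow K`,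
`O m = {(x, y) | 1 / (m + 1) ≤ dist x y}`, and the functions `F_n (x, y) = (f n x - f n y) / dist x y` (value `0` if
`x = y`, since division by zero gives `0`): `|F_n| ≤ 1`; `hvan`: `f n` is flat, `|F_n (x, y)| ≤ L dist x.pt y.pt / (dist x.pt y.pt)^al`
`= L (dist x.pt y.pt)^(1 - al) = L (dist x y)^((1 - al)/al)`, small for `dist x y < 1/(m+1)`; `hconv`: on `O m`
`|F_n - G| ≤ 2 (m + 1) sup |f n - g|`. Result: `∑_{k<N} |(f_(φ(k+1)) - f_(φ k)) x - (same) y| ≤ 12 dist x y`, hence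
`‖∑_{k<N} s_k (f_(φ(k+1)) - f_(φ k))‖ ≤ 12` for all signs `s_k`, hence the bound of `flat_subseq` (choose the signs of
`evL _ μ`). `schur_free_snow`: `schur_of_subseq` with `𝓔 = {evL f : ‖f‖ ≤ 1, Flat f}` and `flat_norming`.
-/

set_option autoImplicit false
set_option maxSynthPendingDepth 3

namespace Pool.Agent.Helper25.SC

open Filter Topology

variable {K : Type*} [MetricSpace K] [CompactSpace K]

/-- A uniformly bounded sequence in `Lip0` of a compact space has a uniformly convergent subsequence. -/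
theorem unif_subseq62 {X : Type*} [MetricSpace X] [CompactSpace X] {o : X} (f : ℕ → Lip0 X o)
    (hf : ∀ n, ‖f n‖ ≤ 1) : ∃ ψ : ℕ → ℕ, StrictMono ψ ∧ ∃ g : X → ℝ, ∀ ε : ℝ, 0 < ε →
      ∃ n₀, ∀ n, n₀ ≤ n → ∀ x, |f (ψ n) x - g x| ≤ ε := by
  have hlip : ∀ n (x y : X), |f n x - f n y| ≤ dist x y := by
    intro n x y
    calc |f n x - f n y| ≤ ‖f n‖ * dist x y := (f n).le_norm x y
      _ ≤ 1 * dist x y := mul_le_mul_of_nonneg_right (hf n) dist_nonneg
      _ = dist x y := one_mul _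
  have hcont : ∀ n, Continuous (fun x => f n x) := by
    intro n
    have : LipschitzWith 1 (fun x => f n x) := LipschitzWith.of_dist_le_mul fun x y => by
      rw [Real.dist_eq]
      simpa using hlip n x y
    exact this.continuous
  obtain ⟨D, hD⟩ := (isCompact_univ (X := X)).exists_bound_of_continuousOn
    (f := fun x => dist x o) (by fun_prop)
  have hbd : ∀ n x, f n x ∈ Metric.closedBall (0 : ℝ) D := by
    intro n x
    rw [mem_closedBall_zero_iff, Real.norm_eq_abs]
    have h1 := hlip n x o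
    rw [Lip0.base, sub_zero] at h1
    have h2 := hD x (Set.mem_univ x)
    rw [Real.norm_eq_abs] at h2
    exact h1.trans ((le_abs_self _).trans h2)
  let F : ℕ → BoundedContinuousFunction X ℝ := fun n =>
    BoundedContinuousFunction.mkOfCompact ⟨fun x => f n x, hcont n⟩
  have hF : ∀ n x, F n x = f n x := fun n x => rfl
  have hcomp : IsCompact (closure (Set.range F)) := by
    refine BoundedContinuousFunction.arzela_ascoli (Metric.closedBall (0 : ℝ) D)
      (isCompact_closedBall 0 D) (Set.range F) ?_ ?_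
    · rintro _ x ⟨n, rfl⟩
      exact hbd n x
    · refine Metric.equicontinuous_of_continuity_modulus (fun t => t) tendsto_id _ ?_
      rintro x y ⟨_, n, rfl⟩
      rw [Real.dist_eq]
      exact hlip n x y
  obtain ⟨G, -, ψ, hψ, hlim⟩ := hcomp.tendsto_subseq (x := F)
    (fun n => subset_closure ⟨n, rfl⟩)
  refine ⟨ψ, hψ, fun x => G x, fun ε hε => ?_⟩
  rw [Metric.tendsto_atTop] at hlim
  obtain ⟨n₀, hn₀⟩ := hlim ε hε
  refine ⟨n₀, fun n hn x => ?_⟩
  have h1 := hn₀ n hn
  have h2 := BoundedContinuousFunction.dist_coe_le_dist (f := F (ψ n)) (g := G) x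
  rw [Real.dist_eq, hF] at h2
  exact h2.trans h1.le

omit [CompactSpace K] in
/-- If `f` is flat then the difference quotients are small for small distances. -/
theorem flat_small62 {o : Snow K} (f : Lip0 (Snow K) o) (hf : Flat f) (ε : ℝ) (hε : 0 < ε) :
    ∃ m : ℕ, ∀ x y : Snow K, dist x y < 1 / ((m : ℝ) + 1) → |(f x - f y) / dist x y| ≤ ε := by
  obtain ⟨L, hL⟩ := hf
  set η : ℝ := ε / (|L| + 1) with hη
  have hη0 : 0 < η := by positivity
  obtain ⟨m, hm⟩ := exists_nat_one_div_lt (show (0 : ℝ) < η ^ 9 by positivity)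
  refine ⟨m, fun x y hxy => ?_⟩
  rcases eq_or_ne x y with rfl | hne
  · simp [hε.le]
  have hd : 0 < dist x y := dist_pos.2 hne
  have hρ : 0 < dist x.pt y.pt := by
    rcases (dist_nonneg (x := x.pt) (y := y.pt)).lt_or_eq with h | h
    · exact h
    · exfalso
      rw [snow_dist, ← h, Real.zero_rpow al_pos.ne'] at hd
      exact lt_irrefl _ hd
  set ρ : ℝ := dist x.pt y.pt with hρd
  set t : ℝ := ρ ^ ((1 : ℝ) / 10) with ht
  have ht0 : 0 < t := Real.rpow_pos_of_pos hρ _
  have e1 : dist x y = t ^ 9 := by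
    rw [snow_dist, ← hρd, ht, ← Real.rpow_natCast, ← Real.rpow_mul hρ.le, al]
    norm_num
  have e2 : ρ = t ^ 10 := by
    rw [ht, ← Real.rpow_natCast, ← Real.rpow_mul hρ.le]
    norm_num
  have e3 : t < η := by
    have h1 : t ^ 9 < η ^ 9 := by
      rw [← e1]
      exact hxy.trans hm
    exact lt_of_pow_lt_pow_left₀ 9 hη0.le h1
  have e4 : |f x - f y| ≤ |L| * t ^ 10 := by
    rw [← e2]
    exact (hL x y).trans (mul_le_mul_of_nonneg_right (le_abs_self L) hρ.le)
  rw [abs_div, abs_of_pos hd, div_le_iff₀ hd, e1]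
  calc |f x - f y| ≤ |L| * t ^ 10 := e4
    _ = (|L| * t) * t ^ 9 := by ring
    _ ≤ ε * t ^ 9 := by
        refine mul_le_mul_of_nonneg_right ?_ (by positivity)
        calc |L| * t ≤ (|L| + 1) * η := by
              refine mul_le_mul (by linarith) e3.le ht0.le (by positivity)
          _ = ε := by
              rw [hη]
              field_simp

theorem flat_subseq {o : Snow K} (f : ℕ → Lip0 (Snow K) o) (hf : ∀ n, ‖f n‖ ≤ 1)
    (hfl : ∀ n, Flat (f n)) : ∃ φ : ℕ → ℕ, StrictMono φ ∧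
      ∀ (μ : Free (Snow K) o) (N : ℕ),
        ∑ k ∈ Finset.range N, |evL (f (φ (k + 1))) μ - evL (f (φ k)) μ| ≤ 12 * ‖μ‖ := by
  obtain ⟨ψ, hψ, g, hg⟩ := unif_subseq62 f hf
  obtain ⟨χ, hχ, hbound⟩ := exists_subseq
    (Ω := Snow K × Snow K) (fun m => {p | 1 / ((m : ℝ) + 1) ≤ dist p.1 p.2})
    (by
      intro m m' hmm p hp
      have hp' : 1 / ((m : ℝ) + 1) ≤ dist p.1 p.2 := hp
      show 1 / ((m' : ℝ) + 1) ≤ dist p.1 p.2
      refine le_trans ?_ hp'
      have : (m : ℝ) ≤ m' := by exact_mod_cast hmm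
      exact one_div_le_one_div_of_le (by positivity) (by linarith))
    (fun n p => (f (ψ n) p.1 - f (ψ n) p.2) / dist p.1 p.2)
    (fun p => (g p.1 - g p.2) / dist p.1 p.2)
    (by
      rintro n ⟨x, y⟩
      rcases eq_or_ne x y with rfl | hne
      · simp
      have hd : 0 < dist x y := dist_pos.2 hne
      simp only
      rw [abs_div, abs_of_pos hd, div_le_iff₀ hd]
      exact ((f (ψ n)).le_norm x y).trans (mul_le_mul_of_nonneg_right (hf _) dist_nonneg))
    (by
      intro n ε hε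
      obtain ⟨m, hm⟩ := flat_small62 (f (ψ n)) (hfl _) ε hε
      refine ⟨m, fun p hp => ?_⟩
      have hp' : dist p.1 p.2 < 1 / ((m : ℝ) + 1) := not_le.mp hp
      exact hm p.1 p.2 hp')
    (by
      intro m ε hε
      obtain ⟨n₀, hn₀⟩ := hg (ε / (2 * ((m : ℝ) + 1))) (by positivity)
      refine ⟨n₀, fun n hn p hp => ?_⟩
      have hp' : 1 / ((m : ℝ) + 1) ≤ dist p.1 p.2 := hp
      have hm : (0 : ℝ) < (m : ℝ) + 1 := by positivity
      have hd : 0 < dist p.1 p.2 := lt_of_lt_of_le (by positivity) hp'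
      have h1 := hn₀ n hn p.1
      have h2 := hn₀ n hn p.2
      show |(f (ψ n) p.1 - f (ψ n) p.2) / dist p.1 p.2 - (g p.1 - g p.2) / dist p.1 p.2| ≤ ε
      rw [← sub_div, abs_div, abs_of_pos hd, div_le_iff₀ hd]
      have h3 : ε / ((m : ℝ) + 1) ≤ ε * dist p.1 p.2 := by
        calc ε / ((m : ℝ) + 1) = ε * (1 / ((m : ℝ) + 1)) := by ring
          _ ≤ ε * dist p.1 p.2 := mul_le_mul_of_nonneg_left hp' hε.le
      have h4 : ε / (2 * ((m : ℝ) + 1)) + ε / (2 * ((m : ℝ) + 1)) = ε / ((m : ℝ) + 1) := by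
        field_simp
        ring
      have h5 : |f (ψ n) p.1 - f (ψ n) p.2 - (g p.1 - g p.2)| ≤
          |f (ψ n) p.1 - g p.1| + |f (ψ n) p.2 - g p.2| := by
        have : f (ψ n) p.1 - f (ψ n) p.2 - (g p.1 - g p.2) =
            (f (ψ n) p.1 - g p.1) - (f (ψ n) p.2 - g p.2) := by ring
        rw [this]
        exact abs_sub _ _
      linarith)
  refine ⟨ψ ∘ χ, hψ.comp hχ, fun μ N => ?_⟩
  -- the signs
  let s : ℕ → ℝ := fun k => sg62 (evL (f ((ψ ∘ χ) (k + 1))) μ - evL (f ((ψ ∘ χ) k)) μ)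
  have hs : ∀ k, |s k| = 1 := fun k => abs_sg62 _
  let h : Lip0 (Snow K) o :=
    ∑ k ∈ Finset.range N, s k • (f ((ψ ∘ χ) (k + 1)) - f ((ψ ∘ χ) k))
  have happ : ∀ x, h x = ∑ k ∈ Finset.range N, s k * (f ((ψ ∘ χ) (k + 1)) x - f ((ψ ∘ χ) k) x) := by
    intro x
    have h1 : h x = delta o x h := rfl
    rw [h1, map_sum]
    refine Finset.sum_congr rfl fun k _ => ?_
    rw [map_smul, map_sub, smul_eq_mul, delta_apply, delta_apply]
  have hnorm : ‖h‖ ≤ 12 := by
    refine Lip0.norm_le (by norm_num) fun x y => ?_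
    rcases eq_or_ne x y with rfl | hne
    · simp
    have hd : 0 < dist x y := dist_pos.2 hne
    have h1 := hbound (x, y) N
    simp only at h1
    have h2 : |h x - h y| ≤ ∑ k ∈ Finset.range N,
        |(f (ψ (χ (k + 1))) x - f (ψ (χ (k + 1))) y) / dist x y -
          (f (ψ (χ k)) x - f (ψ (χ k)) y) / dist x y| * dist x y := by
      rw [happ, happ, ← Finset.sum_sub_distrib]
      refine (Finset.abs_sum_le_sum_abs _ _).trans (Finset.sum_le_sum fun k _ => ?_)
      rw [← mul_sub, abs_mul, hs, one_mul, ← sub_div, abs_div, abs_of_pos hd,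
        div_mul_cancel₀ _ hd.ne']
      simp only [Function.comp_apply]
      refine le_of_eq (congrArg _ ?_)
      ring
    rw [← Finset.sum_mul] at h2
    exact h2.trans (mul_le_mul_of_nonneg_right h1 hd.le)
  have hev : evL h μ = ∑ k ∈ Finset.range N,
      |evL (f ((ψ ∘ χ) (k + 1))) μ - evL (f ((ψ ∘ χ) k)) μ| := by
    rw [evL_apply]
    show (μ : Lip0 (Snow K) o →L[ℝ] ℝ) (∑ k ∈ Finset.range N,
      s k • (f ((ψ ∘ χ) (k + 1)) - f ((ψ ∘ χ) k))) = _
    rw [map_sum]
    refine Finset.sum_congr rfl fun k _ => ?_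
    rw [map_smul, map_sub, smul_eq_mul, ← evL_apply, ← evL_apply]
    exact sg62_mul _
  rw [← hev]
  exact (le_abs_self _).trans ((abs_evL_le h μ).trans
    (mul_le_mul_of_nonneg_right hnorm (norm_nonneg μ)))

theorem schur_free_snow (o : Snow K) : Schur (Free (Snow K) o) := by
  refine schur_of_subseq {e | ∃ f : Lip0 (Snow K) o, ‖f‖ ≤ 1 ∧ Flat f ∧ evL f = e} 12 ?_ ?_
  · intro μ
    obtain ⟨f, h1, h2, h3⟩ := flat_norming μ
    exact ⟨evL f, ⟨f, h1, h2, rfl⟩, h3⟩
  · intro e he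
    choose f hf1 hf2 hf3 using he
    obtain ⟨φ, hφ, hb⟩ := flat_subseq f hf1 hf2
    refine ⟨φ, hφ, fun μ N => ?_⟩
    simp only [← hf3]
    exact hb μ N

end Pool.Agent.Helper25.SC
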