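import Pool.Agent.Helper25.SC.Defs

/-!
# Block SC-HAD: Hadamard matrices

`Gk m = Fin m → Bool`; `H i g = ∏ b, (if i b && g b then -1 else 1)`.
* `H_row`: `∑ g, H i g * H j g = 0` for `i ≠ j`: `H i g * H j g = ∏ b, (factor b)`, and the sum over `g` of the product is
  `∏ b, ∑ c : Bool, (...)` (`Finset.prod_univ_sum` / `Fintype.piFinset_univ`: `∏ b, ∑ c, f b c = ∑ g, ∏ b, f b (g b)`),
  where the factor for a `b` with `i b ≠ j b` is `1 + (-1) = 0`. `H_col` by symmetry (`H i g = H g i`).
-/

set_option autoImplicit false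
set_option maxSynthPendingDepth 3

namespace Pool.Agent.Helper25.SC

/-- The index set of the Hadamard matrix of order `2 ^ m`. -/
abbrev Gk (m : ℕ) := Fin m → Bool

/-- The Hadamard matrix. -/
def H {m : ℕ} (i g : Gk m) : ℝ := ∏ b, (if i b && g b then (-1 : ℝ) else 1)

/-- A sign. -/
def sg (c : Bool) : ℝ := if c then 1 else -1

theorem sg_mul_self (c : Bool) : sg c * sg c = 1 := by cases c <;> simp [sg]

theorem abs_sg (c : Bool) : |sg c| = 1 := by cases c <;> simp [sg]

theorem H_symm {m : ℕ} (i g : Gk m) : H i g = H g i := by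
  unfold H
  exact Finset.prod_congr rfl fun b _ => by rw [Bool.and_comm]

theorem H_mul_self {m : ℕ} (i g : Gk m) : H i g * H i g = 1 := by
  unfold H
  rw [← Finset.prod_mul_distrib]
  refine Finset.prod_eq_one fun b _ => ?_
  split_ifs <;> norm_num

theorem abs_H {m : ℕ} (i g : Gk m) : |H i g| = 1 := by
  unfold H
  rw [Finset.abs_prod]
  refine Finset.prod_eq_one fun b _ => ?_
  split_ifs <;> simp

theorem H_row {m : ℕ} {i j : Gk m} (hij : i ≠ j) : ∑ g, H i g * H j g = 0 := by
  obtain ⟨b, hb⟩ : ∃ b, i b ≠ j b := Function.ne_iff.1 hij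
  have h1 : ∀ g : Gk m, H i g * H j g = ∏ b, ((if i b && g b then (-1 : ℝ) else 1) *
      (if j b && g b then (-1 : ℝ) else 1)) := by
    intro g
    rw [H, H, Finset.prod_mul_distrib]
  simp only [h1]
  have h2 := (Finset.prod_univ_sum (fun _ : Fin m => (Finset.univ : Finset Bool))
    (fun b c => ((if i b && c then (-1 : ℝ) else 1) * (if j b && c then (-1 : ℝ) else 1))))
  rw [Fintype.piFinset_univ] at h2
  rw [← h2]
  refine Finset.prod_eq_zero (Finset.mem_univ b) ?_
  rw [Fintype.sum_bool]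
  cases hi : i b <;> cases hj : j b <;> simp_all

theorem H_col {m : ℕ} {g h : Gk m} (hgh : g ≠ h) : ∑ i, H i g * H i h = 0 := by
  rw [← H_row hgh]
  exact Finset.sum_congr rfl fun i _ => by rw [H_symm i g, H_symm i h]

end Pool.Agent.Helper25.SC
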