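import Pool.Agent.Helper25.SC.Sgn

/-!
# Block SC-HAL: balanced disjoint sets of rows

`exists_half`: for `j : Gk (k + 1)`, `c : Bool` let `q c j = Fin.cons c j : Gk (k + 2)` (a bijection
`Bool × Gk (k + 1) → Gk (k + 2)`). Apply `signs_pow` with `κ = Gk (k + 1)`, `ι = Gk (k+2) × Gk (k+2)` (card `2^(2k+4)`) and
`a (g, h) j = H (q true j) g * H (q true j) h - H (q false j) g * H (q false j) h`; get `s : Gk (k + 1) → Bool` and put
`b j = q (s j) j`, `c j = q (!s j) j`. Then `∑_j sg (s j) * a (g, h) j = ∑_j H (b j) g * H (b j) h - ∑_j H (c j) g * H (c j) h =: D1`, and for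
`g ≠ h` the sum of both sums is `∑_i H i g * H i h = 0` (`H_col`), so both are `± D1 / 2`, of absolute value `≤ rk k / 2`.
Apply `signs_pow` again with `κ = Gk k`, the same `ι` and
`a' (g, h) j = H (c (Fin.cons true j)) g * H (c (Fin.cons true j)) h - (the same with false)`; get `s' : Gk k → Bool` and put
`a j = c (Fin.cons (s' j) j)`. The sum over `a` is `(∑ over c + D2) / 2` with `|D2| ≤ rk k`: absolute value `≤ rk k`.
`b j ≠ a j'`: the tail of `b j` is `j` and its head is `s j`, the head of `c j` is `!s j`.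
`exists_signs`: `signs_pow` with `κ = Gk (k + 1)`, `ι = Gk (k + 2) × Gk (k + 3)`.
-/

set_option autoImplicit false
set_option maxSynthPendingDepth 3

namespace Pool.Agent.Helper25.SC

/-- The vector with head `c` and tail `j`. -/
def qc {n : ℕ} (c : Bool) (j : Gk n) : Gk (n + 1) := Fin.cons (α := fun _ => Bool) c j

theorem qc_zero {n : ℕ} (c : Bool) (j : Gk n) : qc c j 0 = c := by
  simp [qc]

theorem qc_succ {n : ℕ} (c : Bool) (j : Gk n) (b : Fin n) : qc c j b.succ = j b := by
  simp [qc]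

theorem qc_inj {n : ℕ} {c c' : Bool} {j j' : Gk n} (h : qc c j = qc c' j') : c = c' ∧ j = j' := by
  refine ⟨?_, funext fun b => ?_⟩
  · have := congrFun h 0
    rwa [qc_zero, qc_zero] at this
  · have := congrFun h b.succ
    rwa [qc_succ, qc_succ] at this

theorem sum_qc {n : ℕ} (f : Gk (n + 1) → ℝ) :
    ∑ i, f i = ∑ j : Gk n, (f (qc true j) + f (qc false j)) := by
  rw [← (Fin.consEquiv (fun _ => Bool)).sum_comp, Fintype.sum_prod_type, Fintype.sum_bool,
    ← Finset.sum_add_distrib]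
  rfl

theorem half_aux {n : ℕ} (f : Gk (n + 1) → ℝ) (s : Gk n → Bool) :
    ∑ j, f (qc (s j) j) = (∑ i, f i + ∑ j, sg (s j) * (f (qc true j) - f (qc false j))) / 2 ∧
    ∑ j, f (qc (!s j) j) = (∑ i, f i - ∑ j, sg (s j) * (f (qc true j) - f (qc false j))) / 2 := by
  rw [sum_qc f]
  constructor
  · rw [← Finset.sum_add_distrib, Finset.sum_div]
    refine Finset.sum_congr rfl fun j _ => ?_
    cases s j
    · simp only [sg]
      norm_num
      ring
    · simp only [sg]
      norm_num
  · rw [← Finset.sum_sub_distrib, Finset.sum_div]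
    refine Finset.sum_congr rfl fun j _ => ?_
    cases s j
    · simp only [sg]
      norm_num
      ring
    · simp only [sg]
      norm_num

theorem abs_HH_sub_le {m : ℕ} (i j g h : Gk m) : |H i g * H i h - H j g * H j h| ≤ 2 := by
  refine (abs_sub _ _).trans ?_
  rw [abs_mul, abs_mul, abs_H, abs_H, abs_H, abs_H]
  norm_num

theorem rk_nonneg (k : ℕ) : 0 ≤ rk k := by
  unfold rk
  positivity

theorem exists_half (k : ℕ) : ∃ (b : Gk (k + 1) → Gk (k + 2)) (a : Gk k → Gk (k + 2)),
    Function.Injective b ∧ Function.Injective a ∧ (∀ i j, b i ≠ a j) ∧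
    (∀ g h : Gk (k + 2), g ≠ h → |∑ i, H (b i) g * H (b i) h| ≤ rk k) ∧
    (∀ g h : Gk (k + 2), g ≠ h → |∑ i, H (a i) g * H (a i) h| ≤ rk k) := by
  have hcard : Fintype.card (Gk (k + 2) × Gk (k + 2)) ≤ 2 ^ (2 * k + 5) := by
    rw [Fintype.card_prod, Fintype.card_fun, Fintype.card_bool, Fintype.card_fin, ← pow_add]
    exact Nat.pow_le_pow_right (by norm_num) (by omega)
  have hcard1 : Fintype.card (Gk (k + 1)) ≤ 2 ^ (k + 1) := by
    rw [Fintype.card_fun, Fintype.card_bool, Fintype.card_fin]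
  have hcard2 : Fintype.card (Gk k) ≤ 2 ^ (k + 1) := by
    rw [Fintype.card_fun, Fintype.card_bool, Fintype.card_fin]
    exact Nat.pow_le_pow_right (by norm_num) (by omega)
  obtain ⟨s, hs⟩ := signs_pow (ι := Gk (k + 2) × Gk (k + 2)) (κ := Gk (k + 1)) k
    (fun x j => H (qc true j) x.1 * H (qc true j) x.2 - H (qc false j) x.1 * H (qc false j) x.2)
    (fun x j => abs_HH_sub_le _ _ _ _) hcard hcard1
  let c : Gk (k + 1) → Gk (k + 2) := fun j => qc (!s j) j
  obtain ⟨s', hs'⟩ := signs_pow (ι := Gk (k + 2) × Gk (k + 2)) (κ := Gk k) k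
    (fun x j => H (c (qc true j)) x.1 * H (c (qc true j)) x.2 -
      H (c (qc false j)) x.1 * H (c (qc false j)) x.2)
    (fun x j => abs_HH_sub_le _ _ _ _) hcard hcard2
  refine ⟨fun j => qc (s j) j, fun j => c (qc (s' j) j), ?_, ?_, ?_, ?_, ?_⟩
  · intro j j' h
    exact (qc_inj h).2
  · intro j j' h
    exact (qc_inj (qc_inj h).2).2
  · intro i j h
    have h1 := qc_inj h
    have h2 : i = qc (s' j) j := h1.2
    have h3 : s i = !s (qc (s' j) j) := h1.1
    rw [← h2] at h3
    cases hsi : s i <;> simp [hsi] at h3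
  · intro g h hgh
    have h1 := (half_aux (fun i => H i g * H i h) s).1
    rw [H_col hgh, zero_add] at h1
    rw [h1, abs_div, abs_two]
    have h2 := hs (g, h)
    have h3 := rk_nonneg k
    simp only at h2
    linarith
  · intro g h hgh
    have h1 := (half_aux (fun i => H i g * H i h) s).2
    rw [H_col hgh, zero_sub] at h1
    have h2 := hs (g, h)
    have h4 := (half_aux (fun i => H (c i) g * H (c i) h) s').1
    have h5 := hs' (g, h)
    simp only at h2 h5 h1 h4
    have h6 : ∑ i, H (c i) g * H (c i) h = -(∑ j, sg (s j) *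
        (H (qc true j) g * H (qc true j) h - H (qc false j) g * H (qc false j) h)) / 2 := h1
    rw [h4, h6, abs_div, abs_two]
    rw [abs_le] at h2 h5
    rw [div_le_iff₀ (by norm_num), abs_le]
    constructor <;> linarith [h2.1, h2.2, h5.1, h5.2]

theorem exists_signs (k : ℕ) (b : Gk (k + 1) → Gk (k + 2)) (a : Gk (k + 1) → Gk (k + 3)) :
    ∃ ε : Gk (k + 1) → Bool, ∀ (g : Gk (k + 2)) (h : Gk (k + 3)),
      |∑ j, sg (ε j) * (H (b j) g * H (a j) h)| ≤ rk k := by
  have hcard : Fintype.card (Gk (k + 2) × Gk (k + 3)) ≤ 2 ^ (2 * k + 5) := by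
    rw [Fintype.card_prod, Fintype.card_fun, Fintype.card_fun, Fintype.card_bool, Fintype.card_fin,
      Fintype.card_fin, ← pow_add]
    exact Nat.pow_le_pow_right (by norm_num) (by omega)
  have hcard1 : Fintype.card (Gk (k + 1)) ≤ 2 ^ (k + 1) := by
    rw [Fintype.card_fun, Fintype.card_bool, Fintype.card_fin]
  obtain ⟨ε, hε⟩ := signs_pow (ι := Gk (k + 2) × Gk (k + 3)) (κ := Gk (k + 1)) k
    (fun x j => H (b j) x.1 * H (a j) x.2) (fun x j => by
      rw [abs_mul, abs_H, abs_H]
      norm_num) hcard hcard1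
  exact ⟨ε, fun g h => hε (g, h)⟩

end Pool.Agent.Helper25.SC
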