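import Pool.Agent.Helper25.SC.Defs

/-!
# Block SC-L1: the Schur property of `ℓ₁`, in matrix form (gliding hump)

Proof. Taking `θ = ± e_k` the columns tend to `0`. Suppose `∑' k, |a n k| ≥ c > 0` for infinitely many `n`.
Choose inductively `n_1 < n_2 < ...` among these and `0 = K_0 < K_1 < ...` with
`∑_{k < K_(j-1)} |a (n_j) k| ≤ c / 8` (columns tend to `0`) and `∑_{k ≥ K_j} |a (n_j) k| ≤ c / 8`.
Let `θ k = sign (a (n_j) k)` for `K_(j-1) ≤ k < K_j`. Then `∑' k, θ k * a (n_j) k ≥ c - 4 c / 8 = c / 2` for all `j`,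
a contradiction.
-/

set_option autoImplicit false
set_option maxSynthPendingDepth 3

namespace Pool.Agent.Helper25.SC

open Filter Topology

/-- the sign `± 1` of a real number -/
noncomputable def sg62 (x : ℝ) : ℝ := if 0 ≤ x then 1 else -1

theorem abs_sg62 (x : ℝ) : |sg62 x| = 1 := by
  unfold sg62
  split_ifs <;> simp

theorem sg62_mul (x : ℝ) : sg62 x * x = |x| := by
  unfold sg62
  split_ifs with h
  · rw [one_mul, abs_of_nonneg h]
  · rw [abs_of_neg (not_le.mp h)]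
    ring

/-- estimate of one row -/
theorem row62 (b θ : ℕ → ℝ) (hb : Summable (fun k => |b k|)) (hθ : ∀ k, |θ k| ≤ 1) (c : ℝ)
    (K K' : ℕ) (hK : K ≤ K') (h0 : c ≤ ∑' k, |b k|) (h1 : ∑ k ∈ Finset.range K, |b k| ≤ c / 8)
    (h2 : (∑' k, |b k|) - ∑ k ∈ Finset.range K', |b k| ≤ c / 8)
    (h3 : ∀ k, K ≤ k → k < K' → θ k * b k = |b k|) : c / 2 ≤ ∑' k, θ k * b k := by
  have hle : ∀ k, |θ k * b k| ≤ |b k| := by
    intro k
    rw [abs_mul]
    calc |θ k| * |b k| ≤ 1 * |b k| := mul_le_mul_of_nonneg_right (hθ k) (abs_nonneg _)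
      _ = |b k| := one_mul _
  have hsa : Summable (fun k => |θ k * b k|) :=
    Summable.of_nonneg_of_le (fun k => abs_nonneg _) hle hb
  have hs : Summable (fun k => θ k * b k) := hsa.of_abs
  have e1 := hs.sum_add_tsum_nat_add K'
  have e2 := hb.sum_add_tsum_nat_add K'
  have hsb' : Summable (fun k => |b (k + K')|) := (summable_nat_add_iff K').mpr hb
  have e3 : |∑' k, θ (k + K') * b (k + K')| ≤ ∑' k, |b (k + K')| := by
    have hs' : Summable (fun k => |θ (k + K') * b (k + K')|) :=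
      Summable.of_nonneg_of_le (fun k => abs_nonneg _) (fun k => hle (k + K')) hsb'
    have t1 : |∑' k, θ (k + K') * b (k + K')| ≤ ∑' k, |θ (k + K') * b (k + K')| := by
      have := norm_tsum_le_tsum_norm (f := fun k => θ (k + K') * b (k + K')) (by simpa using hs')
      simpa [Real.norm_eq_abs] using this
    exact t1.trans (hs'.tsum_le_tsum (fun k => hle (k + K')) hsb')
  have e4 : ∑ k ∈ Finset.range K', θ k * b k =
      ∑ k ∈ Finset.range K, θ k * b k + ∑ k ∈ Finset.Ico K K', θ k * b k := by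
    rw [Finset.range_eq_Ico, Finset.range_eq_Ico, Finset.sum_Ico_consecutive _ (Nat.zero_le K) hK]
  have e5 : ∑ k ∈ Finset.range K', |b k| =
      ∑ k ∈ Finset.range K, |b k| + ∑ k ∈ Finset.Ico K K', |b k| := by
    rw [Finset.range_eq_Ico, Finset.range_eq_Ico, Finset.sum_Ico_consecutive _ (Nat.zero_le K) hK]
  have e6 : ∑ k ∈ Finset.Ico K K', θ k * b k = ∑ k ∈ Finset.Ico K K', |b k| := by
    refine Finset.sum_congr rfl fun k hk => ?_
    rw [Finset.mem_Ico] at hk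
    exact h3 k hk.1 hk.2
  have e7 : |∑ k ∈ Finset.range K, θ k * b k| ≤ ∑ k ∈ Finset.range K, |b k| :=
    (Finset.abs_sum_le_sum_abs _ _).trans (Finset.sum_le_sum fun k _ => hle k)
  have e8 := (abs_le.mp e7).1
  have e9 := (abs_le.mp e3).1
  linarith

theorem l1_schur (a : ℕ → ℕ → ℝ) (hs : ∀ n, Summable (fun k => |a n k|))
    (hw : ∀ θ : ℕ → ℝ, (∀ k, |θ k| ≤ 1) →
      Tendsto (fun n => ∑' k, θ k * a n k) atTop (𝓝 0)) :
    Tendsto (fun n => ∑' k, |a n k|) atTop (𝓝 0) := by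
  classical
  by_contra hcon
  -- the columns tend to `0`
  have hcol : ∀ k, Tendsto (fun n => a n k) atTop (𝓝 0) := by
    intro k
    have h := hw (fun i => if i = k then 1 else 0) (fun i => by split_ifs <;> simp)
    refine h.congr fun n => ?_
    rw [tsum_eq_single k]
    · simp
    · intro i hi
      simp [hi]
  have hcols : ∀ K : ℕ, Tendsto (fun n => ∑ k ∈ Finset.range K, |a n k|) atTop (𝓝 0) := by
    intro K
    have h : Tendsto (fun n => ∑ k ∈ Finset.range K, |a n k|) atTop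
        (𝓝 (∑ _k ∈ Finset.range K, (0 : ℝ))) :=
      tendsto_finsetSum _ fun k _ => by simpa using (hcol k).abs
    simpa using h
  -- many large rows
  have hbig : ∃ c : ℝ, 0 < c ∧ ∀ N : ℕ, ∃ n, N ≤ n ∧ c ≤ ∑' k, |a n k| := by
    rw [Metric.tendsto_atTop] at hcon
    push Not at hcon
    obtain ⟨c, hc, h⟩ := hcon
    refine ⟨c, hc, fun N => ?_⟩
    obtain ⟨n, hn, h1⟩ := h N
    refine ⟨n, hn, ?_⟩
    rw [Real.dist_eq, sub_zero, abs_of_nonneg (tsum_nonneg fun k => abs_nonneg _)] at h1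
    exact h1
  obtain ⟨c, hc, hbig⟩ := hbig
  have hstep : ∀ N K : ℕ, ∃ q : ℕ × ℕ, N ≤ q.1 ∧ K < q.2 ∧ c ≤ ∑' k, |a q.1 k| ∧
      ∑ k ∈ Finset.range K, |a q.1 k| ≤ c / 8 ∧
      (∑' k, |a q.1 k|) - ∑ k ∈ Finset.range q.2, |a q.1 k| ≤ c / 8 := by
    intro N K
    have h1 : ∀ᶠ n in atTop, ∑ k ∈ Finset.range K, |a n k| < c / 8 :=
      (hcols K).eventually_lt_const (by positivity)
    obtain ⟨N', hN'⟩ := eventually_atTop.mp h1
    obtain ⟨n, hn, hcn⟩ := hbig (max N N')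
    have h2 : Tendsto (fun m => ∑ k ∈ Finset.range m, |a n k|) atTop (𝓝 (∑' k, |a n k|)) :=
      (hs n).hasSum.tendsto_sum_nat
    have h3 : ∀ᶠ m in atTop, (∑' k, |a n k|) - c / 8 < ∑ k ∈ Finset.range m, |a n k| :=
      h2.eventually_const_lt (by linarith)
    obtain ⟨m, hm1, hm2⟩ := (h3.and (eventually_gt_atTop K)).exists
    exact ⟨(n, m), le_trans (le_max_left _ _) hn, hm2, hcn,
      (hN' n (le_trans (le_max_right _ _) hn)).le, by simp only; linarith⟩
  choose q hq1 hq2 hq3 hq4 hq5 using hstep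
  let s : ℕ → ℕ × ℕ := fun j => Nat.rec (0, 0) (fun i p => q (p.1 + i) p.2) j
  have hsucc : ∀ j, s (j + 1) = q ((s j).1 + j) (s j).2 := fun j => rfl
  have hn : ∀ j, j ≤ (s (j + 1)).1 := by
    intro j
    rw [hsucc]
    exact le_trans (Nat.le_add_left j _) (hq1 _ _)
  have hKlt : ∀ j, (s j).2 < (s (j + 1)).2 := by
    intro j
    rw [hsucc]
    exact hq2 _ _
  have hKmono : StrictMono (fun j => (s j).2) := strictMono_nat_of_lt_succ hKlt
  have hex : ∀ k : ℕ, ∃ j, k < (s (j + 1)).2 := by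
    intro k
    exact ⟨k, lt_of_lt_of_le (Nat.lt_succ_self k) (hKmono.le_apply (x := k + 1))⟩
  let θ : ℕ → ℝ := fun k => sg62 (a (s (Nat.find (hex k) + 1)).1 k)
  have hθ1 : ∀ k, |θ k| ≤ 1 := fun k => (abs_sg62 _).le
  have hθ2 : ∀ j k, (s j).2 ≤ k → k < (s (j + 1)).2 → θ k * a (s (j + 1)).1 k =
      |a (s (j + 1)).1 k| := by
    intro j k h1 h2
    have h3 : Nat.find (hex k) = j := by
      rw [Nat.find_eq_iff]
      refine ⟨h2, fun i hi hcon' => ?_⟩
      have h4 : (s (i + 1)).2 ≤ (s j).2 := hKmono.monotone (by omega : i + 1 ≤ j)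
      omega
    show sg62 (a (s (Nat.find (hex k) + 1)).1 k) * a (s (j + 1)).1 k = _
    rw [h3, sg62_mul]
  have hlow : ∀ j, c / 2 ≤ ∑' k, θ k * a (s (j + 1)).1 k := by
    intro j
    refine row62 (a (s (j + 1)).1) θ (hs _) hθ1 c (s j).2 (s (j + 1)).2 (hKlt j).le ?_ ?_ ?_
      (hθ2 j)
    · rw [hsucc]
      exact hq3 _ _
    · rw [hsucc]
      exact hq4 _ _
    · rw [hsucc]
      exact hq5 _ _
  have hlim := hw θ hθ1
  have h1 : ∀ᶠ n in atTop, ∑' k, θ k * a n k < c / 2 := hlim.eventually_lt_const (by positivity)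
  obtain ⟨N, hN⟩ := eventually_atTop.mp h1
  have h2 := hN _ (hn N)
  have h3 := hlow N
  linarith

end Pool.Agent.Helper25.SC
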