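import Pool.Agent.Helper25.SC.Defs

/-!
# The lift: definitions

`rho` is a `C¹` probability density supported in `[-1, 1]`. `cube τ Φ` is the compact set of the sums
`∑' g, (t g * τ g) • Φ g`, `|t g| ≤ 1`. `mu τ Φ hs s g` is the lift of `Φ g` computed with the coordinates in `s`.
-/

set_option autoImplicit false
set_option maxSynthPendingDepth 3

namespace Pool.Agent.Helper25.SC

open Filter Topology MeasureTheory

/-- A `C¹` probability density supported in `[-1, 1]`. -/
noncomputable def rho (t : ℝ) : ℝ := if |t| < 1 then 15 / 16 * (1 - t ^ 2) ^ 2 else 0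

/-- The derivative of `rho`. -/
noncomputable def rho' (t : ℝ) : ℝ := if |t| < 1 then -(15 / 4 * t * (1 - t ^ 2)) else 0

open Classical in
/-- The weight: `- rho'` in the coordinate `g`, `rho` in the other coordinates. -/
noncomputable def wt {κ : Type*} [Fintype κ] (g : κ) (t : κ → ℝ) : ℝ :=
  -rho' (t g) * ∏ h ∈ Finset.univ.erase g, rho (t h)

theorem wt_eq {κ : Type*} [Fintype κ] [DecidableEq κ] (g : κ) (t : κ → ℝ) :
    wt g t = -rho' (t g) * ∏ h ∈ Finset.univ.erase g, rho (t h) := by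
  unfold wt
  congr
  exact Subsingleton.elim _ _

variable {ι E : Type*} [NormedAddCommGroup E] [NormedSpace ℝ E]

/-- The compact set. -/
def cube (τ : ι → ℝ) (Φ : ι → E) : Set E :=
  {x | ∃ t : ι → ℝ, (∀ g, |t g| ≤ 1) ∧ x = ∑' g, (t g * τ g) • Φ g}

theorem zero_mem_cube (τ : ι → ℝ) (Φ : ι → E) : (0 : E) ∈ cube τ Φ :=
  ⟨0, fun g => by simp, by simp⟩

/-- The base point. -/
def bpt (τ : ι → ℝ) (Φ : ι → E) : Snow (cube τ Φ) := ⟨⟨0, zero_mem_cube τ Φ⟩⟩

/-- The free space of the snowflake of the cube. -/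
noncomputable abbrev FC (τ : ι → ℝ) (Φ : ι → E) := Free (Snow (cube τ Φ)) (bpt τ Φ)

open Classical in
/-- `δ(x)`, extended by `0` outside of the cube. -/
noncomputable def dl (τ : ι → ℝ) (Φ : ι → E) (x : E) : FC τ Φ :=
  if h : x ∈ cube τ Φ then dlt (bpt τ Φ) ⟨⟨x, h⟩⟩ else 0

/-- The point with the coordinates `t` (supported in `s`). -/
noncomputable def yv (τ : ι → ℝ) (Φ : ι → E) (s : Finset ι) (t : s → ℝ) : E :=
  ∑ g : s, (t g * τ g) • Φ g

open Classical in
/-- The lift of `Φ g` computed with the coordinates in `s`. -/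
noncomputable def mu (τ : ι → ℝ) (Φ : ι → E) (s : Finset ι) (g : ι) : FC τ Φ :=
  if h : g ∈ s then (τ g)⁻¹ • ∫ t : s → ℝ, wt (⟨g, h⟩ : s) t • dl τ Φ (yv τ Φ s t) else 0

end Pool.Agent.Helper25.SC
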