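import Pool.Agent.Helper25.SC.LR

/-!
# Block SC-LI: integrals against invariant functions vanish

`W t = ∏ h, rho (t h)` is `C¹` with compact support; its derivative in direction `v` is
`∑ g, v g * rho' (t g) * ∏_{h ≠ g} rho (t h) = - ∑ g, v g * wt g t` (`HasDerivAt.fun_finset_prod` along the line `x ↦ t - x • v`).
`U (t + x • v) = U t` for all `t`, `x`. By translation invariance of Lebesgue measure (`integral_sub_right_eq_self`)
`∫ W (t - x • v) • U t = ∫ W (t - x • v) • U (t - x • v) = ∫ W t • U t`, so `∫ ((W (t - x • v) - W t) / x) • U t = 0` for `x ≠ 0`. Let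
`x → 0` (dominated convergence, `tendsto_integral_filter_of_dominated_convergence`): for `|x| ≤ 1` the difference quotient is
bounded by a constant (mean value theorem: the derivative of `x ↦ W (t - x • v)` is bounded by `∑ |v g| * 4`, as
`0 ≤ rho ≤ 1`, `|rho'| ≤ 4`) and vanishes if `‖t‖ > 1 + ‖v‖`; `U` is bounded by `C`. The limit is `∑ g, v g * wt g t` times `U t`.
-/

set_option autoImplicit false
set_option maxSynthPendingDepth 3

namespace Pool.Agent.Helper25.SC

open MeasureTheory

private noncomputable def liW {κ : Type*} [Fintype κ] (t : κ → ℝ) : ℝ := ∏ h, rho (t h)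

private theorem liW_continuous {κ : Type*} [Fintype κ] : Continuous (liW (κ := κ)) := by
  unfold liW
  exact continuous_finsetProd _ fun h _ => continuous_rho.comp (continuous_apply h)

private theorem liW_zero {κ : Type*} [Fintype κ] {t : κ → ℝ} (ht : 1 < ‖t‖) : liW t = 0 := by
  have h1 : ∃ g, 1 < |t g| := by
    by_contra hcon
    push Not at hcon
    have : ‖t‖ ≤ 1 := (pi_norm_le_iff_of_nonneg zero_le_one).2 fun g => hcon g
    linarith
  obtain ⟨g, hg⟩ := h1
  exact Finset.prod_eq_zero (Finset.mem_univ g) (rho_eq_zero hg.le)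

private theorem liW_hasDerivAt {κ : Type*} [Fintype κ] (t v : κ → ℝ) (x : ℝ) :
    HasDerivAt (fun x : ℝ => liW (t - x • v)) (∑ g, v g * wt g (t - x • v)) x := by
  classical
  have h := HasDerivAt.fun_finsetProd (u := Finset.univ)
    (f := fun h (x : ℝ) => rho ((t - x • v) h))
    (f' := fun h => rho' ((t - x • v) h) * (-(v h))) (x := x) (fun h _ => by
      have h1 : HasDerivAt (fun x : ℝ => (t - x • v) h) (-(v h)) x := by
        have h2 : HasDerivAt (fun x : ℝ => t h - x * v h) (-(1 * v h)) x :=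
          ((hasDerivAt_id x).mul_const (v h)).const_sub (t h)
        simpa using h2
      exact (hasDerivAt_rho ((t - x • v) h)).comp x h1)
  unfold liW
  refine h.congr_deriv (Finset.sum_congr rfl fun g _ => ?_)
  rw [wt_eq, smul_eq_mul]
  ring

private theorem abs_wt_le {κ : Type*} [Fintype κ] (g : κ) (t : κ → ℝ) : |wt g t| ≤ 4 := by
  classical
  rw [wt_eq, abs_mul, abs_neg]
  have h1 : |∏ h ∈ Finset.univ.erase g, rho (t h)| ≤ 1 := by
    rw [abs_of_nonneg (Finset.prod_nonneg fun h _ => rho_nonneg _)]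
    exact Finset.prod_le_one (fun h _ => rho_nonneg _) fun h _ => rho_le_one _
  calc |rho' (t g)| * |∏ h ∈ Finset.univ.erase g, rho (t h)| ≤ 4 * 1 :=
        mul_le_mul (abs_rho'_le _) h1 (abs_nonneg _) (by norm_num)
    _ = 4 := by norm_num

private theorem liW_lip {κ : Type*} [Fintype κ] (t v : κ → ℝ) (x : ℝ) :
    |liW (t - x • v) - liW t| ≤ (∑ g, |v g| * 4) * |x| := by
  have hb : ∀ y ∈ (Set.univ : Set ℝ), ‖∑ g, v g * wt g (t - y • v)‖ ≤ ∑ g, |v g| * 4 := by
    intro y _
    rw [Real.norm_eq_abs]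
    refine (Finset.abs_sum_le_sum_abs _ _).trans (Finset.sum_le_sum fun g _ => ?_)
    rw [abs_mul]
    exact mul_le_mul_of_nonneg_left (abs_wt_le _ _) (abs_nonneg _)
  have h := Convex.norm_image_sub_le_of_norm_hasDerivWithin_le
    (f := fun x : ℝ => liW (t - x • v)) (s := Set.univ) (x := 0) (y := x)
    (fun y _ => (liW_hasDerivAt t v y).hasDerivWithinAt) hb convex_univ
    (Set.mem_univ _) (Set.mem_univ _)
  simpa using h

private theorem liW_integrable {κ : Type*} [Fintype κ] : Integrable (liW (κ := κ)) := by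
  refine liW_continuous.integrable_of_hasCompactSupport ?_
  refine HasCompactSupport.intro (isCompact_closedBall (0 : κ → ℝ) 1) fun t ht => ?_
  apply liW_zero
  rw [Metric.mem_closedBall, dist_zero_right] at ht
  exact not_le.1 ht

private theorem liW_smul_integrable {κ : Type*} [Fintype κ] {F : Type*} [NormedAddCommGroup F]
    [NormedSpace ℝ F] {U : (κ → ℝ) → F} (hU : AEStronglyMeasurable U volume)
    {C : ℝ} (hC : ∀ t, ‖U t‖ ≤ C) (w : κ → ℝ) : Integrable (fun t => liW (t - w) • U t) := by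
  have h1 : Integrable (fun t : κ → ℝ => liW (t - w)) := liW_integrable.comp_sub_right w
  refine Integrable.mono' (g := fun t => ‖liW (t - w)‖ * C) (h1.norm.mul_const C)
    (h1.aestronglyMeasurable.smul hU) (Filter.Eventually.of_forall fun t => ?_)
  rw [norm_smul]
  exact mul_le_mul_of_nonneg_left (hC t) (norm_nonneg _)

private theorem liW_diff_zero {κ : Type*} [Fintype κ] {F : Type*} [NormedAddCommGroup F]
    [NormedSpace ℝ F] {U : (κ → ℝ) → F} (hU : AEStronglyMeasurable U volume)
    {C : ℝ} (hC : ∀ t, ‖U t‖ ≤ C) (v : κ → ℝ) (hv : ∀ (t : κ → ℝ) (x : ℝ), U (t + x • v) = U t)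
    (x : ℝ) : ∫ t : κ → ℝ, ((liW (t - x • v) - liW t) / x) • U t = 0 := by
  have h0 : ∀ t : κ → ℝ, ((liW (t - x • v) - liW t) / x) • U t =
      x⁻¹ • (liW (t - x • v) • U t - liW (t - 0) • U t) := by
    intro t
    rw [sub_zero, ← sub_smul, smul_smul]
    congr 1
    ring
  simp only [h0]
  rw [integral_smul, integral_sub (liW_smul_integrable hU hC _) (liW_smul_integrable hU hC 0)]
  have h1 : ∀ t : κ → ℝ, liW (t - x • v) • U t = (fun s => liW s • U s) (t - x • v) := by
    intro t
    have h2 : U (t - x • v) = U t := by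
      have := hv t (-x)
      rwa [neg_smul, ← sub_eq_add_neg] at this
    simp only [h2]
  simp only [h1]
  rw [integral_sub_right_eq_self (fun s => liW s • U s) (x • v)]
  simp

theorem integral_invariant {κ : Type*} [Fintype κ] {F : Type*} [NormedAddCommGroup F]
    [NormedSpace ℝ F] [CompleteSpace F] (U : (κ → ℝ) → F) (hU : AEStronglyMeasurable U volume)
    (C : ℝ) (hC : ∀ t, ‖U t‖ ≤ C) (v : κ → ℝ) (hv : ∀ (t : κ → ℝ) (x : ℝ), U (t + x • v) = U t) :
    ∫ t : κ → ℝ, (∑ g, v g * wt g t) • U t = 0 := by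
  have hC0 : 0 ≤ C := (norm_nonneg _).trans (hC 0)
  have hB0 : 0 ≤ ∑ g, |v g| * 4 := Finset.sum_nonneg fun g _ => by positivity
  have hx : ∀ n : ℕ, (0:ℝ) < 1 / ((n:ℝ) + 1) := fun n => by positivity
  have hx1 : ∀ n : ℕ, 1 / ((n:ℝ) + 1) ≤ 1 := fun n => by
    rw [div_le_one (by positivity)]
    have : (0:ℝ) ≤ n := Nat.cast_nonneg n
    linarith
  have hlim := tendsto_integral_of_dominated_convergence
    (F := fun (n : ℕ) (t : κ → ℝ) =>
      ((liW (t - (1 / ((n:ℝ) + 1)) • v) - liW t) / (1 / ((n:ℝ) + 1))) • U t)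
    (f := fun t => (∑ g, v g * wt g t) • U t)
    (μ := (volume : Measure (κ → ℝ)))
    (Set.indicator (Metric.closedBall (0 : κ → ℝ) (1 + ‖v‖)) fun _ => (∑ g, |v g| * 4) * C)
    (fun n => ?_) ?_ (fun n => ?_) ?_
  · have h2 : ∀ n : ℕ, ∫ t : κ → ℝ,
        ((liW (t - (1 / ((n:ℝ) + 1)) • v) - liW t) / (1 / ((n:ℝ) + 1))) • U t = 0 :=
      fun n => liW_diff_zero hU hC v hv _
    simp only [h2] at hlim
    exact tendsto_nhds_unique hlim tendsto_const_nhds
  · refine AEStronglyMeasurable.smul ?_ hU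
    have h3 : Continuous fun t : κ → ℝ =>
        (liW (t - (1 / ((n:ℝ) + 1)) • v) - liW t) / (1 / ((n:ℝ) + 1)) :=
      ((liW_continuous.comp (continuous_id.sub continuous_const)).sub liW_continuous).div_const _
    exact h3.aestronglyMeasurable
  · rw [integrable_indicator_iff Metric.isClosed_closedBall.measurableSet]
    exact integrableOn_const (measure_closedBall_lt_top (x := (0 : κ → ℝ)) (r := 1 + ‖v‖)).ne
  · refine Filter.Eventually.of_forall fun t => ?_
    rw [norm_smul]
    by_cases ht : t ∈ Metric.closedBall (0 : κ → ℝ) (1 + ‖v‖)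
    · rw [Set.indicator_of_mem ht]
      refine mul_le_mul ?_ (hC t) (norm_nonneg _) hB0
      rw [Real.norm_eq_abs, abs_div, abs_of_pos (hx n), div_le_iff₀ (hx n)]
      have h4 := liW_lip t v (1 / ((n:ℝ) + 1))
      rwa [abs_of_pos (hx n)] at h4
    · rw [Set.indicator_of_notMem ht]
      rw [Metric.mem_closedBall, dist_zero_right, not_le] at ht
      have h5 : liW t = 0 := liW_zero (by have := norm_nonneg v; linarith)
      have h6 : liW (t - (1 / ((n:ℝ) + 1)) • v) = 0 := by
        refine liW_zero ?_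
        have h7 : ‖t‖ ≤ ‖t - (1 / ((n:ℝ) + 1)) • v‖ + ‖(1 / ((n:ℝ) + 1)) • v‖ := by
          have := norm_add_le (t - (1 / ((n:ℝ) + 1)) • v) ((1 / ((n:ℝ) + 1)) • v)
          rwa [sub_add_cancel] at this
        have h8 : ‖(1 / ((n:ℝ) + 1)) • v‖ ≤ ‖v‖ := by
          rw [norm_smul, Real.norm_eq_abs, abs_of_pos (hx n)]
          exact mul_le_of_le_one_left (norm_nonneg _) (hx1 n)
        linarith
      rw [h5, h6]
      simp
  · refine Filter.Eventually.of_forall fun t => ?_
    refine Filter.Tendsto.smul_const ?_ (U t)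
    have h9 := liW_hasDerivAt t v 0
    rw [hasDerivAt_iff_tendsto_slope] at h9
    have h10 : Filter.Tendsto (fun n : ℕ => 1 / ((n:ℝ) + 1)) Filter.atTop (nhdsWithin 0 {0}ᶜ) := by
      rw [tendsto_nhdsWithin_iff]
      exact ⟨tendsto_one_div_add_atTop_nhds_zero_nat,
        Filter.Eventually.of_forall fun n => (hx n).ne'⟩
    have h11 := h9.comp h10
    simp only [zero_smul, sub_zero] at h11
    refine h11.congr fun n => ?_
    simp only [Function.comp_apply, slope_def_field, zero_smul, sub_zero]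

end Pool.Agent.Helper25.SC
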