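import Pool.Agent.Helper25.SC.LR

/-!
# Block SC-LM: the cube is compact, measurability, integrability

* `summable_lin`: `τ g * ‖Φ g‖ ≤ (τ g * ‖Φ g‖)^al` as soon as the left side is `≤ 1`, which holds for all but finitely many `g`
  (the right sides are summable, so they tend to `0` cofinitely).
* `isCompact_cube`: `cube τ Φ` is the image of the compact space `ι → Icc (-1) 1` under the continuous map
  `t ↦ ∑' g, (t g * τ g) • Φ g` (`continuous_tsum` with the summable bound `τ g * ‖Φ g‖`).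
* `yv_mem`: extend `t` by `0`. `norm_dl_le`: `‖dlt x‖ ≤ dist x o = ‖x‖^al` and the cube is bounded; a bound is
  `(∑' g, τ g * ‖Φ g‖)^al`.
* `norm_dl_sub_le`: for `x, x'` in the cube `‖dl x - dl x'‖ ≤ ‖x - x'‖^al` (`norm_dlt_sub_le`, `snow_dist`).
* `stronglyMeasurable_dl`: `dl` is continuous on the closed set `cube τ Φ` and `0` outside of it; its range is contained in a
  separable set (image of a compact set, and `0`). E.g. `StronglyMeasurable.piecewise`-like lemma: on the subtype `cube` the map is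
  continuous, use `MeasurableEmbedding.subtype_coe`/`stronglyMeasurable_of_restrict...`, or write `dl` as the pointwise limit
  of continuous functions. It is only needed for the composition with the continuous map `yv`: on `(s → ℝ)` the set
  `{t | yv t ∈ cube}` is closed and the map is continuous on it:
  `ContinuousOn.stronglyMeasurable`-type lemma (`ContinuousOn.aestronglyMeasurable` on the closed set, and `0` on the complement,
  `AEStronglyMeasurable` for `Set.indicator`).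
* `integrable_wt_dl`: `wt g` is bounded (by `4`), continuous and vanishes outside of the cube `‖t‖ ≤ 1`, so the function is bounded
  and supported in a set of finite measure.
-/

set_option autoImplicit false
set_option maxSynthPendingDepth 3

namespace Pool.Agent.Helper25.SC

open MeasureTheory

variable {ι E : Type*} [NormedAddCommGroup E] [NormedSpace ℝ E]

theorem summable_lin {τ : ι → ℝ} (hτ : ∀ g, 0 < τ g) {Φ : ι → E}
    (hs : Summable fun g => (τ g * ‖Φ g‖) ^ al) : Summable fun g => τ g * ‖Φ g‖ := by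
  have h1 : ∀ᶠ g in Filter.cofinite, (τ g * ‖Φ g‖) ^ al < 1 :=
    hs.tendsto_cofinite_zero.eventually (gt_mem_nhds one_pos)
  refine Summable.of_norm_bounded_eventually hs ?_
  filter_upwards [h1] with g hg
  have h2 : 0 ≤ τ g * ‖Φ g‖ := mul_nonneg (hτ g).le (norm_nonneg _)
  rw [Real.norm_of_nonneg h2]
  rcases h2.eq_or_lt with h3 | h3
  · rw [← h3]
    exact Real.rpow_nonneg le_rfl _
  · have h4 : τ g * ‖Φ g‖ ≤ 1 := by
      by_contra h5
      exact absurd hg (not_lt.2 (Real.one_le_rpow (not_le.1 h5).le al_pos.le))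
    calc τ g * ‖Φ g‖ = (τ g * ‖Φ g‖) ^ (1 : ℝ) := (Real.rpow_one _).symm
      _ ≤ (τ g * ‖Φ g‖) ^ al := Real.rpow_le_rpow_of_exponent_ge h3 h4 al_le_one

private theorem norm_term_le_h99 {τ : ι → ℝ} (hτ : ∀ g, 0 < τ g) (Φ : ι → E) {r : ℝ}
    (hr : |r| ≤ 1) (g : ι) : ‖(r * τ g) • Φ g‖ ≤ τ g * ‖Φ g‖ := by
  rw [norm_smul, Real.norm_eq_abs, abs_mul, abs_of_pos (hτ g), mul_assoc]
  have h2 : 0 ≤ τ g * ‖Φ g‖ := mul_nonneg (hτ g).le (norm_nonneg _)
  calc |r| * (τ g * ‖Φ g‖) ≤ 1 * (τ g * ‖Φ g‖) := mul_le_mul_of_nonneg_right hr h2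
    _ = _ := one_mul _

theorem isCompact_cube [CompleteSpace E] {τ : ι → ℝ} (hτ : ∀ g, 0 < τ g) {Φ : ι → E}
    (hs : Summable fun g => (τ g * ‖Φ g‖) ^ al) : IsCompact (cube τ Φ) := by
  have h1 : Continuous (fun t : ι → Set.Icc (-1 : ℝ) 1 => ∑' g, ((t g : ℝ) * τ g) • Φ g) := by
    refine continuous_tsum (u := fun g => τ g * ‖Φ g‖) (fun g => ?_) (summable_lin hτ hs)
      fun g t => norm_term_le_h99 hτ Φ (abs_le.2 (t g).2) g
    exact ((continuous_subtype_val.comp (continuous_apply g)).mul continuous_const).smul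
      continuous_const
  have h2 : cube τ Φ = Set.range
      (fun t : ι → Set.Icc (-1 : ℝ) 1 => ∑' g, ((t g : ℝ) * τ g) • Φ g) := by
    ext x
    constructor
    · rintro ⟨t, ht, rfl⟩
      exact ⟨fun g => ⟨t g, abs_le.1 (ht g)⟩, rfl⟩
    · rintro ⟨t, rfl⟩
      exact ⟨fun g => t g, fun g => abs_le.2 (t g).2, rfl⟩
  rw [h2]
  exact isCompact_range h1

theorem yv_mem (τ : ι → ℝ) (Φ : ι → E) (s : Finset ι) (t : s → ℝ) (ht : ∀ g, |t g| ≤ 1) :
    yv τ Φ s t ∈ cube τ Φ := by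
  classical
  obtain ⟨t', h1, h2⟩ : ∃ t' : ι → ℝ, (∀ g : s, t' g = t g) ∧ ∀ g, g ∉ s → t' g = 0 :=
    ⟨fun g => if h : g ∈ s then t ⟨g, h⟩ else 0, fun g => dif_pos g.2, fun g hg => dif_neg hg⟩
  refine ⟨t', fun g => ?_, ?_⟩
  · by_cases h : g ∈ s
    · rw [h1 ⟨g, h⟩]
      exact ht _
    · rw [h2 g h, abs_zero]
      exact zero_le_one
  · rw [tsum_eq_sum (s := s) (fun g hg => by rw [h2 g hg, zero_mul, zero_smul]), yv,
      ← Finset.sum_coe_sort s]
    refine Finset.sum_congr rfl fun g _ => ?_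
    rw [h1 g]

private theorem norm_dl_le_h99 (τ : ι → ℝ) (Φ : ι → E) (x : E) : ‖dl τ Φ x‖ ≤ ‖x‖ ^ al := by
  unfold dl
  by_cases h : x ∈ cube τ Φ
  · rw [dif_pos h]
    have h1 := norm_dlt_sub_le (bpt τ Φ) ⟨⟨x, h⟩⟩ (bpt τ Φ)
    rw [dlt_base, sub_zero, snow_dist] at h1
    have h2 : dist (Snow.pt (⟨⟨x, h⟩⟩ : Snow (cube τ Φ))) (bpt τ Φ).pt = ‖x‖ := by
      rw [Subtype.dist_eq]
      exact dist_zero_right x
    rwa [h2] at h1
  · rw [dif_neg h, norm_zero]
    exact Real.rpow_nonneg (norm_nonneg _) _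

theorem norm_dl_le [CompleteSpace E] {τ : ι → ℝ} (hτ : ∀ g, 0 < τ g) {Φ : ι → E}
    (hs : Summable fun g => (τ g * ‖Φ g‖) ^ al) (x : E) :
    ‖dl τ Φ x‖ ≤ (∑' g, τ g * ‖Φ g‖) ^ al := by
  by_cases h : x ∈ cube τ Φ
  · refine (norm_dl_le_h99 τ Φ x).trans (Real.rpow_le_rpow (norm_nonneg _) ?_ al_pos.le)
    obtain ⟨t, ht, rfl⟩ := h
    exact tsum_of_norm_bounded (summable_lin hτ hs).hasSum
      fun g => norm_term_le_h99 hτ Φ (ht g) g
  · unfold dl
    rw [dif_neg h, norm_zero]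
    exact Real.rpow_nonneg (tsum_nonneg fun g => mul_nonneg (hτ g).le (norm_nonneg _)) _

theorem norm_dl_sub_le (τ : ι → ℝ) (Φ : ι → E) {x x' : E} (hx : x ∈ cube τ Φ) (hx' : x' ∈ cube τ Φ) :
    ‖dl τ Φ x - dl τ Φ x'‖ ≤ ‖x - x'‖ ^ al := by
  unfold dl
  rw [dif_pos hx, dif_pos hx']
  refine (norm_dlt_sub_le (bpt τ Φ) _ _).trans_eq ?_
  rw [snow_dist, Subtype.dist_eq, dist_eq_norm]

private theorem continuous_yv_h99 (τ : ι → ℝ) (Φ : ι → E) (s : Finset ι) :
    Continuous (yv τ Φ s) := by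
  unfold yv
  exact continuous_finsetSum _ fun g _ =>
    ((continuous_apply g).mul continuous_const).smul continuous_const

theorem aesm_dl_yv [CompleteSpace E] {τ : ι → ℝ} (hτ : ∀ g, 0 < τ g) {Φ : ι → E}
    (hs : Summable fun g => (τ g * ‖Φ g‖) ^ al) (s : Finset ι) :
    AEStronglyMeasurable (fun t : s → ℝ => dl τ Φ (yv τ Φ s t)) volume := by
  have hcl : IsClosed (yv τ Φ s ⁻¹' cube τ Φ) :=
    (isCompact_cube hτ hs).isClosed.preimage (continuous_yv_h99 τ Φ s)
  have hcont : ContinuousOn (fun t : s → ℝ => dl τ Φ (yv τ Φ s t)) (yv τ Φ s ⁻¹' cube τ Φ) := by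
    intro t ht
    rw [ContinuousWithinAt, tendsto_iff_norm_sub_tendsto_zero]
    have h1 : Filter.Tendsto (fun t' : s → ℝ => ‖yv τ Φ s t' - yv τ Φ s t‖ ^ al)
        (nhdsWithin t (yv τ Φ s ⁻¹' cube τ Φ)) (nhds 0) := by
      have h2 : Continuous (fun t' : s → ℝ => ‖yv τ Φ s t' - yv τ Φ s t‖ ^ al) :=
        (((continuous_yv_h99 τ Φ s).sub continuous_const).norm).rpow_const
          fun _ => Or.inr al_pos.le
      have h3 := h2.tendsto t
      rw [sub_self, norm_zero, Real.zero_rpow al_pos.ne'] at h3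
      exact h3.mono_left nhdsWithin_le_nhds
    refine squeeze_zero' (Filter.Eventually.of_forall fun _ => norm_nonneg _) ?_ h1
    filter_upwards [self_mem_nhdsWithin] with t' ht'
    exact norm_dl_sub_le τ Φ ht' ht
  have hind : (fun t : s → ℝ => dl τ Φ (yv τ Φ s t)) =
      Set.indicator (yv τ Φ s ⁻¹' cube τ Φ) (fun t : s → ℝ => dl τ Φ (yv τ Φ s t)) := by
    funext t
    by_cases h : t ∈ yv τ Φ s ⁻¹' cube τ Φ
    · rw [Set.indicator_of_mem h]
    · rw [Set.indicator_of_notMem h]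
      have h' : ¬ yv τ Φ s t ∈ cube τ Φ := h
      unfold dl
      rw [dif_neg h']
  rw [hind, aestronglyMeasurable_indicator_iff hcl.measurableSet]
  exact hcont.aestronglyMeasurable hcl.measurableSet

theorem wt_eq_zero {κ : Type*} [Fintype κ] (g : κ) {t : κ → ℝ}
    (ht : ¬ ∀ h, |t h| ≤ 1) : wt g t = 0 := by
  classical
  rw [wt_eq]
  obtain ⟨h, hh⟩ := not_forall.1 ht
  have h1 : 1 ≤ |t h| := (not_le.1 hh).le
  by_cases hg : h = g
  · rw [← hg, rho'_eq_zero h1, neg_zero, zero_mul]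
  · rw [Finset.prod_eq_zero (Finset.mem_erase.2 ⟨hg, Finset.mem_univ h⟩) (rho_eq_zero h1),
      mul_zero]

theorem abs_wt_le {κ : Type*} [Fintype κ] (g : κ) (t : κ → ℝ) : |wt g t| ≤ 4 := by
  classical
  rw [wt_eq, abs_mul, abs_neg, Finset.abs_prod]
  have h1 : ∏ h ∈ Finset.univ.erase g, |rho (t h)| ≤ 1 :=
    Finset.prod_le_one (fun h _ => abs_nonneg _) fun h _ => by
      rw [abs_of_nonneg (rho_nonneg _)]
      exact rho_le_one _
  have h2 : 0 ≤ ∏ h ∈ Finset.univ.erase g, |rho (t h)| := Finset.prod_nonneg fun h _ => abs_nonneg _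
  calc |rho' (t g)| * ∏ h ∈ Finset.univ.erase g, |rho (t h)| ≤ 4 * 1 :=
        mul_le_mul (abs_rho'_le _) h1 h2 (by norm_num)
    _ = 4 := mul_one _

theorem continuous_wt {κ : Type*} [Fintype κ] (g : κ) :
    Continuous (wt g : (κ → ℝ) → ℝ) := by
  classical
  have h1 : (wt g : (κ → ℝ) → ℝ) =
      fun t => -rho' (t g) * ∏ h ∈ Finset.univ.erase g, rho (t h) := funext fun t => wt_eq g t
  rw [h1]
  exact (continuous_rho'.comp (continuous_apply g)).neg.mul
    (continuous_finsetProd _ fun h _ => continuous_rho.comp (continuous_apply h))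

theorem integrable_wt_dl [CompleteSpace E] {τ : ι → ℝ} (hτ : ∀ g, 0 < τ g) {Φ : ι → E}
    (hs : Summable fun g => (τ g * ‖Φ g‖) ^ al) (s : Finset ι) (g : s) :
    Integrable (fun t : s → ℝ => wt g t • dl τ Φ (yv τ Φ s t)) volume := by
  have hsupp : Function.support (fun t : s → ℝ => wt g t • dl τ Φ (yv τ Φ s t)) ⊆
      Set.Icc (-1) 1 := by
    intro t ht
    by_contra hcon
    refine ht ?_
    have h1 : ¬ ∀ h, |t h| ≤ 1 := fun h2 =>
      hcon ⟨fun h => (abs_le.1 (h2 h)).1, fun h => (abs_le.1 (h2 h)).2⟩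
    show wt g t • dl τ Φ (yv τ Φ s t) = 0
    rw [wt_eq_zero g h1, zero_smul]
  rw [← integrableOn_iff_integrable_of_support_subset hsupp]
  refine Measure.integrableOn_of_bounded (M := 4 * (∑' g, τ g * ‖Φ g‖) ^ al)
    isCompact_Icc.measure_lt_top.ne ?_ (Filter.Eventually.of_forall fun t => ?_)
  · exact (continuous_wt g).aestronglyMeasurable.smul (aesm_dl_yv hτ hs s)
  · rw [norm_smul]
    exact mul_le_mul (abs_wt_le g t) (norm_dl_le hτ hs _) (norm_nonneg _) (by norm_num)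

end Pool.Agent.Helper25.SC
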