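import Pool.Agent.Helper25.SC.LI
import Pool.Agent.Helper25.SC.LM

/-!
# Block SC-LN: relations, norm bound and coordinates of the lifts `mu s g`

* `mu_rel`: by `integrable_wt_dl`, `∑ g ∈ s, c g • mu s g = ∫ t, (∑ g : s, (c g / τ g) * wt g t) • dl (yv s t)`, which is `0` by
  `integral_invariant` with `v g = c g / τ g`, `U t = dl (yv s t)` (`aesm_dl_yv`, `norm_dl_le`), because
  `yv s (t + x • v) = yv s t + x • ∑ g, c g • Φ g = yv s t`.
* `norm_mu_le`: let `R t` be `t` with `t g` replaced by `- t g` (`Function.update t g (-t g)`); it preserves Lebesgue measure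
  (e.g. `MeasureTheory.volume_preserving_pi` applied to the measure-preserving maps `Neg`/`id`, or
  `integral_comp`-lemma for the linear map, or `(MeasurePreserving ...)`), `wt g (R t) = - wt g t` (`rho'` odd, `rho` unchanged on
  the others). So `∫ wt g t • U t = (1/2) ∫ wt g t • (U t - U (R t))`. If `wt g t ≠ 0` then `|t h| ≤ 1` for all `h`, both points are in the
  cube and `‖U t - U (R t)‖ ≤ ‖yv t - yv (R t)‖^al = ‖(2 t g τ g) • Φ g‖^al ≤ (2 τ g ‖Φ g‖)^al ≤ 2 (τ g ‖Φ g‖)^al`. And
  `∫ |wt g t| = ∫ |rho'| * ∏ ∫ rho ≤ 2` (`integral_fintype_prod_eq_prod`; `|wt g t| = ∏ h, (if h = g then |rho' (t h)| else rho (t h))`).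
  Total: `(τ g)⁻¹ * (1/2) * 2 * 2 * (τ g)^al ‖Φ g‖^al`. The case `g ∉ s` is trivial.
* `mu_coord`: `evL f` commutes with the integral (`ContinuousLinearMap.integral_comp_comm`), `evL f (dl x) = ψ x` for `x` in the cube,
  so the value is `(τ g)⁻¹ ∫ wt g t * ψ (yv s t) = (τ g)⁻¹ ∑ h, τ h * ψ (Φ h) * ∫ wt g t * t h`, and `∫ wt g t * t h = 1` for `h = g`
  (`integral_rho'_mul`, `integral_rho`), `= 0` for `h ≠ g` (`integral_rho' = 0`), by `integral_fintype_prod_eq_prod`.
-/

set_option autoImplicit false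
set_option maxSynthPendingDepth 3

namespace Pool.Agent.Helper25.SC

open MeasureTheory

variable {ι E : Type*} [NormedAddCommGroup E] [NormedSpace ℝ E] [CompleteSpace E]

open Classical in
theorem wt_prod95 {κ : Type*} [Fintype κ] (g : κ) (t : κ → ℝ) :
    wt g t = ∏ h, (if h = g then -rho' (t h) else rho (t h)) := by
  rw [wt_eq, ← Finset.mul_prod_erase Finset.univ _ (Finset.mem_univ g), if_pos rfl]
  congr 1
  refine Finset.prod_congr rfl fun h hh => ?_
  rw [if_neg (Finset.ne_of_mem_erase hh)]

theorem integral_abs_wt_le {κ : Type*} [Fintype κ] (g : κ) : ∫ t : κ → ℝ, |wt g t| ≤ 2 := by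
  classical
  have h1 : (fun t : κ → ℝ => |wt g t|) =
      fun t => ∏ h, (fun (h : κ) (x : ℝ) => if h = g then |rho' x| else rho x) h (t h) := by
    funext t
    rw [wt_prod95, Finset.abs_prod]
    refine Finset.prod_congr rfl fun h _ => ?_
    by_cases hh : h = g
    · simp [hh]
    · simp [hh, abs_of_nonneg (rho_nonneg _)]
  have h0 := integral_fintype_prod_volume_eq_prod (𝕜 := ℝ) (E := fun _ : κ => ℝ)
    (fun (h : κ) (x : ℝ) => if h = g then |rho' x| else rho x)
  rw [h1, h0, ← Finset.mul_prod_erase Finset.univ _ (Finset.mem_univ g)]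
  have h2 : ∏ x ∈ Finset.univ.erase g, ∫ y : ℝ, (if x = g then |rho' y| else rho y) = 1 := by
    refine Finset.prod_eq_one fun x hx => ?_
    simp only [if_neg (Finset.ne_of_mem_erase hx)]
    exact integral_rho
  rw [h2, mul_one]
  simp only [if_true]
  exact integral_abs_rho'_le

theorem integrable_wt {κ : Type*} [Fintype κ] (g : κ) : Integrable (wt g : (κ → ℝ) → ℝ) := by
  classical
  have h1 : (wt g : (κ → ℝ) → ℝ) =
      fun t => ∏ h, (fun (h : κ) (x : ℝ) => if h = g then -rho' x else rho x) h (t h) := by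
    funext t
    rw [wt_prod95]
  rw [h1]
  refine Integrable.fintype_prod (μ := fun _ : κ => (volume : Measure ℝ))
    (f := fun (h : κ) (x : ℝ) => if h = g then -rho' x else rho x) fun h => ?_
  by_cases hh : h = g
  · simp only [hh, if_true]
    exact integrable_rho'.neg
  · simp only [hh, if_false]
    exact integrable_rho

open Classical in
theorem integral_wt_mul95 {κ : Type*} [Fintype κ] (g h : κ) :
    ∫ t : κ → ℝ, wt g t * t h = if h = g then 1 else 0 := by
  have h1 : (fun t : κ → ℝ => wt g t * t h) =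
      fun t => ∏ k, (fun (k : κ) (x : ℝ) => (if k = g then -rho' x else rho x) *
        (if k = h then x else 1)) k (t k) := by
    funext t
    rw [Finset.prod_mul_distrib, ← wt_prod95, Finset.prod_ite_eq' Finset.univ h]
    simp
  have h0 := integral_fintype_prod_volume_eq_prod (𝕜 := ℝ) (E := fun _ : κ => ℝ)
    (fun (k : κ) (x : ℝ) => (if k = g then -rho' x else rho x) * (if k = h then x else 1))
  rw [h1, h0]
  by_cases hh : h = g
  · rw [if_pos hh]
    subst hh
    refine Finset.prod_eq_one fun k _ => ?_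
    by_cases hk : k = h
    · simp only [hk, if_true]
      exact integral_rho'_mul
    · simp only [hk, if_false, mul_one]
      exact integral_rho
  · rw [if_neg hh]
    refine Finset.prod_eq_zero (Finset.mem_univ g) ?_
    simp only [if_true, if_neg (Ne.symm hh), mul_one]
    rw [integral_neg, integral_rho', neg_zero]

theorem integrable_wt_mul95 {κ : Type*} [Fintype κ] (g h : κ) :
    Integrable (fun t : κ → ℝ => wt g t * t h) := by
  refine (integrable_wt g).mono ((continuous_wt g).mul (continuous_apply h)).aestronglyMeasurable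
    (Filter.Eventually.of_forall fun t => ?_)
  by_cases ht : ∀ k, |t k| ≤ 1
  · rw [norm_mul]
    exact mul_le_of_le_one_right (norm_nonneg _) (ht h)
  · rw [wt_eq_zero g ht]
    simp

omit [CompleteSpace E] in
theorem mu_of_mem95 (τ : ι → ℝ) (Φ : ι → E) (s : Finset ι) (g : s) :
    mu τ Φ s (g : ι) = (τ g)⁻¹ • ∫ t : s → ℝ, wt g t • dl τ Φ (yv τ Φ s t) := by
  unfold mu
  rw [dif_pos g.2]

theorem mu_rel {τ : ι → ℝ} (hτ : ∀ g, 0 < τ g) {Φ : ι → E}
    (hs : Summable fun g => (τ g * ‖Φ g‖) ^ al) (s : Finset ι) (c : ι → ℝ)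
    (hc : ∑ g ∈ s, c g • Φ g = 0) : ∑ g ∈ s, c g • mu τ Φ s g = 0 := by
  rw [← Finset.sum_coe_sort s (fun g => c g • mu τ Φ s g)]
  have key := integral_invariant (κ := s) (fun t => dl τ Φ (yv τ Φ s t)) (aesm_dl_yv hτ hs s) _
    (fun t => norm_dl_le hτ hs _) (fun g => c g / τ g) (fun t x => by
      congr 1
      unfold yv
      have h1 : ∀ g : s, ((t + x • fun g : s => c g / τ g) g * τ g) • Φ g =
          (t g * τ g) • Φ g + x • (c g • Φ g) := by
        intro g
        have := (hτ g).ne'
        rw [smul_smul, ← add_smul]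
        congr 1
        simp only [Pi.add_apply, Pi.smul_apply, smul_eq_mul]
        field_simp
      rw [Finset.sum_congr rfl fun g _ => h1 g, Finset.sum_add_distrib, ← Finset.smul_sum,
        Finset.sum_coe_sort s (fun g => c g • Φ g), hc, smul_zero, add_zero])
  rw [← key]
  have h2 : ∀ g : s, c g • mu τ Φ s g =
      ∫ t : s → ℝ, (c g / τ g * wt g t) • dl τ Φ (yv τ Φ s t) := by
    intro g
    rw [mu_of_mem95, smul_smul, ← integral_smul]
    refine integral_congr_ae (Filter.Eventually.of_forall fun t => ?_)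
    simp only [smul_smul, div_eq_mul_inv]
  rw [Finset.sum_congr rfl fun g _ => h2 g, ← integral_finsetSum]
  · refine integral_congr_ae (Filter.Eventually.of_forall fun t => ?_)
    simp only [Finset.sum_smul]
  · intro g _
    have := (integrable_wt_dl hτ hs s g).smul (c g / τ g)
    refine this.congr (Filter.Eventually.of_forall fun t => ?_)
    simp only [Pi.smul_apply, smul_smul]

section refl

variable {κ : Type*} [Fintype κ]

open Classical in
/-- The reflection in the coordinate `g`. -/
noncomputable def refl95 (g : κ) (t : κ → ℝ) : κ → ℝ := fun k => if k = g then -t k else t k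

omit [Fintype κ] in
theorem refl95_invol (g : κ) : Function.Involutive (refl95 g) := by
  intro t
  funext k
  unfold refl95
  by_cases hk : k = g <;> simp [hk]

theorem refl95_measPres (g : κ) : MeasurePreserving (refl95 g) volume volume := by
  classical
  have h := volume_preserving_pi (ι := κ) (α' := fun _ => ℝ) (β' := fun _ => ℝ)
    (f := fun k x => if k = g then -x else x) (fun k => by
      by_cases hk : k = g
      · simp only [hk, if_true]
        exact Measure.measurePreserving_neg volume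
      · simp only [hk, if_false]
        exact MeasurePreserving.id volume)
  exact h

theorem refl95_emb (g : κ) : MeasurableEmbedding (refl95 g) :=
  (MeasurableEquiv.ofInvolutive (refl95 g) (refl95_invol g)
    (refl95_measPres g).measurable).measurableEmbedding

theorem wt_refl95 (g : κ) (t : κ → ℝ) : wt g (refl95 g t) = -wt g t := by
  classical
  rw [wt_eq, wt_eq]
  have h1 : refl95 g t g = -t g := by simp [refl95]
  have h2 : ∏ h ∈ Finset.univ.erase g, rho (refl95 g t h) =
      ∏ h ∈ Finset.univ.erase g, rho (t h) := by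
    refine Finset.prod_congr rfl fun h hh => ?_
    have : refl95 g t h = t h := by simp [refl95, Finset.ne_of_mem_erase hh]
    rw [this]
  rw [h1, h2, rho'_neg]
  ring

end refl

theorem norm_mu_le {τ : ι → ℝ} (hτ : ∀ g, 0 < τ g) {Φ : ι → E}
    (hs : Summable fun g => (τ g * ‖Φ g‖) ^ al) (s : Finset ι) (g : ι) :
    ‖mu τ Φ s g‖ ≤ 2 * (τ g) ^ (al - 1) * ‖Φ g‖ ^ al := by
  classical
  by_cases hg : g ∈ s
  swap
  · unfold mu
    rw [dif_neg hg, norm_zero]
    have := hτ g
    positivity
  obtain ⟨g, rfl⟩ : ∃ g' : s, (g' : ι) = g := ⟨⟨g, hg⟩, rfl⟩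
  rw [mu_of_mem95]
  set U : (s → ℝ) → FC τ Φ := fun t => dl τ Φ (yv τ Φ s t) with hU
  set I : FC τ Φ := ∫ t : s → ℝ, wt g t • U t with hI
  have hint : Integrable (fun t : s → ℝ => wt g t • U t) volume := integrable_wt_dl hτ hs s g
  have hint2 : Integrable (fun t : s → ℝ => wt g t • U (refl95 g t)) volume := by
    have h1 := ((refl95_measPres g).integrable_comp_emb (refl95_emb g)).2 hint
    have h2 := h1.neg
    refine h2.congr (Filter.Eventually.of_forall fun t => ?_)
    simp only [Pi.neg_apply, Function.comp_apply, wt_refl95, neg_smul, neg_neg]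
  have hI2 : ∫ t : s → ℝ, wt g t • U (refl95 g t) = -I := by
    rw [hI, ← (refl95_measPres g).integral_comp (refl95_emb g), ← integral_neg]
    refine integral_congr_ae (Filter.Eventually.of_forall fun t => ?_)
    simp only [wt_refl95, neg_smul]
    rw [refl95_invol g t]
  have h2I : (2 : ℝ) • I = ∫ t : s → ℝ, wt g t • (U t - U (refl95 g t)) := by
    have : ∫ t : s → ℝ, wt g t • (U t - U (refl95 g t)) =
        ∫ t : s → ℝ, (wt g t • U t - wt g t • U (refl95 g t)) := by
      refine integral_congr_ae (Filter.Eventually.of_forall fun t => ?_)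
      simp only [smul_sub]
    rw [this, integral_sub hint hint2, hI2, two_smul, sub_neg_eq_add]
  have hτg := hτ g
  set K : ℝ := (2 * (τ g * ‖Φ g‖)) ^ al with hK
  have hK0 : 0 ≤ K := by positivity
  have hbound : ∀ t : s → ℝ, ‖wt g t • (U t - U (refl95 g t))‖ ≤ |wt g t| * K := by
    intro t
    by_cases ht : ∀ k, |t k| ≤ 1
    · rw [norm_smul, Real.norm_eq_abs]
      refine mul_le_mul_of_nonneg_left ?_ (abs_nonneg _)
      have h1 : yv τ Φ s t ∈ cube τ Φ := yv_mem τ Φ s t ht
      have h2 : yv τ Φ s (refl95 g t) ∈ cube τ Φ := yv_mem τ Φ s _ (fun k => by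
        unfold refl95
        split_ifs
        · rw [abs_neg]
          exact ht k
        · exact ht k)
      refine (norm_dl_sub_le τ Φ h1 h2).trans ?_
      refine Real.rpow_le_rpow (norm_nonneg _) ?_ al_pos.le
      have h3 : yv τ Φ s t - yv τ Φ s (refl95 g t) = (2 * t g * τ g) • Φ g := by
        unfold yv
        rw [← Finset.sum_sub_distrib]
        rw [Finset.sum_eq_single g]
        · rw [← sub_smul]
          congr 1
          simp only [refl95, if_true]
          ring
        · intro k _ hk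
          simp [refl95, hk]
        · intro h
          exact absurd (Finset.mem_univ _) h
      rw [h3, norm_smul, Real.norm_eq_abs, abs_mul, abs_mul, abs_of_pos hτg,
        abs_of_pos (two_pos : (0:ℝ) < 2)]
      have h4 := ht g
      have h5 : 0 ≤ τ g * ‖Φ g‖ := by positivity
      nlinarith [mul_le_mul_of_nonneg_right h4 h5]
    · rw [wt_eq_zero g ht]
      simp
  have h3 : ‖(2 : ℝ) • I‖ ≤ 2 * K := by
    rw [h2I]
    refine (norm_integral_le_of_norm_le ((integrable_wt g).abs.mul_const K)
      (Filter.Eventually.of_forall hbound)).trans ?_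
    rw [integral_mul_const]
    exact mul_le_mul_of_nonneg_right (integral_abs_wt_le g) hK0
  have h4 : ‖I‖ ≤ K := by
    rw [norm_smul, Real.norm_eq_abs, abs_of_pos (two_pos : (0:ℝ) < 2)] at h3
    linarith
  have h5 : K ≤ 2 * (τ g ^ al * ‖Φ g‖ ^ al) := by
    rw [hK, Real.mul_rpow (by norm_num) (by positivity), Real.mul_rpow hτg.le (norm_nonneg _)]
    refine mul_le_mul_of_nonneg_right ?_ (by positivity)
    calc (2 : ℝ) ^ al ≤ 2 ^ (1 : ℝ) := Real.rpow_le_rpow_of_exponent_le (by norm_num) al_le_one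
      _ = 2 := Real.rpow_one 2
  rw [norm_smul, norm_inv, Real.norm_eq_abs, abs_of_pos hτg]
  calc (τ g)⁻¹ * ‖I‖ ≤ (τ g)⁻¹ * (2 * (τ g ^ al * ‖Φ g‖ ^ al)) :=
        mul_le_mul_of_nonneg_left (h4.trans h5) (by positivity)
    _ = 2 * (τ g) ^ (al - 1) * ‖Φ g‖ ^ al := by
        rw [Real.rpow_sub_one hτg.ne']
        field_simp

theorem mu_coord {τ : ι → ℝ} (hτ : ∀ g, 0 < τ g) {Φ : ι → E}
    (hs : Summable fun g => (τ g * ‖Φ g‖) ^ al) (ψ : E →L[ℝ] ℝ)
    (f : Lip0 (Snow (cube τ Φ)) (bpt τ Φ)) (hf : ∀ x, f x = ψ x.pt) (s : Finset ι) (g : ι) (hg : g ∈ s) :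
    evL f (mu τ Φ s g) = ψ (Φ g) := by
  classical
  obtain ⟨g, rfl⟩ : ∃ g' : s, (g' : ι) = g := ⟨⟨g, hg⟩, rfl⟩
  rw [mu_of_mem95, map_smul, ← ContinuousLinearMap.integral_comp_comm _ (integrable_wt_dl hτ hs s g)]
  have h1 : ∀ t : s → ℝ, evL f (wt g t • dl τ Φ (yv τ Φ s t)) =
      ∑ h : s, (τ h * ψ (Φ h)) * (wt g t * t h) := by
    intro t
    by_cases ht : ∀ k, |t k| ≤ 1
    · have hm : yv τ Φ s t ∈ cube τ Φ := yv_mem τ Φ s t ht
      have h2 : evL f (dl τ Φ (yv τ Φ s t)) = ψ (yv τ Φ s t) := by
        unfold dl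
        rw [dif_pos hm, evL_apply, dlt_coe, delta_apply, hf]
      rw [map_smul, h2]
      unfold yv
      rw [map_sum, smul_eq_mul, Finset.mul_sum]
      refine Finset.sum_congr rfl fun h _ => ?_
      rw [map_smul, smul_eq_mul]
      ring
    · rw [wt_eq_zero g ht, zero_smul, map_zero]
      simp
  simp_rw [h1]
  rw [integral_finsetSum _ fun h _ => (integrable_wt_mul95 g h).const_mul _]
  have h3 : ∀ h : s, ∫ t : s → ℝ, (τ h * ψ (Φ h)) * (wt g t * t h) =
      if h = g then τ g * ψ (Φ g) else 0 := by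
    intro h
    rw [integral_const_mul, integral_wt_mul95]
    by_cases hh : h = g
    · simp [hh]
    · simp [hh]
  rw [Finset.sum_congr rfl fun h _ => h3 h, Finset.sum_ite_eq' Finset.univ g]
  simp only [Finset.mem_univ, if_true, smul_eq_mul]
  rw [← mul_assoc, inv_mul_cancel₀ (hτ g).ne', one_mul]

end Pool.Agent.Helper25.SC
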