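import Pool.Agent.Helper25.SC.LN

/-!
# Block SC-LQ: the limit of the lifts

`mu_sub`: for `s ⊆ s'` split the coordinates `(s' → ℝ) ≃ (s → ℝ) × (r → ℝ)`, `r = s' \ s`
(`MeasurableEquiv.piEquivPiSubtypeProd`, `volume_preserving_piEquivPiSubtypeProd`, or the sum version). The weight of `s'` is
`wt g t|_s * ∏_{h ∈ r} rho (t h)`, and `∫ ∏_{h ∈ r} rho = 1`. So
`∫_{s'} wt g t • dl (yv s t|_s) = ∫_s wt g t • dl (yv s t)` (Fubini, `integral_prod`), and
`‖∫_{s'} wt g t • (dl (yv s' t) - dl (yv s t|_s))‖ ≤ ∫_{s'} |wt g t| * ‖∑_{h ∈ r} (t h * τ h) • Φ h‖^al ≤ 2 * ∑_{h ∈ r} (τ h * ‖Φ h‖)^al`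
(where the weight is not `0` all `|t h| ≤ 1`; `norm_dl_sub_le`, `yv_mem`; `t ↦ t^al` is subadditive: `Real.rpow_add_le_add_rpow`, or
`Finset` induction; `integral_abs_wt_le`).
`lift`: `s ↦ mu s g` is a Cauchy net over `Finset ι` by `mu_sub` (for `s, s'` compare both with `s ∪ s'`; the tails of the summable
family tend to `0`, `Summable.tendsto_...`/`summable_iff_vanishing_norm`), so it converges in `FC τ Φ` (complete) to some `μ g`; pass to
the limit in `norm_mu_le`, `mu_rel` (for `s ⊇ c.support`) and `mu_coord`. `K = cube τ Φ`, `isCompact_cube`; every element of the cube is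
in the closed span of the `Φ g` (a `tsum` of elements of a closed submodule; `summable_lin`).
-/

set_option autoImplicit false
set_option maxSynthPendingDepth 3

namespace Pool.Agent.Helper25.SC

open MeasureTheory

section split_h48

variable {κ α β : Type*} [Fintype κ] [Fintype α] [Fintype β]

/-- splitting the coordinates -/
noncomputable def spl_h48 (e : β ⊕ α ≃ κ) : ((β → ℝ) × (α → ℝ)) ≃ᵐ (κ → ℝ) :=
  (MeasurableEquiv.sumPiEquivProdPi (fun _ : β ⊕ α => ℝ)).symm.trans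
    (MeasurableEquiv.piCongrLeft (fun _ : κ => ℝ) e)

omit [Fintype κ] [Fintype α] [Fintype β] in
theorem spl_h48_inl (e : β ⊕ α ≃ κ) (p : (β → ℝ) × (α → ℝ)) (b : β) :
    spl_h48 e p (e (Sum.inl b)) = p.1 b := by
  simp only [spl_h48, MeasurableEquiv.trans_apply, MeasurableEquiv.coe_piCongrLeft,
    Equiv.piCongrLeft_apply_apply, MeasurableEquiv.coe_sumPiEquivProdPi_symm]
  rfl

omit [Fintype κ] [Fintype α] [Fintype β] in
theorem spl_h48_inr (e : β ⊕ α ≃ κ) (p : (β → ℝ) × (α → ℝ)) (a : α) :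
    spl_h48 e p (e (Sum.inr a)) = p.2 a := by
  simp only [spl_h48, MeasurableEquiv.trans_apply, MeasurableEquiv.coe_piCongrLeft,
    Equiv.piCongrLeft_apply_apply, MeasurableEquiv.coe_sumPiEquivProdPi_symm]
  rfl

theorem mp_spl_h48 (e : β ⊕ α ≃ κ) : MeasurePreserving (spl_h48 e) volume volume :=
  (volume_measurePreserving_piCongrLeft (fun _ : κ => ℝ) e).comp
    (volume_measurePreserving_sumPiEquivProdPi_symm (fun _ : β ⊕ α => ℝ))

theorem prod_erase_h48 [DecidableEq κ] (k : κ) (f : κ → ℝ) :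
    ∏ h ∈ Finset.univ.erase k, f h = ∏ h, (if h = k then 1 else f h) := by
  rw [← Finset.mul_prod_erase Finset.univ _ (Finset.mem_univ k), if_pos rfl, one_mul]
  refine Finset.prod_congr rfl fun h hh => ?_
  rw [if_neg (Finset.ne_of_mem_erase hh)]

theorem wt_spl_h48 (e : β ⊕ α ≃ κ) (a : α) (p : (β → ℝ) × (α → ℝ)) :
    wt (e (Sum.inr a)) (spl_h48 e p) = (∏ b, rho (p.1 b)) * wt a p.2 := by
  classical
  rw [wt_eq, wt_eq, spl_h48_inr, prod_erase_h48, prod_erase_h48, ← e.prod_comp, Fintype.prod_sum_type]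
  simp only [spl_h48_inl, spl_h48_inr, EmbeddingLike.apply_eq_iff_eq, reduceCtorEq, if_false,
    Sum.inr.injEq]
  ring

end split_h48

variable {ι E : Type*} [NormedAddCommGroup E] [NormedSpace ℝ E] [CompleteSpace E]

open Classical in
/-- the splitting of `s'` -/
noncomputable def eqv_h48 {s s' : Finset ι} (hss : s ⊆ s') : ((s' \ s : Finset ι) : Type _) ⊕ s ≃ s' :=
  Equiv.ofBijective (Sum.elim (fun h => ⟨h.1, (Finset.mem_sdiff.1 h.2).1⟩) (fun h => ⟨h.1, hss h.2⟩)) (by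
    constructor
    · rintro (⟨x, hx⟩ | ⟨x, hx⟩) (⟨y, hy⟩ | ⟨y, hy⟩) h
      · simp only [Sum.elim_inl, Subtype.mk.injEq] at h
        subst h; rfl
      · simp only [Sum.elim_inl, Sum.elim_inr, Subtype.mk.injEq] at h
        subst h; exact absurd hy (Finset.mem_sdiff.1 hx).2
      · simp only [Sum.elim_inl, Sum.elim_inr, Subtype.mk.injEq] at h
        subst h; exact absurd hx (Finset.mem_sdiff.1 hy).2
      · simp only [Sum.elim_inr, Subtype.mk.injEq] at h
        subst h; rfl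
    · rintro ⟨x, hx⟩
      by_cases h : x ∈ s
      · exact ⟨Sum.inr ⟨x, h⟩, rfl⟩
      · exact ⟨Sum.inl ⟨x, Finset.mem_sdiff.2 ⟨hx, h⟩⟩, rfl⟩)

open Classical in
theorem eqv_h48_inl {s s' : Finset ι} (hss : s ⊆ s') (h : (s' \ s : Finset ι)) :
    ((eqv_h48 hss (Sum.inl h) : s') : ι) = h := rfl

open Classical in
theorem eqv_h48_inr {s s' : Finset ι} (hss : s ⊆ s') (h : s) :
    ((eqv_h48 hss (Sum.inr h) : s') : ι) = h := rfl

omit [CompleteSpace E] in
open Classical in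
theorem yv_spl_h48 (τ : ι → ℝ) (Φ : ι → E) {s s' : Finset ι} (hss : s ⊆ s')
    (p : (((s' \ s : Finset ι) : Type _) → ℝ) × (s → ℝ)) :
    yv τ Φ s' (spl_h48 (eqv_h48 hss) p) =
      (∑ b : (s' \ s : Finset ι), (p.1 b * τ b) • Φ b) + yv τ Φ s p.2 := by
  unfold yv
  rw [← (eqv_h48 hss).sum_comp, Fintype.sum_sum_type]
  simp only [spl_h48_inl, spl_h48_inr, eqv_h48_inl, eqv_h48_inr]

theorem rpow_sum_le_h48 {J : Type*} (s : Finset J) (f : J → ℝ) (hf : ∀ j ∈ s, 0 ≤ f j) :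
    (∑ j ∈ s, f j) ^ al ≤ ∑ j ∈ s, (f j) ^ al := by
  classical
  induction s using Finset.induction_on with
  | empty => simp [Real.zero_rpow al_pos.ne']
  | insert a s ha ih =>
    rw [Finset.sum_insert ha, Finset.sum_insert ha]
    have h1 : 0 ≤ f a := hf a (Finset.mem_insert_self _ _)
    have h2 : 0 ≤ ∑ j ∈ s, f j := Finset.sum_nonneg fun j hj => hf j (Finset.mem_insert_of_mem hj)
    refine (Real.rpow_add_le_add_rpow h1 h2 al_pos.le al_le_one).trans ?_
    exact add_le_add le_rfl (ih fun j hj => hf j (Finset.mem_insert_of_mem hj))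

open Classical in
theorem mu_sub {τ : ι → ℝ} (hτ : ∀ g, 0 < τ g) {Φ : ι → E}
    (hs : Summable fun g => (τ g * ‖Φ g‖) ^ al) {s s' : Finset ι} (hss : s ⊆ s') {g : ι} (hg : g ∈ s) :
    ‖mu τ Φ s' g - mu τ Φ s g‖ ≤ 2 * (τ g)⁻¹ * ∑ h ∈ s' \ s, (τ h * ‖Φ h‖) ^ al := by
  set e := eqv_h48 hss with he
  set a : s := ⟨g, hg⟩ with ha
  have hea : (⟨g, hss hg⟩ : s') = e (Sum.inr a) := Subtype.ext rfl
  set S : ℝ := ∑ h ∈ s' \ s, (τ h * ‖Φ h‖) ^ al with hS
  have hS0 : 0 ≤ S := Finset.sum_nonneg fun h _ => Real.rpow_nonneg (by have := hτ h; positivity) _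
  rw [mu, mu, dif_pos (hss hg), dif_pos hg, ← smul_sub, norm_smul, norm_inv, Real.norm_eq_abs,
    abs_of_pos (hτ g)]
  have h1 : ∫ t : s' → ℝ, wt (⟨g, hss hg⟩ : s') t • dl τ Φ (yv τ Φ s' t) =
      ∫ p : (((s' \ s : Finset ι) : Type _) → ℝ) × (s → ℝ),
        ((∏ b, rho (p.1 b)) * wt a p.2) • dl τ Φ (yv τ Φ s' (spl_h48 e p)) := by
    rw [← (mp_spl_h48 e).integral_comp']
    refine integral_congr_ae (Filter.Eventually.of_forall fun p => ?_)
    simp only [hea, wt_spl_h48]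
  have hi1 : Integrable (fun p : (((s' \ s : Finset ι) : Type _) → ℝ) × (s → ℝ) =>
        ((∏ b, rho (p.1 b)) * wt a p.2) • dl τ Φ (yv τ Φ s' (spl_h48 e p))) volume := by
    have h := integrable_wt_dl hτ hs s' (⟨g, hss hg⟩ : s')
    have h' := ((mp_spl_h48 e).integrable_comp_emb (MeasurableEquiv.measurableEmbedding _)).2 h
    refine h'.congr (Filter.Eventually.of_forall fun p => ?_)
    simp only [Function.comp, hea, wt_spl_h48]
  have hir : Integrable (fun y : (((s' \ s : Finset ι) : Type _) → ℝ) => ∏ b, rho (y b)) volume :=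
    Integrable.fintype_prod (f := fun _ => rho) fun _ => integrable_rho
  have hr1 : ∫ y : (((s' \ s : Finset ι) : Type _) → ℝ), ∏ b, rho (y b) = 1 := by
    rw [integral_fintype_prod_volume_eq_prod (f := fun _ => rho)]
    simp [integral_rho]
  have h2 : ∫ t : s → ℝ, wt a t • dl τ Φ (yv τ Φ s t) =
      ∫ p : (((s' \ s : Finset ι) : Type _) → ℝ) × (s → ℝ),
        (∏ b, rho (p.1 b)) • (wt a p.2 • dl τ Φ (yv τ Φ s p.2)) := by
    have := integral_prod_smul (μ := (volume : Measure (((s' \ s : Finset ι) : Type _) → ℝ)))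
      (ν := (volume : Measure (s → ℝ))) (fun y => ∏ b, rho (y b))
      (fun x => wt a x • dl τ Φ (yv τ Φ s x))
    rw [hr1, one_smul] at this
    exact this.symm
  have hi2 : Integrable (fun p : (((s' \ s : Finset ι) : Type _) → ℝ) × (s → ℝ) =>
        (∏ b, rho (p.1 b)) • (wt a p.2 • dl τ Φ (yv τ Φ s p.2))) volume :=
    hir.smul_prod (integrable_wt_dl hτ hs s a)
  have hi3 : Integrable (fun p : (((s' \ s : Finset ι) : Type _) → ℝ) × (s → ℝ) =>
        (∏ b, rho (p.1 b)) * (|wt a p.2| * S)) volume :=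
    hir.mul_prod ((integrable_wt a).abs.mul_const S)
  have h3 : ∫ p : (((s' \ s : Finset ι) : Type _) → ℝ) × (s → ℝ),
        (∏ b, rho (p.1 b)) * (|wt a p.2| * S) ≤ 2 * S := by
    have := integral_prod_mul (μ := (volume : Measure (((s' \ s : Finset ι) : Type _) → ℝ)))
      (ν := (volume : Measure (s → ℝ))) (fun y => ∏ b, rho (y b)) (fun x => |wt a x| * S)
    rw [hr1, one_mul, integral_mul_const] at this
    calc _ = (∫ x : s → ℝ, |wt a x|) * S := this
      _ ≤ 2 * S := mul_le_mul_of_nonneg_right (integral_abs_wt_le a) hS0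
  have h4 : ‖(∫ t : s' → ℝ, wt (⟨g, hss hg⟩ : s') t • dl τ Φ (yv τ Φ s' t)) -
      ∫ t : s → ℝ, wt a t • dl τ Φ (yv τ Φ s t)‖ ≤ 2 * S := by
    rw [h1, h2, ← integral_sub hi1 hi2]
    refine (norm_integral_le_of_norm_le hi3 (Filter.Eventually.of_forall fun p => ?_)).trans h3
    have hrn : 0 ≤ ∏ b, rho (p.1 b) := Finset.prod_nonneg fun b _ => rho_nonneg _
    by_cases hz : (∏ b, rho (p.1 b)) * wt a p.2 = 0
    · have hz' : (∏ b, rho (p.1 b)) • (wt a p.2 • dl τ Φ (yv τ Φ s p.2)) = 0 := by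
        rw [smul_smul, hz, zero_smul]
      rw [hz, zero_smul, hz', sub_zero, norm_zero]
      positivity
    have hz1 : ∀ h, |spl_h48 e p h| ≤ 1 := by
      by_contra hc
      exact hz (by rw [← wt_spl_h48 e a p]; exact wt_eq_zero _ hc)
    have hz2 : ∀ h, |p.2 h| ≤ 1 := fun h => by
      have := hz1 (e (Sum.inr h)); rwa [spl_h48_inr] at this
    have hz3 : ∀ b, |p.1 b| ≤ 1 := fun b => by
      have := hz1 (e (Sum.inl b)); rwa [spl_h48_inl] at this
    have m1 := yv_mem τ Φ s' (spl_h48 e p) hz1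
    have m2 := yv_mem τ Φ s p.2 hz2
    rw [smul_smul, ← smul_sub, norm_smul, norm_mul, Real.norm_of_nonneg hrn, Real.norm_eq_abs, mul_assoc]
    refine mul_le_mul_of_nonneg_left (mul_le_mul_of_nonneg_left ?_ (abs_nonneg _)) hrn
    refine (norm_dl_sub_le τ Φ m1 m2).trans ?_
    rw [yv_spl_h48, add_sub_cancel_right]
    have k1 : ‖∑ b : (s' \ s : Finset ι), (p.1 b * τ b) • Φ b‖ ≤ ∑ h ∈ s' \ s, τ h * ‖Φ h‖ := by
      rw [← Finset.sum_coe_sort (s' \ s) (fun h => τ h * ‖Φ h‖)]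
      refine (norm_sum_le _ _).trans (Finset.sum_le_sum fun b _ => ?_)
      rw [norm_smul, norm_mul, Real.norm_eq_abs, Real.norm_eq_abs, abs_of_pos (hτ b)]
      have := hz3 b
      have h5 := (hτ b).le
      calc |p.1 b| * τ b * ‖Φ b‖ ≤ 1 * τ b * ‖Φ b‖ := by gcongr
        _ = _ := by ring
    refine (Real.rpow_le_rpow (norm_nonneg _) k1 al_pos.le).trans ?_
    exact rpow_sum_le_h48 _ _ fun h _ => by have := hτ h; positivity
  calc (τ g)⁻¹ * _ ≤ (τ g)⁻¹ * (2 * S) := mul_le_mul_of_nonneg_left h4 (by have := hτ g; positivity)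
    _ = _ := by ring

theorem lift {τ : ι → ℝ} (hτ : ∀ g, 0 < τ g) {Φ : ι → E}
    (hs : Summable fun g => (τ g * ‖Φ g‖) ^ al) :
    ∃ μ : ι → FC τ Φ,
      (∀ g, ‖μ g‖ ≤ 2 * (τ g) ^ (al - 1) * ‖Φ g‖ ^ al) ∧
      (∀ c : ι →₀ ℝ, (c.sum fun g r => r • Φ g) = 0 → (c.sum fun g r => r • μ g) = 0) ∧
      (∀ (ψ : E →L[ℝ] ℝ) (f : Lip0 (Snow (cube τ Φ)) (bpt τ Φ)), (∀ x, f x = ψ x.pt) →
        ∀ g, evL f (μ g) = ψ (Φ g)) := by
  classical
  have hcau : ∀ g, CauchySeq (fun s : Finset ι => mu τ Φ s g) := by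
    intro g
    rw [Metric.cauchySeq_iff']
    intro ε hε
    have hg := hτ g
    obtain ⟨N, hN⟩ := summable_iff_vanishing_norm.1 hs (ε * τ g / 2) (by positivity)
    refine ⟨insert g N, fun s hsN => ?_⟩
    have hgs : g ∈ insert g N := Finset.mem_insert_self _ _
    have h1 := mu_sub hτ hs (s := insert g N) (s' := s) hsN hgs
    have h2 := hN (s \ insert g N) (by
      rw [Finset.disjoint_left]
      intro x hx hxN
      exact (Finset.mem_sdiff.1 hx).2 (Finset.mem_insert_of_mem hxN))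
    rw [dist_eq_norm]
    refine h1.trans_lt ?_
    have h3 : ∑ h ∈ s \ insert g N, (τ h * ‖Φ h‖) ^ al < ε * τ g / 2 := (le_abs_self _).trans_lt h2
    calc 2 * (τ g)⁻¹ * ∑ h ∈ s \ insert g N, (τ h * ‖Φ h‖) ^ al < 2 * (τ g)⁻¹ * (ε * τ g / 2) :=
          mul_lt_mul_of_pos_left h3 (by positivity)
      _ = ε := by field_simp
  choose μ hμ using fun g => cauchySeq_tendsto_of_complete (hcau g)
  refine ⟨μ, fun g => ?_, fun c hc => ?_, fun ψ f hf g => ?_⟩
  · exact le_of_tendsto (hμ g).norm (Filter.Eventually.of_forall fun s => norm_mu_le hτ hs s g)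
  · have h1 : Filter.Tendsto (fun s : Finset ι => ∑ g ∈ c.support, c g • mu τ Φ s g) Filter.atTop
        (nhds (∑ g ∈ c.support, c g • μ g)) :=
      tendsto_finsetSum _ fun g _ => (hμ g).const_smul (c g)
    have h2 : ∀ᶠ s : Finset ι in Filter.atTop, ∑ g ∈ c.support, c g • mu τ Φ s g = 0 := by
      filter_upwards [Filter.eventually_ge_atTop c.support] with s hcs
      have h3 : ∑ g ∈ s, c g • Φ g = 0 := by
        rw [← hc, Finsupp.sum]
        refine (Finset.sum_subset hcs fun x _ hx => ?_).symm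
        rw [Finsupp.notMem_support_iff.1 hx, zero_smul]
      rw [← mu_rel hτ hs s c h3]
      refine Finset.sum_subset hcs fun x _ hx => ?_
      rw [Finsupp.notMem_support_iff.1 hx, zero_smul]
    have h4 : Filter.Tendsto (fun s : Finset ι => ∑ g ∈ c.support, c g • mu τ Φ s g) Filter.atTop
        (nhds 0) := tendsto_const_nhds.congr' (h2.mono fun s h => h.symm)
    rw [Finsupp.sum]
    exact tendsto_nhds_unique h1 h4
  · have h1 : Filter.Tendsto (fun s : Finset ι => evL f (mu τ Φ s g)) Filter.atTop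
        (nhds (evL f (μ g))) := ((evL f).continuous.tendsto _).comp (hμ g)
    have h2 : ∀ᶠ s : Finset ι in Filter.atTop, evL f (mu τ Φ s g) = ψ (Φ g) := by
      filter_upwards [Filter.eventually_ge_atTop ({g} : Finset ι)] with s hgs
      exact mu_coord hτ hs ψ f hf s g (Finset.singleton_subset_iff.1 hgs)
    exact tendsto_nhds_unique h1 (tendsto_const_nhds.congr' (h2.mono fun s h => h.symm))

theorem cube_subset {τ : ι → ℝ} (hτ : ∀ g, 0 < τ g) {Φ : ι → E}
    (hs : Summable fun g => (τ g * ‖Φ g‖) ^ al) :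
    cube τ Φ ⊆ (Submodule.span ℝ (Set.range Φ)).topologicalClosure := by
  rintro x ⟨t, ht, rfl⟩
  have hmem : ∀ g, (t g * τ g) • Φ g ∈ (Submodule.span ℝ (Set.range Φ)).topologicalClosure := fun g =>
    Submodule.smul_mem _ _ (Submodule.le_topologicalClosure _ (Submodule.subset_span ⟨g, rfl⟩))
  by_cases hsum : Summable fun g => (t g * τ g) • Φ g
  · exact (Submodule.isClosed_topologicalClosure _).mem_of_tendsto hsum.hasSum
      (Filter.Eventually.of_forall fun s => Submodule.sum_mem _ fun g _ => hmem g)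
  · rw [tsum_eq_zero_of_not_summable hsum]
    exact Submodule.zero_mem _

end Pool.Agent.Helper25.SC
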