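import Pool.Agent.Helper25.SC.LDef

/-!
# Block SC-LR: one-variable facts about `rho`

`rho t = (15/16) (1 - t²)²` and `rho' t = - (15/4) t (1 - t²)` on `(-1, 1)`, both `0` outside (also at `±1`, where the polynomials
vanish). Both are continuous; `rho` is differentiable everywhere with derivative `rho'` (at `±1` the one-sided derivatives
are `0`: e.g. `rho t = (15/16) * (max 0 (1 - t²))²`, or squeeze `|rho t| ≤ (15/16) * 16 * (t ∓ 1)²` near `±1`).
Integrals: reduce to `∫ t in (-1)..1` of polynomials (`setIntegral` over `Ioo (-1) 1`, `intervalIntegral`, `integral_pow`/`norm_num`).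
`∫ rho = (15/16)(2 - 4/3 + 2/5) = 1`; `∫ rho' = 0` (odd); `∫ - rho' t * t = (15/4) ∫_{-1}^1 (t² - t⁴) = (15/4)(2/3 - 2/5) = 1`;
`∫ |rho'| = 2 (15/4) ∫_0^1 (t - t³) = 15/8 ≤ 2`.
-/

set_option autoImplicit false
set_option maxSynthPendingDepth 3

namespace Pool.Agent.Helper25.SC

open MeasureTheory

theorem sq_le_one57 {t : ℝ} (h : |t| < 1) : t ^ 2 < 1 := by
  have := abs_lt.1 h
  nlinarith [this.1, this.2]

theorem one_le_sq57 {t : ℝ} (h : 1 ≤ |t|) : 1 ≤ t ^ 2 := by
  rw [← sq_abs]
  nlinarith [abs_nonneg t]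

theorem rho_nonneg (t : ℝ) : 0 ≤ rho t := by
  unfold rho
  split_ifs
  · positivity
  · exact le_rfl

theorem rho_le_one (t : ℝ) : rho t ≤ 1 := by
  unfold rho
  split_ifs with h
  · have h1 := sq_le_one57 h
    nlinarith [sq_nonneg t]
  · norm_num

theorem abs_rho'_le (t : ℝ) : |rho' t| ≤ 4 := by
  unfold rho'
  split_ifs with h
  · have h1 := sq_le_one57 h
    have h2 : 0 ≤ 1 - t ^ 2 := by linarith
    have h3 : 1 - t ^ 2 ≤ 1 := by nlinarith [sq_nonneg t]
    rw [abs_neg, abs_mul, abs_mul, abs_of_nonneg h2]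
    have h4 : |(15 / 4 : ℝ)| = 15 / 4 := by norm_num
    rw [h4]
    have h5 : |t| * (1 - t ^ 2) ≤ 1 * 1 := mul_le_mul h.le h3 h2 (by norm_num)
    nlinarith
  · simp

theorem rho_eq_zero {t : ℝ} (h : 1 ≤ |t|) : rho t = 0 := by
  unfold rho
  rw [if_neg (not_lt.2 h)]

theorem rho'_eq_zero {t : ℝ} (h : 1 ≤ |t|) : rho' t = 0 := by
  unfold rho'
  rw [if_neg (not_lt.2 h)]

theorem rho_neg (t : ℝ) : rho (-t) = rho t := by
  unfold rho
  rw [abs_neg, neg_sq]

theorem rho'_neg (t : ℝ) : rho' (-t) = -rho' t := by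
  unfold rho'
  rw [abs_neg]
  split_ifs
  · ring
  · simp

theorem rho_eq_max57 (t : ℝ) : rho t = 15 / 16 * (max 0 (1 - t ^ 2)) ^ 2 := by
  unfold rho
  split_ifs with h
  · have h1 := sq_le_one57 h
    rw [max_eq_right (by linarith)]
  · have h1 := one_le_sq57 (not_lt.1 h)
    rw [max_eq_left (by linarith)]
    norm_num

theorem rho'_eq_max57 (t : ℝ) : rho' t = -(15 / 4 * t * max 0 (1 - t ^ 2)) := by
  unfold rho'
  split_ifs with h
  · have h1 := sq_le_one57 h
    rw [max_eq_right (by linarith)]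
  · have h1 := one_le_sq57 (not_lt.1 h)
    rw [max_eq_left (by linarith)]
    norm_num

theorem continuous_rho : Continuous rho := by
  have h : rho = fun t => 15 / 16 * (max 0 (1 - t ^ 2)) ^ 2 := funext rho_eq_max57
  rw [h]
  fun_prop

theorem continuous_rho' : Continuous rho' := by
  have h : rho' = fun t => -(15 / 4 * t * max 0 (1 - t ^ 2)) := funext rho'_eq_max57
  rw [h]
  fun_prop

theorem hasDerivAt_maxsq57 (x : ℝ) : HasDerivAt (fun y : ℝ => (max 0 y) ^ 2) (2 * max 0 x) x := by
  rcases lt_trichotomy x 0 with hx | hx | hx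
  · rw [max_eq_left hx.le, mul_zero]
    have h1 : HasDerivAt (fun _ : ℝ => (0 : ℝ)) 0 x := hasDerivAt_const x 0
    refine h1.congr_of_eventuallyEq ?_
    filter_upwards [gt_mem_nhds hx] with y hy
    rw [max_eq_left hy.le]
    norm_num
  · subst hx
    rw [max_eq_left le_rfl, mul_zero]
    have h1 : HasFDerivAt (fun y : ℝ => (max 0 y) ^ 2) (0 : ℝ →L[ℝ] ℝ) 0 := by
      refine Asymptotics.IsBigO.hasFDerivAt (n := 2) ?_ (by norm_num)
      refine Asymptotics.IsBigO.of_bound 1 (Filter.Eventually.of_forall fun y => ?_)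
      rw [one_mul, sub_zero, norm_pow, norm_pow, norm_norm]
      refine pow_le_pow_left₀ (norm_nonneg _) ?_ 2
      rw [Real.norm_eq_abs, Real.norm_eq_abs, abs_of_nonneg (le_max_left _ _)]
      exact max_le (abs_nonneg _) (le_abs_self _)
    have h2 := h1.hasDerivAt
    simpa using h2
  · rw [max_eq_right hx.le]
    have h1 : HasDerivAt (fun y : ℝ => y ^ 2) (2 * x) x := by
      have := hasDerivAt_pow 2 x
      simpa using this
    refine h1.congr_of_eventuallyEq ?_
    filter_upwards [lt_mem_nhds hx] with y hy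
    rw [max_eq_right hy.le]

theorem hasDerivAt_rho (t : ℝ) : HasDerivAt rho (rho' t) t := by
  have h : rho = fun t => 15 / 16 * (max 0 (1 - t ^ 2)) ^ 2 := funext rho_eq_max57
  rw [h, rho'_eq_max57]
  have h1 : HasDerivAt (fun s : ℝ => 1 - s ^ 2) (-(2 * t)) t := by
    have := (hasDerivAt_pow 2 t).const_sub 1
    simpa using this
  have h2 := (hasDerivAt_maxsq57 (1 - t ^ 2)).comp t h1
  have h3 := h2.const_mul (15 / 16 : ℝ)
  refine (h3.congr_deriv ?_)
  ring

theorem integral_reduce57 (f : ℝ → ℝ) (hf : ∀ t, 1 ≤ |t| → f t = 0) :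
    ∫ t, f t = ∫ t in (-1 : ℝ)..1, f t := by
  rw [intervalIntegral.integral_of_le (by norm_num), integral_Ioc_eq_integral_Ioo]
  rw [setIntegral_eq_integral_of_forall_compl_eq_zero]
  intro t ht
  apply hf
  by_contra h
  exact ht (abs_lt.1 (not_le.1 h))

theorem integral_rho : ∫ t, rho t = 1 := by
  rw [integral_reduce57 rho (fun t ht => rho_eq_zero ht)]
  have h : ∫ t in (-1 : ℝ)..1, rho t = ∫ t in (-1 : ℝ)..1, (15 / 16 * (1 - 2 * t ^ 2 + t ^ 4)) := by
    refine intervalIntegral.integral_congr fun t ht => ?_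
    rw [Set.uIcc_of_le (by norm_num)] at ht
    have h1 : 0 ≤ 1 - t ^ 2 := by nlinarith [ht.1, ht.2]
    show rho t = _
    rw [rho_eq_max57, max_eq_right h1]
    ring
  rw [h, intervalIntegral.integral_const_mul, intervalIntegral.integral_add, intervalIntegral.integral_sub,
    intervalIntegral.integral_const_mul, integral_pow, integral_pow, intervalIntegral.integral_const]
  · norm_num
  all_goals exact Continuous.intervalIntegrable (by fun_prop) _ _

theorem integral_rho' : ∫ t, rho' t = 0 := by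
  have h : ∫ t, rho' t = -∫ t, rho' t := by
    conv_lhs => rw [← integral_neg_eq_self]
    rw [← integral_neg]
    refine integral_congr_ae (Filter.Eventually.of_forall fun t => ?_)
    exact rho'_neg t
  linarith

theorem integral_rho'_mul : ∫ t, -rho' t * t = 1 := by
  rw [integral_reduce57 (fun t => -rho' t * t) (fun t ht => by simp [rho'_eq_zero ht])]
  have h : ∫ t in (-1 : ℝ)..1, -rho' t * t = ∫ t in (-1 : ℝ)..1, (15 / 4 * (t ^ 2 - t ^ 4)) := by
    refine intervalIntegral.integral_congr fun t ht => ?_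
    rw [Set.uIcc_of_le (by norm_num)] at ht
    have h1 : 0 ≤ 1 - t ^ 2 := by nlinarith [ht.1, ht.2]
    show -rho' t * t = _
    rw [rho'_eq_max57, max_eq_right h1]
    ring
  rw [h, intervalIntegral.integral_const_mul, intervalIntegral.integral_sub, integral_pow, integral_pow]
  · norm_num
  all_goals exact Continuous.intervalIntegrable (by fun_prop) _ _

theorem integral_abs_rho'_le : ∫ t, |rho' t| ≤ 2 := by
  rw [integral_reduce57 (fun t => |rho' t|) (fun t ht => by simp [rho'_eq_zero ht])]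
  have hc : Continuous (fun t => |rho' t|) := continuous_rho'.abs
  rw [← intervalIntegral.integral_add_adjacent_intervals (b := 0) (hc.intervalIntegrable _ _)
    (hc.intervalIntegrable _ _)]
  have h1 : ∫ t in (-1 : ℝ)..0, |rho' t| = ∫ t in (-1 : ℝ)..0, (15 / 4 * (t ^ 3 - t ^ 1)) := by
    refine intervalIntegral.integral_congr fun t ht => ?_
    rw [Set.uIcc_of_le (by norm_num)] at ht
    have h1 : 0 ≤ 1 - t ^ 2 := by nlinarith [ht.1, ht.2]
    show |rho' t| = _
    rw [rho'_eq_max57, max_eq_right h1, abs_neg, abs_of_nonpos]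
    · ring
    · nlinarith [mul_nonneg (neg_nonneg.2 ht.2) h1]
  have h2 : ∫ t in (0 : ℝ)..1, |rho' t| = ∫ t in (0 : ℝ)..1, (15 / 4 * (t ^ 1 - t ^ 3)) := by
    refine intervalIntegral.integral_congr fun t ht => ?_
    rw [Set.uIcc_of_le (by norm_num)] at ht
    have h1 : 0 ≤ 1 - t ^ 2 := by nlinarith [ht.1, ht.2]
    show |rho' t| = _
    rw [rho'_eq_max57, max_eq_right h1, abs_neg, abs_of_nonneg]
    · ring
    · nlinarith [mul_nonneg ht.1 h1]
  rw [h1, h2, intervalIntegral.integral_const_mul, intervalIntegral.integral_const_mul,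
    intervalIntegral.integral_sub, intervalIntegral.integral_sub, integral_pow, integral_pow,
    integral_pow, integral_pow]
  · norm_num
  all_goals exact Continuous.intervalIntegrable (by fun_prop) _ _

theorem integrable_rho : Integrable rho := by
  refine continuous_rho.integrable_of_hasCompactSupport ?_
  refine HasCompactSupport.intro (isCompact_Icc (a := (-1 : ℝ)) (b := 1)) fun t ht => rho_eq_zero ?_
  by_contra h
  have := abs_lt.1 (not_le.1 h)
  exact ht ⟨this.1.le, this.2.le⟩

theorem integrable_rho' : Integrable rho' := by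
  refine continuous_rho'.integrable_of_hasCompactSupport ?_
  refine HasCompactSupport.intro (isCompact_Icc (a := (-1 : ℝ)) (b := 1)) fun t ht => rho'_eq_zero ?_
  by_contra h
  have := abs_lt.1 (not_le.1 h)
  exact ht ⟨this.1.le, this.2.le⟩

end Pool.Agent.Helper25.SC
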