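import Pool.Agent.Helper25.SC.Defs

/-!
# A countable norming family, coordinates and the barycenter map
-/

set_option autoImplicit false
set_option maxSynthPendingDepth 3

namespace Pool.Agent.Helper25.SC

open Filter Topology
open scoped ENNReal

theorem exists_norming {E : Type*} [NormedAddCommGroup E] [NormedSpace ℝ E]
    [TopologicalSpace.SeparableSpace E] :
    ∃ y : ℕ → ((E →L[ℝ] ℝ) →L[ℝ] ℝ), (∀ i, ‖y i‖ ≤ 1) ∧
      ∀ φ : E →L[ℝ] ℝ, ∃ i, ‖φ‖ / 2 ≤ y i φ := by
  set d := TopologicalSpace.denseSeq E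
  have hmax : ∀ i, 0 < max 1 ‖d i‖ := fun i => lt_of_lt_of_le one_pos (le_max_left _ _)
  refine ⟨fun i => ContinuousLinearMap.apply ℝ ℝ ((max 1 ‖d i‖)⁻¹ • d i), fun i => ?_, fun φ => ?_⟩
  · refine ContinuousLinearMap.opNorm_le_bound _ zero_le_one fun φ => ?_
    rw [ContinuousLinearMap.apply_apply]
    calc ‖φ ((max 1 ‖d i‖)⁻¹ • d i)‖ ≤ ‖φ‖ * ‖(max 1 ‖d i‖)⁻¹ • d i‖ := φ.le_opNorm _
      _ ≤ ‖φ‖ * 1 := by
        refine mul_le_mul_of_nonneg_left ?_ (norm_nonneg φ)
        rw [norm_smul, norm_inv, Real.norm_eq_abs, abs_of_pos (hmax i), inv_mul_le_iff₀ (hmax i),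
          mul_one]
        exact le_max_right _ _
      _ = 1 * ‖φ‖ := by ring
  · rcases eq_or_ne φ 0 with rfl | hφ
    · exact ⟨0, by simp⟩
    · have h1 : ‖φ‖ / 2 < ‖φ‖ := half_lt_self (norm_pos_iff.2 hφ)
      obtain ⟨x, hx1, hx2⟩ := φ.exists_lt_apply_of_lt_opNorm h1
      have h2 : ∃ x : E, ‖x‖ < 1 ∧ ‖φ‖ / 2 < φ x := by
        rcases le_total 0 (φ x) with h | h
        · exact ⟨x, hx1, by rwa [Real.norm_of_nonneg h] at hx2⟩
        · refine ⟨-x, by rwa [norm_neg], ?_⟩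
          rw [map_neg]
          rwa [Real.norm_of_nonpos h] at hx2
      obtain ⟨x, hx1, hx2⟩ := h2
      have ho : IsOpen {x : E | ‖x‖ < 1 ∧ ‖φ‖ / 2 < φ x} :=
        (isOpen_lt continuous_norm continuous_const).inter
          (isOpen_lt continuous_const φ.continuous)
      obtain ⟨_, ⟨hi1, hi2⟩, i, rfl⟩ := (TopologicalSpace.denseRange_denseSeq E).inter_open_nonempty
        _ ho ⟨x, hx1, hx2⟩
      refine ⟨i, ?_⟩
      rw [ContinuousLinearMap.apply_apply]
      have h3 : max 1 ‖d i‖ = 1 := max_eq_left hi1.le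
      rw [h3, inv_one, one_smul]
      exact hi2.le

/-- The restriction of a continuous functional to the snowflake of a bounded set. -/
theorem exists_coord {E : Type*} [NormedAddCommGroup E] [NormedSpace ℝ E] {K : Set E}
    (hK : Bornology.IsBounded K) (o : Snow K) (ho : (o.pt : E) = 0) (ψ : E →L[ℝ] ℝ) :
    ∃ f : Lip0 (Snow K) o, (∀ x, f x = ψ x.pt) ∧ ‖f‖ ≤ ‖ψ‖ * Metric.diam K ^ (1 - al) := by
  have key : ∀ x y : Snow K, |ψ x.pt - ψ y.pt| ≤ ‖ψ‖ * Metric.diam K ^ (1 - al) * dist x y := by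
    intro x y
    have h1 : |ψ x.pt - ψ y.pt| ≤ ‖ψ‖ * dist (x.pt : E) y.pt := by
      rw [← map_sub, dist_eq_norm, ← Real.norm_eq_abs]
      exact ψ.le_opNorm _
    refine h1.trans ?_
    rw [mul_assoc]
    refine mul_le_mul_of_nonneg_left ?_ (norm_nonneg ψ)
    rw [snow_dist, Subtype.dist_eq]
    rcases eq_or_lt_of_le (dist_nonneg (x := (x.pt : E)) (y := y.pt)) with h | h
    · rw [← h]
      exact mul_nonneg (Real.rpow_nonneg Metric.diam_nonneg _) (Real.rpow_nonneg le_rfl _)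
    · calc dist (x.pt : E) y.pt = dist (x.pt : E) y.pt ^ (1 - al) * dist (x.pt : E) y.pt ^ al := by
            rw [← Real.rpow_add h, sub_add_cancel, Real.rpow_one]
        _ ≤ Metric.diam K ^ (1 - al) * dist (x.pt : E) y.pt ^ al := by
            refine mul_le_mul_of_nonneg_right ?_ (Real.rpow_nonneg h.le _)
            exact Real.rpow_le_rpow h.le (Metric.dist_le_diam_of_mem hK x.pt.2 y.pt.2)
              (sub_nonneg.2 al_le_one)
  refine ⟨⟨fun x => ψ x.pt, ?_, ‖ψ‖ * Metric.diam K ^ (1 - al), key⟩, fun x => rfl, ?_⟩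
  · change ψ (o.pt : E) = 0
    rw [ho, map_zero]
  · exact Lip0.norm_le (mul_nonneg (norm_nonneg ψ) (Real.rpow_nonneg Metric.diam_nonneg _)) key

/-- The coordinate functional on `ℓ_∞(G)`. -/
noncomputable def crd {G : Type*} (g : G) : lp (fun _ : G => ℝ) ∞ →L[ℝ] ℝ :=
  LinearMap.mkContinuous
    { toFun := fun w => w g
      map_add' := fun _ _ => rfl
      map_smul' := fun _ _ => rfl } 1 fun w => by
    rw [one_mul]
    exact lp.norm_apply_le_norm (by simp) w g

@[simp] theorem crd_apply {G : Type*} (g : G) (w : lp (fun _ : G => ℝ) ∞) : crd g w = w g := rfl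

theorem norm_crd_le {G : Type*} (g : G) : ‖crd g‖ ≤ 1 :=
  LinearMap.mkContinuous_norm_le _ zero_le_one _

/-- The barycenter map. -/
theorem exists_bary {G : Type*} (D : Submodule ℝ (lp (fun _ : G => ℝ) ∞))
    (hD : IsClosed (D : Set (lp (fun _ : G => ℝ) ∞))) {K : Set (lp (fun _ : G => ℝ) ∞)}
    (hK : Bornology.IsBounded K) (hKD : K ⊆ D) (o : Snow K) (ho : (o.pt : lp (fun _ : G => ℝ) ∞) = 0) :
    ∃ β : Free (Snow K) o →L[ℝ] D, ∀ (g : G) (f : Lip0 (Snow K) o),
      (∀ x, f x = crd g (x.pt : lp (fun _ : G => ℝ) ∞)) → ∀ ν, (β ν : lp (fun _ : G => ℝ) ∞) g = evL f ν := by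
  choose f hf hfn using fun g : G => exists_coord hK o ho (crd g)
  set C : ℝ := Metric.diam K ^ (1 - al) with hC
  have hC0 : 0 ≤ C := Real.rpow_nonneg Metric.diam_nonneg _
  have hfC : ∀ g, ‖f g‖ ≤ C := fun g => (hfn g).trans (by
    calc ‖(crd g : lp (fun _ : G => ℝ) ∞ →L[ℝ] ℝ)‖ * C ≤ 1 * C :=
          mul_le_mul_of_nonneg_right (norm_crd_le g) hC0
      _ = C := one_mul C)
  have hb : ∀ (ν : Free (Snow K) o) (g : G), ‖evL (f g) ν‖ ≤ C * ‖ν‖ := fun ν g =>
    (abs_evL_le (f g) ν).trans (mul_le_mul_of_nonneg_right (hfC g) (norm_nonneg ν))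
  let β₀ : Free (Snow K) o →L[ℝ] lp (fun _ : G => ℝ) ∞ :=
    LinearMap.mkContinuous
      { toFun := fun ν => ⟨fun g => evL (f g) ν, memℓp_infty ⟨C * ‖ν‖, by
          rintro _ ⟨g, rfl⟩
          exact hb ν g⟩⟩
        map_add' := fun a b => by
          apply Subtype.ext
          funext g
          exact map_add (evL (f g)) a b
        map_smul' := fun c a => by
          apply Subtype.ext
          funext g
          exact map_smul (evL (f g)) c a } C fun ν =>
      lp.norm_le_of_forall_le (mul_nonneg hC0 (norm_nonneg ν)) fun g => hb ν g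
  have hβ₀ : ∀ ν g, (β₀ ν : lp (fun _ : G => ℝ) ∞) g = evL (f g) ν := fun ν g => rfl
  have hmem : ∀ ν, β₀ ν ∈ D := by
    intro ν
    refine Free.induction (p := fun ν => β₀ ν ∈ D) ?_ ?_ ?_ ?_ ?_ ν
    · rw [map_zero]
      exact D.zero_mem
    · intro x
      have h : β₀ (dlt o x) = (x.pt : lp (fun _ : G => ℝ) ∞) := by
        apply Subtype.ext
        funext g
        change evL (f g) (dlt o x) = _
        rw [evL_apply, dlt_coe, delta_apply, hf g x, crd_apply]
      rw [h]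
      exact hKD x.pt.2
    · intro a b ha hb'
      rw [map_add]
      exact D.add_mem ha hb'
    · intro c a ha
      rw [map_smul]
      exact D.smul_mem c ha
    · exact hD.preimage β₀.continuous
  refine ⟨β₀.codRestrict D hmem, fun g f' hf' ν => ?_⟩
  have h : f' = f g := Lip0.ext fun x => by rw [hf' x, hf g x]
  rw [h]
  exact hβ₀ ν g

end Pool.Agent.Helper25.SC
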