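import Pool.Agent.Helper25.SC.Defs

/-!
# Block SC-T: a tensor product which is not Schur

For `k ∈ ℕ` let `z k = ∑' g, tm (μ g) (i k (η g)) ∈ Proj F X` (absolutely convergent: `‖tm μ x‖ ≤ ‖μ‖ ‖x‖`, `norm_tmul_le`).
* Every continuous functional `Λ` on `Proj F X` gives a bounded bilinear form `B μ x = Λ (tm μ x)` (bilinear because
  `tmul` is; `|B μ x| ≤ ‖Λ‖ ‖μ‖ ‖x‖`, `LinearMap.mkContinuous₂`), and `Λ (z k) = ∑' g, B (μ g) (i k (η g))` (continuity of `Λ`).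
* Weakly null: for signs `ε` and `n`, with `r`, `Dv` from `hex`:
  `∑_{k<n} ε k * Λ (z k) = ∑' g, B (μ g) (∑_{k<n} ε k • i k (η g) + ∑_{k<n} r k (η g) • Dv k) - ∑_{k<n} ∑' g, r k (η g) * B (μ g) (Dv k)`
  and the last sums vanish by `hz` with `f = B.flip (Dv k)`. So `|∑_{k<n} ε k * Λ (z k)| ≤ 2 ‖B‖ ∑' g, ‖μ g‖ ‖η g‖` for all signs,
  hence `∑_{k<n} |Λ (z k)|` is bounded in `n` (`ε k` = sign), so `Λ (z k) → 0`.
* Not norm null: the bilinear form `B_k μ x = B₁ μ (v k x)` has norm `≤ ‖B₁‖`, and `z k` (a functional on bilinear forms) has the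
  value `∑' g, B₁ (μ g) (η g) ≠ 0` at `B_k` (evaluation at `B_k` is continuous), so `‖z k‖ ‖B₁‖ ≥ |∑' g, B₁ (μ g) (η g)| > 0`.
So `z` is weakly null, but does not tend to `0` in norm.
-/

set_option autoImplicit false
set_option maxSynthPendingDepth 3

namespace Pool.Agent.Helper25.SC

open Filter Topology

section h38

variable {F X : Type*} [NormedAddCommGroup F] [NormedSpace ℝ F] [NormedAddCommGroup X] [NormedSpace ℝ X]

theorem tm_add_left38 (μ ν : F) (x : X) : tm (μ + ν) x = tm μ x + tm ν x := by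
  apply Subtype.ext
  apply ContinuousLinearMap.ext
  intro B
  simp

theorem tm_smul_left38 (c : ℝ) (μ : F) (x : X) : tm (c • μ) x = c • tm μ x := by
  apply Subtype.ext
  apply ContinuousLinearMap.ext
  intro B
  simp

theorem tm_add_right38 (μ : F) (x y : X) : tm μ (x + y) = tm μ x + tm μ y := by
  apply Subtype.ext
  apply ContinuousLinearMap.ext
  intro B
  simp

theorem tm_smul_right38 (c : ℝ) (μ : F) (x : X) : tm μ (c • x) = c • tm μ x := by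
  apply Subtype.ext
  apply ContinuousLinearMap.ext
  intro B
  simp

theorem norm_tm_le38 (μ : F) (x : X) : ‖tm μ x‖ ≤ ‖μ‖ * ‖x‖ := norm_tmul_le μ x

end h38

/-- The argument in an abstract normed space `E` with a tensor map `tm`. -/
theorem not_schur_core38 {F X₁ X E : Type*} [NormedAddCommGroup F] [NormedSpace ℝ F]
    [NormedAddCommGroup X₁] [NormedSpace ℝ X₁] [NormedAddCommGroup X] [NormedSpace ℝ X]
    [NormedAddCommGroup E] [NormedSpace ℝ E] [CompleteSpace E] (tm : F → X → E)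
    (tal : ∀ μ ν x, tm (μ + ν) x = tm μ x + tm ν x) (tsl : ∀ (c : ℝ) μ x, tm (c • μ) x = c • tm μ x)
    (tar : ∀ μ x y, tm μ (x + y) = tm μ x + tm μ y) (tsr : ∀ (c : ℝ) μ x, tm μ (c • x) = c • tm μ x)
    (tn : ∀ μ x, ‖tm μ x‖ ≤ ‖μ‖ * ‖x‖)
    (ev : (F →L[ℝ] X →L[ℝ] ℝ) → E → ℝ) (ea : ∀ B y w, ev B (y + w) = ev B y + ev B w)
    (es : ∀ B (c : ℝ) y, ev B (c • y) = c * ev B y) (eb : ∀ B y, |ev B y| ≤ ‖B‖ * ‖y‖)
    (et : ∀ B μ x, ev B (tm μ x) = B μ x)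
    (i : ℕ → X₁ →L[ℝ] X) (v : ℕ → X →L[ℝ] X₁) (hvi : ∀ k x, v k (i k x) = x) (hv : ∀ k, ‖v k‖ ≤ 1)
    (hex : ∀ (n : ℕ) (ε : ℕ → ℝ), (∀ k, |ε k| ≤ 1) →
        ∃ (r : ℕ → X₁ →L[ℝ] ℝ) (Dv : ℕ → X), ∀ x : X₁,
          ‖∑ k ∈ Finset.range n, ε k • i k x + ∑ k ∈ Finset.range n, r k x • Dv k‖ ≤ 2 * ‖x‖)
    {G : Type*} (μ : G → F) (η : G → X₁) (hsum : Summable fun g => ‖μ g‖ * ‖η g‖)
    (hz : ∀ (r : X₁ →L[ℝ] ℝ) (f : F →L[ℝ] ℝ), ∑' g, r (η g) * f (μ g) = 0)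
    (B₁ : F →L[ℝ] X₁ →L[ℝ] ℝ) (hB : ∑' g, B₁ (μ g) (η g) ≠ 0) :
    ¬ Schur E := by
  intro hS
  set z : ℕ → E := fun k => ∑' g, tm (μ g) (i k (η g)) with hzdef
  have hzs : ∀ k, Summable (fun g => tm (μ g) (i k (η g))) := by
    intro k
    refine Summable.of_norm_bounded (hsum.mul_left ‖i k‖) fun g => ?_
    calc ‖tm (μ g) (i k (η g))‖ ≤ ‖μ g‖ * ‖i k (η g)‖ := tn _ _
      _ ≤ ‖μ g‖ * (‖i k‖ * ‖η g‖) := mul_le_mul_of_nonneg_left ((i k).le_opNorm _) (norm_nonneg _)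
      _ = ‖i k‖ * (‖μ g‖ * ‖η g‖) := by ring
  -- weakly null
  have hweak : ∀ Λ : E →L[ℝ] ℝ, Tendsto (fun n => Λ (z n)) atTop (𝓝 (Λ 0)) := by
    intro Λ
    set B : F →L[ℝ] X →L[ℝ] ℝ := LinearMap.mkContinuous₂ (LinearMap.mk₂ ℝ (fun (μ : F) (x : X) => Λ (tm μ x))
      (fun μ ν x => by simp only [tal, map_add])
      (fun c μ x => by simp only [tsl, map_smul])
      (fun μ x y => by simp only [tar, map_add])
      (fun c μ x => by simp only [tsr, map_smul])) ‖Λ‖ (fun μ x => by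
        rw [LinearMap.mk₂_apply]
        calc ‖Λ (tm μ x)‖ ≤ ‖Λ‖ * ‖tm μ x‖ := Λ.le_opNorm _
          _ ≤ ‖Λ‖ * (‖μ‖ * ‖x‖) := mul_le_mul_of_nonneg_left (tn μ x) (norm_nonneg _)
          _ = ‖Λ‖ * ‖μ‖ * ‖x‖ := by ring) with hBdef
    have hBb : ∀ m x, |B m x| ≤ ‖B‖ * ‖m‖ * ‖x‖ := fun m x => B.le_opNorm₂ m x
    have hΛz : ∀ k, Λ (z k) = ∑' g, B (μ g) (i k (η g)) := by
      intro k
      rw [hzdef]
      simp only
      rw [Λ.map_tsum (hzs k)]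
      rfl
    have hs1 : ∀ k, Summable (fun g => B (μ g) (i k (η g))) := fun k => (hzs k).map Λ Λ.continuous
    have hbound : ∀ (n : ℕ) (ε : ℕ → ℝ), (∀ k, |ε k| ≤ 1) →
        |∑ k ∈ Finset.range n, ε k * Λ (z k)| ≤ 2 * ‖B‖ * ∑' g, ‖μ g‖ * ‖η g‖ := by
      intro n ε hε
      obtain ⟨r, Dv, hr⟩ := hex n ε hε
      have hs2 : ∀ k, Summable (fun g => r k (η g) * B (μ g) (Dv k)) := by
        intro k
        refine Summable.of_norm_bounded (hsum.mul_left (‖r k‖ * ‖B‖ * ‖Dv k‖)) fun g => ?_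
        rw [norm_mul]
        calc ‖r k (η g)‖ * ‖B (μ g) (Dv k)‖ ≤ (‖r k‖ * ‖η g‖) * (‖B‖ * ‖μ g‖ * ‖Dv k‖) :=
              mul_le_mul ((r k).le_opNorm _) (hBb _ _) (norm_nonneg _) (by positivity)
          _ = ‖r k‖ * ‖B‖ * ‖Dv k‖ * (‖μ g‖ * ‖η g‖) := by ring
      have h0 : ∀ k, ∑' g, r k (η g) * B (μ g) (Dv k) = 0 := by
        intro k
        have := hz (r k) (B.flip (Dv k))
        simpa only [ContinuousLinearMap.flip_apply] using this
      have e1 : ∑ k ∈ Finset.range n, ε k * Λ (z k) =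
          ∑' g, B (μ g) (∑ k ∈ Finset.range n, ε k • i k (η g) + ∑ k ∈ Finset.range n, r k (η g) • Dv k) := by
        have e2 : ∀ g, B (μ g) (∑ k ∈ Finset.range n, ε k • i k (η g) + ∑ k ∈ Finset.range n, r k (η g) • Dv k) =
            ∑ k ∈ Finset.range n, (ε k * B (μ g) (i k (η g)) + r k (η g) * B (μ g) (Dv k)) := by
          intro g
          rw [map_add, map_sum, map_sum, ← Finset.sum_add_distrib]
          refine Finset.sum_congr rfl fun k _ => ?_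
          rw [map_smul, map_smul, smul_eq_mul, smul_eq_mul]
        simp only [e2]
        rw [Summable.tsum_finsetSum (fun k _ => ((hs1 k).mul_left _).add (hs2 k))]
        refine Finset.sum_congr rfl fun k _ => ?_
        rw [Summable.tsum_add ((hs1 k).mul_left _) (hs2 k), h0 k, add_zero, tsum_mul_left, hΛz k]
      rw [e1, ← Real.norm_eq_abs]
      have hb : ∀ g, ‖B (μ g) (∑ k ∈ Finset.range n, ε k • i k (η g) + ∑ k ∈ Finset.range n, r k (η g) • Dv k)‖ ≤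
          2 * ‖B‖ * (‖μ g‖ * ‖η g‖) := by
        intro g
        calc ‖B (μ g) (∑ k ∈ Finset.range n, ε k • i k (η g) + ∑ k ∈ Finset.range n, r k (η g) • Dv k)‖
            ≤ ‖B‖ * ‖μ g‖ * ‖∑ k ∈ Finset.range n, ε k • i k (η g) + ∑ k ∈ Finset.range n, r k (η g) • Dv k‖ := hBb _ _
          _ ≤ ‖B‖ * ‖μ g‖ * (2 * ‖η g‖) := mul_le_mul_of_nonneg_left (hr _) (by positivity)
          _ = 2 * ‖B‖ * (‖μ g‖ * ‖η g‖) := by ring
      refine (tsum_of_norm_bounded (hsum.mul_left (2 * ‖B‖)).hasSum hb).trans ?_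
      rw [tsum_mul_left]
    have hsummable : Summable (fun k => |Λ (z k)|) := by
      refine summable_of_sum_range_le (c := 2 * ‖B‖ * ∑' g, ‖μ g‖ * ‖η g‖) (fun k => abs_nonneg _) fun n => ?_
      have h1 := hbound n (fun k => SignType.sign (Λ (z k))) (fun k => by
        rcases lt_trichotomy (Λ (z k)) 0 with h | h | h
        · simp [sign_neg h]
        · simp [h]
        · simp [sign_pos h])
      have h2 : ∀ k, ((SignType.sign (Λ (z k)) : SignType) : ℝ) * Λ (z k) = |Λ (z k)| := fun k => sign_mul_self _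
      simp only [h2] at h1
      exact (le_abs_self _).trans h1
    have h3 := hsummable.tendsto_atTop_zero
    rw [map_zero]
    exact (tendsto_zero_iff_abs_tendsto_zero _).mpr h3
  have hconv := hS z 0 hweak
  -- not norm null
  set s : ℝ := ∑' g, B₁ (μ g) (η g) with hs
  have hlow : ∀ k, |s| ≤ ‖z k‖ * ‖B₁‖ := by
    intro k
    set Bk : F →L[ℝ] X →L[ℝ] ℝ := ((ContinuousLinearMap.compL ℝ X X₁ ℝ).flip (v k)).comp B₁ with hBk
    have hBkn : ‖Bk‖ ≤ ‖B₁‖ := by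
      refine ContinuousLinearMap.opNorm_le_bound _ (norm_nonneg _) fun m => ?_
      have : Bk m = (B₁ m).comp (v k) := rfl
      rw [this]
      calc ‖(B₁ m).comp (v k)‖ ≤ ‖B₁ m‖ * ‖v k‖ := ContinuousLinearMap.opNorm_comp_le _ _
        _ ≤ ‖B₁ m‖ * 1 := mul_le_mul_of_nonneg_left (hv k) (norm_nonneg _)
        _ ≤ ‖B₁‖ * ‖m‖ := by rw [mul_one]; exact B₁.le_opNorm m
    have hval : ev Bk (z k) = s := by
      set Ev : E →L[ℝ] ℝ := LinearMap.mkContinuous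
        { toFun := fun y => ev Bk y, map_add' := fun y w => ea Bk y w, map_smul' := fun c y => es Bk c y } ‖Bk‖
        (fun y => eb Bk y) with hE
      have h1 : ev Bk (z k) = Ev (z k) := rfl
      rw [h1, hzdef]
      simp only
      rw [Ev.map_tsum (hzs k), hs]
      refine tsum_congr fun g => ?_
      have h2 : Ev (tm (μ g) (i k (η g))) = ev Bk (tm (μ g) (i k (η g))) := rfl
      rw [h2, et]
      have h3 : Bk (μ g) (i k (η g)) = B₁ (μ g) (v k (i k (η g))) := rfl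
      rw [h3, hvi]
    rw [← hval]
    refine (eb _ _).trans ?_
    rw [mul_comm ‖z k‖]
    exact mul_le_mul_of_nonneg_right hBkn (norm_nonneg _)
  have hlim : Tendsto (fun k => ‖z k‖ * ‖B₁‖) atTop (𝓝 (0 * ‖B₁‖)) := by
    apply Tendsto.mul_const
    have := hconv.norm
    simpa using this
  rw [zero_mul] at hlim
  have h5 : |s| ≤ 0 := ge_of_tendsto' hlim hlow
  exact hB (abs_nonpos_iff.mp h5)

theorem not_schur_proj {F X₁ X : Type*} [NormedAddCommGroup F] [NormedSpace ℝ F] [CompleteSpace F]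
    [NormedAddCommGroup X₁] [NormedSpace ℝ X₁] [NormedAddCommGroup X] [NormedSpace ℝ X]
    (i : ℕ → X₁ →L[ℝ] X) (v : ℕ → X →L[ℝ] X₁) (hvi : ∀ k x, v k (i k x) = x) (hv : ∀ k, ‖v k‖ ≤ 1)
    (hex : ∀ (n : ℕ) (ε : ℕ → ℝ), (∀ k, |ε k| ≤ 1) →
        ∃ (r : ℕ → X₁ →L[ℝ] ℝ) (Dv : ℕ → X), ∀ x : X₁,
          ‖∑ k ∈ Finset.range n, ε k • i k x + ∑ k ∈ Finset.range n, r k x • Dv k‖ ≤ 2 * ‖x‖)
    {G : Type*} (μ : G → F) (η : G → X₁) (hsum : Summable fun g => ‖μ g‖ * ‖η g‖)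
    (hz : ∀ (r : X₁ →L[ℝ] ℝ) (f : F →L[ℝ] ℝ), ∑' g, r (η g) * f (μ g) = 0)
    (B₁ : F →L[ℝ] X₁ →L[ℝ] ℝ) (hB : ∑' g, B₁ (μ g) (η g) ≠ 0) :
    ¬ Schur (Proj F X) := by
  refine not_schur_core38 (E := Proj F X) tm tm_add_left38 tm_smul_left38 tm_add_right38 tm_smul_right38 norm_tm_le38
    (fun B y => (y : (F →L[ℝ] X →L[ℝ] ℝ) →L[ℝ] ℝ) B) (fun B y w => rfl) (fun B c y => rfl) (fun B y => ?_) (fun B μ x => rfl)
    i v hvi hv hex μ η hsum hz B₁ hB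
  rw [mul_comm]
  exact (y : (F →L[ℝ] X →L[ℝ] ℝ) →L[ℝ] ℝ).le_opNorm B

end Pool.Agent.Helper25.SC
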