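import Pool.Agent.Helper25.SC.MA
import Pool.Agent.Helper25.SC.DS
import Pool.Agent.Helper25.SC.FS2
import Pool.Agent.Helper25.SC.BDS2
import Pool.Agent.Helper25.SC.BDI
import Pool.Agent.Helper25.SC.Ten
import Pool.Agent.Helper25.SC.Dav1
import Pool.Agent.Helper25.SC.Dav2
import Pool.Agent.Helper25.SC.LQ

/-!
# Assembly
-/

set_option autoImplicit false
set_option maxSynthPendingDepth 6

namespace Pool.Agent.Helper25.SC

open Filter Topology
open scoped ENNReal

/-- The index set of the vectors `uv`. -/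
abbrev J := Σ k : ℕ, Gk (k + 1)

/-- Davie's space. -/
noncomputable def DD : Submodule ℝ (lp (fun _ : G => ℝ) ∞) :=
  (Submodule.span ℝ (Set.range fun p : J => uv p.1 p.2)).topologicalClosure

theorem isClosed_DD : IsClosed (DD : Set (lp (fun _ : G => ℝ) ∞)) :=
  Submodule.isClosed_topologicalClosure _

theorem uv_mem_DD (p : J) : uv p.1 p.2 ∈ DD :=
  Submodule.le_topologicalClosure _ (Submodule.subset_span ⟨p, rfl⟩)

theorem Phi_mem_DD (g : G) : Phi g ∈ DD :=
  Submodule.le_topologicalClosure _ (Phi_mem g)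

instance : TopologicalSpace.SeparableSpace DD := by
  have h1 : TopologicalSpace.IsSeparable (Set.range fun p : J => uv p.1 p.2) :=
    (Set.countable_range _).isSeparable
  have h2 : TopologicalSpace.IsSeparable (DD : Set (lp (fun _ : G => ℝ) ∞)) := by
    have : (DD : Set (lp (fun _ : G => ℝ) ∞)) =
        closure (Submodule.span ℝ (Set.range fun p : J => uv p.1 p.2) : Set _) := rfl
    rw [this]
    exact (h1.span (R := ℝ)).closure
  exact h2.separableSpace

theorem DD_vanish : ∀ w ∈ DD, ∀ ε : ℝ, 0 < ε → {g : G | ε < |w g|}.Finite := by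
  intro w hw ε hε
  have h1 : ∀ v ∈ Submodule.span ℝ (Set.range fun p : J => uv p.1 p.2),
      {g : G | v g ≠ 0}.Finite := by
    intro v hv
    refine Submodule.span_induction (p := fun v _ => {g : G | v g ≠ 0}.Finite) ?_ ?_ ?_ ?_ hv
    · rintro _ ⟨p, rfl⟩
      exact uv_finite p.1 p.2
    · simp
    · intro a b _ _ ha hb
      refine (ha.union hb).subset fun g hg => ?_
      rw [Set.mem_ofPred_eq, lp.coeFn_add, Pi.add_apply] at hg
      by_contra h
      rw [Set.mem_union, not_or] at h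
      simp only [Set.mem_ofPred_eq, not_not] at h
      rw [h.1, h.2, add_zero] at hg
      exact hg rfl
    · intro c a _ ha
      refine ha.subset fun g hg => ?_
      rw [Set.mem_ofPred_eq, lp.coeFn_smul, Pi.smul_apply, smul_eq_mul] at hg
      exact right_ne_zero_of_mul hg
  have h2 : w ∈ closure (Submodule.span ℝ (Set.range fun p : J => uv p.1 p.2) : Set _) := hw
  rw [Metric.mem_closure_iff] at h2
  obtain ⟨v, hv, hvw⟩ := h2 ε hε
  refine (h1 v hv).subset fun g hg => ?_
  rw [Set.mem_ofPred_eq] at hg ⊢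
  intro h0
  have h3 : |w g - v g| ≤ dist w v := by
    rw [dist_eq_norm]
    exact lp.norm_apply_le_norm (by simp) (w - v) g
  rw [h0, sub_zero] at h3
  linarith

/-- Summability over `G`. -/
theorem summable_G {a : G → ℝ} {C r : ℝ} (hr0 : 0 ≤ r) (hr1 : r < 1) (h0 : ∀ g, 0 ≤ a g)
    (ha : ∀ g : G, a g ≤ C * r ^ g.1 / 2 ^ (g.1 + 2)) : Summable a := by
  rw [summable_sigma_of_nonneg h0]
  refine ⟨fun k => Summable.of_finite, ?_⟩
  refine Summable.of_nonneg_of_le (fun k => tsum_nonneg fun g => h0 _) (fun k => ?_)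
    ((summable_geometric_of_lt_one hr0 hr1).mul_left C)
  rw [tsum_fintype]
  calc ∑ g : Gk (k + 2), a ⟨k, g⟩ ≤ ∑ g : Gk (k + 2), C * r ^ k / 2 ^ (k + 2) :=
        Finset.sum_le_sum fun g _ => ha ⟨k, g⟩
    _ = C * r ^ k := by
        rw [Finset.sum_const, Finset.card_univ, Fintype.card_fun, Fintype.card_bool,
          Fintype.card_fin, nsmul_eq_mul]
        push_cast
        field_simp

/-- The weights `τ`. -/
noncomputable def ta (g : G) : ℝ := ((2 : ℝ) ^ g.1)⁻¹

theorem ta_pos (g : G) : 0 < ta g := by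
  unfold ta
  positivity

theorem two_rpow (k : ℕ) (x : ℝ) : ((2 : ℝ) ^ x) ^ k = (2 : ℝ) ^ (x * k) := by
  rw [Real.rpow_mul (by norm_num), Real.rpow_natCast]

theorem ta_eq (g : G) : ta g = (2 : ℝ) ^ (-(g.1 : ℝ)) := by
  rw [ta, Real.rpow_neg (by norm_num), Real.rpow_natCast]

theorem r_lt_one : (2 : ℝ) ^ (-(1 / 8) : ℝ) < 1 :=
  Real.rpow_lt_one_of_one_lt_of_neg (by norm_num) (by norm_num)

theorem summable_tau : Summable fun g => (ta g * ‖Phi g‖) ^ al := by
  have hpos : ∀ g : G, 0 ≤ ta g * ‖Phi g‖ := fun g => mul_nonneg (ta_pos g).le (norm_nonneg _)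
  refine summable_G (C := 128) (r := (2 : ℝ) ^ (-(1 / 8) : ℝ)) (Real.rpow_nonneg (by norm_num) _)
    r_lt_one (fun g => Real.rpow_nonneg (hpos g) _) fun g => ?_
  have h1 : ta g * ‖Phi g‖ ≤ 32 * (2 : ℝ) ^ (-(5 / 4) * (g.1 : ℝ)) := by
    calc ta g * ‖Phi g‖ ≤ (2 : ℝ) ^ (-(g.1 : ℝ)) * (32 * (2 : ℝ) ^ (-(g.1 : ℝ) / 4)) := by
          rw [ta_eq]
          exact mul_le_mul_of_nonneg_left (norm_Phi_le g) (Real.rpow_nonneg (by norm_num) _)
      _ = 32 * ((2 : ℝ) ^ (-(g.1 : ℝ)) * (2 : ℝ) ^ (-(g.1 : ℝ) / 4)) := by ring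
      _ = 32 * (2 : ℝ) ^ (-(5 / 4) * (g.1 : ℝ)) := by
          rw [← Real.rpow_add (by norm_num)]
          congr 2
          ring
  calc (ta g * ‖Phi g‖) ^ al ≤ (32 * (2 : ℝ) ^ (-(5 / 4) * (g.1 : ℝ))) ^ al :=
        Real.rpow_le_rpow (hpos g) h1 al_pos.le
    _ = (32 : ℝ) ^ al * (2 : ℝ) ^ (-(9 / 8) * (g.1 : ℝ)) := by
        rw [Real.mul_rpow (by norm_num) (Real.rpow_nonneg (by norm_num) _),
          ← Real.rpow_mul (by norm_num)]
        congr 2
        unfold al
        ring
    _ ≤ 32 * (2 : ℝ) ^ (-(9 / 8) * (g.1 : ℝ)) := by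
        refine mul_le_mul_of_nonneg_right ?_ (Real.rpow_nonneg (by norm_num) _)
        calc (32 : ℝ) ^ al ≤ 32 ^ (1 : ℝ) :=
              Real.rpow_le_rpow_of_exponent_le (by norm_num) al_le_one
          _ = 32 := Real.rpow_one _
    _ = 128 * ((2 : ℝ) ^ (-(1 / 8) : ℝ)) ^ g.1 / 2 ^ (g.1 + 2) := by
        rw [two_rpow]
        have h2 : (2 : ℝ) ^ (-(9 / 8) * (g.1 : ℝ)) =
            (2 : ℝ) ^ (-(1 / 8) * (g.1 : ℝ)) * ((2 : ℝ) ^ g.1)⁻¹ := by
          rw [← Real.rpow_natCast, ← Real.rpow_neg (by norm_num), ← Real.rpow_add (by norm_num)]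
          congr 1
          ring
        rw [h2, pow_add]
        field_simp
        norm_num

/-- The bound for the lifts. -/
theorem bound_mu (g : G) : 2 * (ta g) ^ (al - 1) * ‖Phi g‖ ^ al ≤
    64 * ((2 : ℝ) ^ (-(1 / 8) : ℝ)) ^ g.1 := by
  have h1 : (ta g) ^ (al - 1) = (2 : ℝ) ^ ((g.1 : ℝ) / 10) := by
    rw [ta_eq, ← Real.rpow_mul (by norm_num)]
    congr 1
    unfold al
    ring
  have h2 : ‖Phi g‖ ^ al ≤ 32 * (2 : ℝ) ^ (-(9 / 40) * (g.1 : ℝ)) := by
    calc ‖Phi g‖ ^ al ≤ (32 * (2 : ℝ) ^ (-(g.1 : ℝ) / 4)) ^ al :=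
          Real.rpow_le_rpow (norm_nonneg _) (norm_Phi_le g) al_pos.le
      _ = (32 : ℝ) ^ al * (2 : ℝ) ^ (-(9 / 40) * (g.1 : ℝ)) := by
          rw [Real.mul_rpow (by norm_num) (Real.rpow_nonneg (by norm_num) _),
            ← Real.rpow_mul (by norm_num)]
          congr 2
          unfold al
          ring
      _ ≤ 32 * (2 : ℝ) ^ (-(9 / 40) * (g.1 : ℝ)) := by
          refine mul_le_mul_of_nonneg_right ?_ (Real.rpow_nonneg (by norm_num) _)
          calc (32 : ℝ) ^ al ≤ 32 ^ (1 : ℝ) :=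
                Real.rpow_le_rpow_of_exponent_le (by norm_num) al_le_one
            _ = 32 := Real.rpow_one _
  rw [h1, two_rpow]
  calc 2 * (2 : ℝ) ^ ((g.1 : ℝ) / 10) * ‖Phi g‖ ^ al
      ≤ 2 * (2 : ℝ) ^ ((g.1 : ℝ) / 10) * (32 * (2 : ℝ) ^ (-(9 / 40) * (g.1 : ℝ))) :=
        mul_le_mul_of_nonneg_left h2 (by positivity)
    _ = 64 * ((2 : ℝ) ^ ((g.1 : ℝ) / 10) * (2 : ℝ) ^ (-(9 / 40) * (g.1 : ℝ))) := by ring
    _ = 64 * (2 : ℝ) ^ (-(1 / 8) * (g.1 : ℝ)) := by
        rw [← Real.rpow_add (by norm_num)]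
        congr 2
        ring

/-- The coordinate functionals on `DD`, with the weights. -/
noncomputable def eta (g : G) : DD →L[ℝ] ℝ :=
  ((2 : ℝ) ^ (g.1 + 2))⁻¹ • (crd g).comp DD.subtypeL

theorem eta_apply (g : G) (w : DD) :
    eta g w = ((2 : ℝ) ^ (g.1 + 2))⁻¹ * (w : lp (fun _ : G => ℝ) ∞) g := rfl

theorem norm_eta_le (g : G) : ‖eta g‖ ≤ ((2 : ℝ) ^ (g.1 + 2))⁻¹ := by
  refine ContinuousLinearMap.opNorm_le_bound _ (by positivity) fun w => ?_
  rw [eta_apply, norm_mul, Real.norm_of_nonneg (by positivity)]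
  exact mul_le_mul_of_nonneg_left (lp.norm_apply_le_norm (by simp) _ g) (by positivity)

theorem tsum_level_zero (a : G → ℝ) (ha : ∀ g : G, a g = if g.1 = 0 then (1 / 4 : ℝ) else 0) :
    ∑' g, a g = 1 := by
  have hinj : Function.Injective (fun g : Gk 2 => (⟨0, g⟩ : G)) := fun g h hgh => by
    simpa using hgh
  rw [tsum_eq_sum (s := Finset.univ.map ⟨fun g : Gk 2 => (⟨0, g⟩ : G), hinj⟩)]
  · rw [Finset.sum_map]
    simp only [Function.Embedding.coeFn_mk, ha, if_true]
    rw [Finset.sum_const, Finset.card_univ, Fintype.card_fun, Fintype.card_bool, Fintype.card_fin]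
    norm_num
  · rintro ⟨k, g⟩ hg
    rw [ha]
    split_ifs with h
    · exfalso
      apply hg
      change k = 0 at h
      subst h
      simp
    · rfl

theorem main : ∃ (M : Type) (_ : MetricSpace M) (_ : CompactSpace M) (o : M) (X : Type)
    (_ : NormedAddCommGroup X) (_ : NormedSpace ℝ X) (_ : CompleteSpace X),
    Schur (Free M o) ∧ Schur X ∧ ¬ Schur (Proj (Free M o) X) := by
  have hcomp : IsCompact (cube ta Phi) := isCompact_cube ta_pos summable_tau
  have : CompactSpace (cube ta Phi) := isCompact_iff_compactSpace.1 hcomp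
  have hKD : cube ta Phi ⊆ (DD : Set (lp (fun _ : G => ℝ) ∞)) := by
    refine (cube_subset ta_pos summable_tau).trans ?_
    exact Submodule.topologicalClosure_minimal _
      (Submodule.span_le.2 (by rintro _ ⟨g, rfl⟩; exact Phi_mem_DD g)) isClosed_DD
  obtain ⟨μ, hμ1, hμ2, hμ3⟩ := lift ta_pos summable_tau
  obtain ⟨β, hβ⟩ := exists_bary DD isClosed_DD hcomp.isBounded hKD (bpt ta Phi) rfl
  have hX₁ : Schur (DD →L[ℝ] ℝ) := schur_dual_c0 DD DD_vanish
  obtain ⟨y, hy, hn⟩ := exists_norming (E := DD)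
  obtain ⟨i, v, hvi, hv, hex⟩ := bd_interface hy
  refine ⟨Snow (cube ta Phi), inferInstance, inferInstance, bpt ta Phi, BD y, inferInstance,
    inferInstance, inferInstance, schur_free_snow _, bd_schur hX₁ hy hn, ?_⟩
  have hsum : Summable fun g => ‖μ g‖ * ‖eta g‖ := by
    refine summable_G (C := 64) (r := (2 : ℝ) ^ (-(1 / 8) : ℝ)) (Real.rpow_nonneg (by norm_num) _)
      r_lt_one (fun g => by positivity) fun g => ?_
    rw [div_eq_mul_inv]
    exact mul_le_mul ((hμ1 g).trans (bound_mu g)) (norm_eta_le g) (norm_nonneg _)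
      (by positivity)
  refine not_schur_proj i v hvi hv hex μ eta hsum ?_
    ((ContinuousLinearMap.id ℝ (DD →L[ℝ] ℝ)).flip.comp β) ?_
  · intro r f
    have hs : Summable fun g => f (μ g) • eta g := by
      refine Summable.of_norm_bounded (hsum.mul_left ‖f‖) fun g => ?_
      rw [norm_smul, ← mul_assoc]
      exact mul_le_mul_of_nonneg_right (f.le_opNorm _) (norm_nonneg _)
    have h0 : ∑' g, f (μ g) • eta g = 0 := by
      have huv : ∀ p : J, (∑' g, f (μ g) • eta g) ⟨uv p.1 p.2, uv_mem_DD p⟩ = 0 := by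
        intro p
        have h1 : (∑' g, f (μ g) • eta g) ⟨uv p.1 p.2, uv_mem_DD p⟩ =
            ∑' g, f (μ g) * (((2 : ℝ) ^ (g.1 + 2))⁻¹ * uv p.1 p.2 g) := by
          have := (ContinuousLinearMap.apply ℝ ℝ (⟨uv p.1 p.2, uv_mem_DD p⟩ : DD)).map_tsum hs
          simpa [eta_apply] using this
        rw [h1]
        have hfin := uv_finite p.1 p.2
        let c : G →₀ ℝ := Finsupp.onFinset hfin.toFinset
          (fun g => ((2 : ℝ) ^ (g.1 + 2))⁻¹ * uv p.1 p.2 g) (fun g hg => by
            rw [Set.Finite.mem_toFinset]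
            exact right_ne_zero_of_mul hg)
        have hc : ∀ g, c g = ((2 : ℝ) ^ (g.1 + 2))⁻¹ * uv p.1 p.2 g := fun g => rfl
        have hc1 : (c.sum fun g r => r • Phi g) = 0 := by
          rw [← Phi_rel p.1 p.2, Finsupp.sum]
          rw [finsum_eq_sum_of_support_subset (s := c.support)]
          · rfl
          · intro g hg
            rw [Function.mem_support] at hg
            rw [Finset.mem_coe, Finsupp.mem_support_iff, hc]
            intro h
            rw [h, zero_smul] at hg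
            exact hg rfl
        have hc2 := hμ2 c hc1
        have hc3 := congrArg f hc2
        rw [map_zero, Finsupp.sum, map_sum] at hc3
        rw [tsum_eq_sum (s := c.support), ← hc3]
        · refine Finset.sum_congr rfl fun g _ => ?_
          rw [map_smul, smul_eq_mul, hc, mul_comm]
        · intro g hg
          rw [Finsupp.mem_support_iff, not_not, hc] at hg
          rw [hg, mul_zero]
      -- density
      set Λ := ∑' g, f (μ g) • eta g with hΛ
      have hd : ∀ w : DD, Λ w = 0 := by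
        intro w
        have hcl : IsClosed {w : DD | Λ w = 0} := isClosed_eq Λ.continuous continuous_const
        obtain ⟨w, hw⟩ := w
        have hw' : w ∈ closure (Submodule.span ℝ (Set.range fun p : J => uv p.1 p.2) : Set _) := hw
        rw [mem_closure_iff_seq_limit] at hw'
        obtain ⟨s, hs1, hs2⟩ := hw'
        have hmem : ∀ n, s n ∈ DD := fun n => Submodule.le_topologicalClosure _ (hs1 n)
        have h3 : Tendsto (fun n => (⟨s n, hmem n⟩ : DD)) atTop (𝓝 ⟨w, hw⟩) := by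
          rw [tendsto_subtype_rng]
          exact hs2
        refine hcl.mem_of_tendsto h3 (Eventually.of_forall fun n => ?_)
        have hspan : ∀ v ∈ Submodule.span ℝ (Set.range fun p : J => uv p.1 p.2),
            ∀ hv : v ∈ DD, Λ ⟨v, hv⟩ = 0 := by
          intro v hv
          refine Submodule.span_induction (p := fun v _ => ∀ hv : v ∈ DD, Λ ⟨v, hv⟩ = 0)
            ?_ ?_ ?_ ?_ hv
          · rintro _ ⟨p, rfl⟩ _
            exact huv p
          · intro _
            exact map_zero Λ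
          · intro a b ha hb h1 h2 hab
            have ha' : a ∈ DD := Submodule.le_topologicalClosure _ ha
            have hb' : b ∈ DD := Submodule.le_topologicalClosure _ hb
            have : (⟨a + b, hab⟩ : DD) = ⟨a, ha'⟩ + ⟨b, hb'⟩ := rfl
            rw [this, map_add, h1 ha', h2 hb', add_zero]
          · intro c a ha h1 hca
            have ha' : a ∈ DD := Submodule.le_topologicalClosure _ ha
            have : (⟨c • a, hca⟩ : DD) = c • ⟨a, ha'⟩ := rfl
            rw [this, map_smul, h1 ha', smul_zero]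
        exact hspan _ (hs1 n) _
      exact ContinuousLinearMap.ext hd
    have h1 := r.map_tsum hs
    rw [h0, map_zero] at h1
    rw [h1]
    refine tsum_congr fun g => ?_
    rw [map_smul, smul_eq_mul, mul_comm]
  · have h1 : ∀ g, ((ContinuousLinearMap.id ℝ (DD →L[ℝ] ℝ)).flip.comp β) (μ g) (eta g) =
        if g.1 = 0 then (1 / 4 : ℝ) else 0 := by
      intro g
      have h2 : ((ContinuousLinearMap.id ℝ (DD →L[ℝ] ℝ)).flip.comp β) (μ g) (eta g) =
          eta g (β (μ g)) := rfl
      rw [h2, eta_apply]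
      obtain ⟨f, hf, -⟩ := exists_coord hcomp.isBounded (bpt ta Phi) rfl (crd g)
      rw [hβ g f hf, hμ3 (crd g) f hf g, crd_apply, Phi_diag]
      split_ifs with h
      · rw [h]
        norm_num
      · rw [mul_zero]
    rw [tsum_level_zero _ h1]
    exact one_ne_zero

end Pool.Agent.Helper25.SC
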