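import Pool.Agent.Helper25.SC.Had

/-!
# Block SC-SGN: the signs lemma (helper59)

* `signs`: for `M = card ι` vectors `a x : κ → ℝ`, `|a x j| ≤ 2`, there are signs `ε : κ → Bool` with
  `|∑ j, sg (ε j) * a x j| ≤ r` for all `x`, provided `2 M exp (- r^2 / (8 n)) < 1`, `n = card κ`. Proof: `t = r / (4 n)`. The average over
  all `ε : κ → Bool` of `exp (t ∑ j, sg (ε j) * a x j)` is `∏ j, cosh (t * a x j) ≤ exp (2 t² n)` (`Real.cosh_le_exp_half_sq`,
  `Finset.prod_univ_sum`). If every `ε` had some `x` with `|∑| > r`, then `∑_x (exp (t ∑) + exp (- t ∑)) > exp (t r)` for every `ε`, and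
  averaging `exp (t r) ≤ 2 M exp (2 t² n)`, i.e. `1 ≤ 2 M exp (2 t² n - t r) = 2 M exp (- r² / (8 n))`. (For `M = 0` the statement is
  trivial; for `n = 0` the hypothesis says `2 M < 1`.)
* `signs_pow`: the case `n ≤ 2^(k+1)`, `M ≤ 2^(2k+5)`, `r = rk k = 16 * 2^(3 k / 4)`: `r²/(8n) ≥ 256 * 2^(3k/2) / (16 * 2^k) = 16 * 2^(k/2)`,
  and `2 M ≤ 2^(2k+6) < exp (16 * 2^(k/2))` since `(2k+6) log 2 < 16 * 2^(k/2)` (`2^(k/2) = exp (k (log 2)/2) ≥ 1 + k (log 2)/2`).
-/

set_option autoImplicit false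
set_option maxSynthPendingDepth 3

namespace Pool.Agent.Helper25.SC

/-- average over the signs -/
private theorem h59_avg {κ : Type*} [Fintype κ] [DecidableEq κ] (b : κ → ℝ) :
    ∑ ε : κ → Bool, Real.exp (∑ j, sg (ε j) * b j) = ∏ j, (2 * Real.cosh (b j)) := by
  have h1 : ∀ j, 2 * Real.cosh (b j) = ∑ c : Bool, Real.exp (sg c * b j) := by
    intro j
    rw [Real.cosh_eq, Fintype.sum_bool]
    simp only [sg, if_true, Bool.false_eq_true, if_false, one_mul, neg_mul]
    ring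
  simp_rw [h1]
  rw [Finset.prod_univ_sum, Fintype.piFinset_univ]
  refine Finset.sum_congr rfl fun ε _ => ?_
  rw [Real.exp_sum]

theorem signs {ι κ : Type*} [Fintype ι] [Fintype κ] (a : ι → κ → ℝ) (ha : ∀ x j, |a x j| ≤ 2) (r : ℝ)
    (hr0 : 0 ≤ r) (hr : 2 * (Fintype.card ι : ℝ) * Real.exp (-(r ^ 2) / (8 * (Fintype.card κ : ℝ))) < 1) :
    ∃ ε : κ → Bool, ∀ x, |∑ j, sg (ε j) * a x j| ≤ r := by
  classical
  rcases Nat.eq_zero_or_pos (Fintype.card κ) with hn | hn
  · have : IsEmpty κ := Fintype.card_eq_zero_iff.mp hn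
    refine ⟨fun _ => true, fun x => ?_⟩
    simpa using hr0
  by_contra hcon
  push Not at hcon
  have hn' : (0 : ℝ) < Fintype.card κ := by exact_mod_cast hn
  set n : ℝ := (Fintype.card κ : ℝ) with hnd
  set M : ℝ := (Fintype.card ι : ℝ) with hM
  set t : ℝ := r / (4 * n) with ht
  have ht0 : 0 ≤ t := by positivity
  have h1 : ∀ ε : κ → Bool, Real.exp (t * r) ≤
      ∑ x, (Real.exp (∑ j, sg (ε j) * (t * a x j)) + Real.exp (∑ j, sg (ε j) * (-(t * a x j)))) := by
    intro ε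
    obtain ⟨x, hx⟩ := hcon ε
    have e1 : ∑ j, sg (ε j) * (t * a x j) = t * ∑ j, sg (ε j) * a x j := by
      rw [Finset.mul_sum]
      refine Finset.sum_congr rfl fun j _ => by ring
    have e2 : ∑ j, sg (ε j) * (-(t * a x j)) = -(t * ∑ j, sg (ε j) * a x j) := by
      rw [Finset.mul_sum, ← Finset.sum_neg_distrib]
      refine Finset.sum_congr rfl fun j _ => by ring
    have h2 : Real.exp (t * r) ≤
        Real.exp (∑ j, sg (ε j) * (t * a x j)) + Real.exp (∑ j, sg (ε j) * (-(t * a x j))) := by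
      rw [e1, e2]
      rcases le_total 0 (∑ j, sg (ε j) * a x j) with h | h
      · rw [abs_of_nonneg h] at hx
        have : Real.exp (t * r) ≤ Real.exp (t * ∑ j, sg (ε j) * a x j) := by
          apply Real.exp_le_exp.mpr
          exact mul_le_mul_of_nonneg_left hx.le ht0
        have := Real.exp_pos (-(t * ∑ j, sg (ε j) * a x j))
        linarith
      · rw [abs_of_nonpos h] at hx
        have : Real.exp (t * r) ≤ Real.exp (-(t * ∑ j, sg (ε j) * a x j)) := by
          apply Real.exp_le_exp.mpr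
          rw [← mul_neg]
          exact mul_le_mul_of_nonneg_left hx.le ht0
        have := Real.exp_pos (t * ∑ j, sg (ε j) * a x j)
        linarith
    refine h2.trans ?_
    exact Finset.single_le_sum (f := fun x => Real.exp (∑ j, sg (ε j) * (t * a x j)) + Real.exp (∑ j, sg (ε j) * (-(t * a x j))))
      (fun x _ => by positivity) (Finset.mem_univ x)
  have h3 : ∑ ε : κ → Bool, Real.exp (t * r) ≤ ∑ ε : κ → Bool,
      ∑ x, (Real.exp (∑ j, sg (ε j) * (t * a x j)) + Real.exp (∑ j, sg (ε j) * (-(t * a x j)))) :=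
    Finset.sum_le_sum fun ε _ => h1 ε
  rw [Finset.sum_comm] at h3
  have h4 : ∀ x, ∑ ε : κ → Bool, (Real.exp (∑ j, sg (ε j) * (t * a x j)) + Real.exp (∑ j, sg (ε j) * (-(t * a x j))))
      ≤ 2 * ((2 : ℝ) ^ Fintype.card κ * Real.exp (2 * t ^ 2 * n)) := by
    intro x
    rw [Finset.sum_add_distrib, h59_avg, h59_avg]
    have h5 : ∏ j, (2 * Real.cosh (t * a x j)) ≤ (2 : ℝ) ^ Fintype.card κ * Real.exp (2 * t ^ 2 * n) := by
      have h6 : ∀ j ∈ (Finset.univ : Finset κ), 2 * Real.cosh (t * a x j) ≤ 2 * Real.exp (2 * t ^ 2) := by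
        intro j _
        have h7 := Real.cosh_le_exp_half_sq (t * a x j)
        have h8 : (t * a x j) ^ 2 / 2 ≤ 2 * t ^ 2 := by
          have h9 : (a x j) ^ 2 ≤ 4 := by
            have := ha x j
            rw [← sq_abs]
            nlinarith [abs_nonneg (a x j)]
          rw [mul_pow]
          nlinarith [sq_nonneg t]
        have h10 : Real.exp ((t * a x j) ^ 2 / 2) ≤ Real.exp (2 * t ^ 2) := Real.exp_le_exp.mpr h8
        linarith
      calc ∏ j, (2 * Real.cosh (t * a x j)) ≤ ∏ _j : κ, (2 * Real.exp (2 * t ^ 2)) := by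
            apply Finset.prod_le_prod
            · intro j _
              have := Real.cosh_pos (t * a x j)
              positivity
            · exact h6
        _ = (2 : ℝ) ^ Fintype.card κ * Real.exp (2 * t ^ 2 * n) := by
            rw [Finset.prod_const, Finset.card_univ, mul_pow, ← Real.exp_nat_mul]
            congr 2
            rw [hnd]; ring
    have h11 : ∏ j, (2 * Real.cosh (-(t * a x j))) = ∏ j, (2 * Real.cosh (t * a x j)) := by
      refine Finset.prod_congr rfl fun j _ => by rw [Real.cosh_neg]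
    rw [h11]
    linarith
  have h5 : ∑ ε : κ → Bool, Real.exp (t * r) = (2 : ℝ) ^ Fintype.card κ * Real.exp (t * r) := by
    rw [Finset.sum_const, Finset.card_univ, Fintype.card_fun, Fintype.card_bool, nsmul_eq_mul]
    push_cast
    ring
  have h6 : (2 : ℝ) ^ Fintype.card κ * Real.exp (t * r) ≤
      M * (2 * ((2 : ℝ) ^ Fintype.card κ * Real.exp (2 * t ^ 2 * n))) := by
    rw [← h5]
    refine h3.trans ?_
    calc _ ≤ ∑ _x : ι, 2 * ((2 : ℝ) ^ Fintype.card κ * Real.exp (2 * t ^ 2 * n)) :=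
          Finset.sum_le_sum fun x _ => h4 x
      _ = _ := by
          rw [Finset.sum_const, Finset.card_univ, nsmul_eq_mul]
  have h7 : Real.exp (t * r) ≤ 2 * M * Real.exp (2 * t ^ 2 * n) := by
    have h2p : (0 : ℝ) < (2 : ℝ) ^ Fintype.card κ := by positivity
    have : (2 : ℝ) ^ Fintype.card κ * Real.exp (t * r) ≤
        (2 : ℝ) ^ Fintype.card κ * (2 * M * Real.exp (2 * t ^ 2 * n)) := by
      refine h6.trans (le_of_eq (by ring))
    exact le_of_mul_le_mul_left this h2p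
  have h8 : 1 ≤ 2 * M * Real.exp (-(r ^ 2) / (8 * n)) := by
    have e : -(r ^ 2) / (8 * n) = 2 * t ^ 2 * n - t * r := by
      rw [ht]; field_simp; ring
    rw [e, Real.exp_sub, mul_div_assoc', le_div_iff₀ (Real.exp_pos _), one_mul]
    exact h7
  linarith

/-- The bound `16 * 2 ^ (3 k / 4)`. -/
noncomputable def rk (k : ℕ) : ℝ := 16 * (2 : ℝ) ^ (3 * (k : ℝ) / 4)

theorem signs_pow {ι κ : Type*} [Fintype ι] [Fintype κ] (k : ℕ) (a : ι → κ → ℝ)
    (ha : ∀ x j, |a x j| ≤ 2) (hι : Fintype.card ι ≤ 2 ^ (2 * k + 5))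
    (hκ : Fintype.card κ ≤ 2 ^ (k + 1)) : ∃ ε : κ → Bool, ∀ x, |∑ j, sg (ε j) * a x j| ≤ rk k := by
  classical
  have hrk : 0 ≤ rk k := by unfold rk; positivity
  rcases Nat.eq_zero_or_pos (Fintype.card κ) with hn | hn
  · have : IsEmpty κ := Fintype.card_eq_zero_iff.mp hn
    refine ⟨fun _ => true, fun x => ?_⟩
    simpa using hrk
  apply signs a ha _ hrk
  have hn' : (0 : ℝ) < Fintype.card κ := by exact_mod_cast hn
  set y : ℝ := (2 : ℝ) ^ ((k : ℝ) / 2) with hy
  have hy0 : 0 < y := by positivity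
  have hlog2 : 0.6931471803 < Real.log 2 := Real.log_two_gt_d9
  have hlog2' : Real.log 2 < 0.6931471808 := Real.log_two_lt_d9
  have h1 : 16 * y ≤ (rk k) ^ 2 / (8 * (Fintype.card κ : ℝ)) := by
    rw [le_div_iff₀ (by positivity)]
    have h2 : (Fintype.card κ : ℝ) ≤ 2 ^ (k + 1) := by exact_mod_cast hκ
    have h3 : (rk k) ^ 2 = 256 * (y ^ 2 * y) := by
      have e1 : (2 : ℝ) ^ (3 * (k : ℝ) / 4) * (2 : ℝ) ^ (3 * (k : ℝ) / 4) = y * y * y := by
        rw [hy, ← Real.rpow_add (by norm_num), ← Real.rpow_add (by norm_num), ← Real.rpow_add (by norm_num)]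
        congr 1
        ring
      unfold rk
      calc (16 * (2 : ℝ) ^ (3 * (k : ℝ) / 4)) ^ 2 = 256 * ((2 : ℝ) ^ (3 * (k : ℝ) / 4) * (2 : ℝ) ^ (3 * (k : ℝ) / 4)) := by ring
        _ = _ := by rw [e1]; ring
    have h4 : y ^ 2 = 2 ^ k := by
      rw [hy, ← Real.rpow_natCast, ← Real.rpow_mul (by norm_num), ← Real.rpow_natCast]
      congr 1
      push_cast
      ring
    rw [h3, h4]
    have h5 : (2 : ℝ) ^ (k + 1) = 2 * 2 ^ k := by ring
    rw [h5] at h2
    nlinarith [mul_le_mul_of_nonneg_left h2 hy0.le]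
  have h2 : Real.exp (-(rk k) ^ 2 / (8 * (Fintype.card κ : ℝ))) ≤ Real.exp (-(16 * y)) := by
    apply Real.exp_le_exp.mpr
    rw [neg_div]
    linarith
  have h3 : (Fintype.card ι : ℝ) ≤ 2 ^ (2 * k + 5) := by exact_mod_cast hι
  have h4 : 1 + (k : ℝ) / 2 * Real.log 2 ≤ y := by
    rw [hy, Real.rpow_def_of_pos (by norm_num)]
    have := Real.add_one_le_exp (Real.log 2 * ((k : ℝ) / 2))
    linarith
  have h5 : (2 : ℝ) ^ (2 * k + 6) < Real.exp (16 * y) := by
    have e : (2 : ℝ) ^ (2 * k + 6) = Real.exp ((2 * k + 6) * Real.log 2) := by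
      rw [← Real.rpow_natCast, Real.rpow_def_of_pos (by norm_num)]
      congr 1
      push_cast
      ring
    rw [e]
    apply Real.exp_lt_exp.mpr
    have hk : (0 : ℝ) ≤ k := by positivity
    nlinarith
  calc 2 * (Fintype.card ι : ℝ) * Real.exp (-(rk k) ^ 2 / (8 * (Fintype.card κ : ℝ)))
      ≤ 2 * (2 : ℝ) ^ (2 * k + 5) * Real.exp (-(16 * y)) := by gcongr
    _ = (2 : ℝ) ^ (2 * k + 6) / Real.exp (16 * y) := by
        rw [Real.exp_neg, div_eq_mul_inv]
        ring
    _ < 1 := by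
        rw [div_lt_one (Real.exp_pos _)]
        exact h5

end Pool.Agent.Helper25.SC
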