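import Mathlib

/-!
# The Schur property, Lipschitz-free spaces, projective tensor products: definitions

These are the definitions used by the statement of the result. `IsFreeSpace M o F` and
`IsProjTensor F X T` describe the Lipschitz-free space and the completed projective tensor product
up to isometric isomorphism, by their universal properties.
-/

set_option autoImplicit false
set_option maxSynthPendingDepth 3

namespace Pool.Agent.Helper25.SC.Stm

open Filter Topology

/-- The Schur property: every weakly convergent sequence converges in norm. -/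
def Schur (E : Type) [NormedAddCommGroup E] [NormedSpace ℝ E] : Prop :=
  ∀ (u : ℕ → E) (a : E), (∀ φ : E →L[ℝ] ℝ, Tendsto (fun n => φ (u n)) atTop (𝓝 (φ a))) →
    Tendsto u atTop (𝓝 a)

/-- `F` is (isometrically) the Lipschitz-free space `F(M)` of the metric space `M` with base point
`o`: there is an isometric map `δ : M → F` with `δ o = 0`, with dense linear span, such that every
real function on `M` which is `K`-Lipschitz and vanishes at `o` is of the form `φ ∘ δ` for a
functional `φ` of norm at most `K`. (So the dual of `F` is `Lip₀(M)`, and `F` is the closed linear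
span of the evaluations in the dual of `Lip₀(M)`.) -/
def IsFreeSpace (M : Type) [MetricSpace M] (o : M) (F : Type) [NormedAddCommGroup F]
    [NormedSpace ℝ F] [CompleteSpace F] : Prop :=
  ∃ δ : M → F, δ o = 0 ∧ (∀ x y, ‖δ x - δ y‖ = dist x y) ∧
    Dense (Submodule.span ℝ (Set.range δ) : Set F) ∧
    ∀ (f : M → ℝ) (K : ℝ), 0 ≤ K → f o = 0 → (∀ x y, |f x - f y| ≤ K * dist x y) →
      ∃ φ : F →L[ℝ] ℝ, ‖φ‖ ≤ K ∧ ∀ x, φ (δ x) = f x

/-- `T` is (isometrically) the completed projective tensor product of `F` and `X`: there is a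
bilinear map `τ : F × X → T` with `‖τ(μ, x)‖ ≤ ‖μ‖ ‖x‖`, with dense linear span, such that every
bilinear form `B` on `F × X` with `|B(μ, x)| ≤ C ‖μ‖ ‖x‖` is of the form `φ ∘ τ` for a functional
`φ` of norm at most `C`. (So the dual of `T` is the space of bounded bilinear forms, and `T` is the
closed linear span of the elementary tensors in the dual of that space.) -/
def IsProjTensor (F X T : Type) [NormedAddCommGroup F] [NormedSpace ℝ F] [NormedAddCommGroup X]
    [NormedSpace ℝ X] [NormedAddCommGroup T] [NormedSpace ℝ T] [CompleteSpace T] : Prop :=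
  ∃ τ : F →ₗ[ℝ] X →ₗ[ℝ] T, (∀ μ x, ‖τ μ x‖ ≤ ‖μ‖ * ‖x‖) ∧
    Dense (Submodule.span ℝ (Set.range fun p : F × X => τ p.1 p.2) : Set T) ∧
    ∀ (B : F →ₗ[ℝ] X →ₗ[ℝ] ℝ) (C : ℝ), 0 ≤ C → (∀ μ x, |B μ x| ≤ C * (‖μ‖ * ‖x‖)) →
      ∃ φ : T →L[ℝ] ℝ, ‖φ‖ ≤ C ∧ ∀ μ x, φ (τ μ x) = B μ x

end Pool.Agent.Helper25.SC.Stm
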