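import Pool.Agent.Helper25.SC.Main
import Pool.Agent.Helper25.SC.Stm

/-!
# The concrete spaces satisfy the universal properties
-/

set_option autoImplicit false
set_option maxSynthPendingDepth 6

namespace Pool.Agent.Helper25.SC

open Filter Topology

theorem dense_span_closure {E ι : Type*} [NormedAddCommGroup E] [NormedSpace ℝ E] (s : ι → E)
    (t : ι → (Submodule.span ℝ (Set.range s)).topologicalClosure) (ht : ∀ i, (t i : E) = s i) :
    Dense (Submodule.span ℝ (Set.range t) :
      Set (Submodule.span ℝ (Set.range s)).topologicalClosure) := by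
  intro w
  rw [Topology.IsInducing.subtypeVal.closure_eq_preimage_closure_image]
  change (w : E) ∈ closure (Subtype.val '' (Submodule.span ℝ (Set.range t) :
      Set (Submodule.span ℝ (Set.range s)).topologicalClosure))
  have h1 : (Subtype.val '' (Submodule.span ℝ (Set.range t) :
      Set (Submodule.span ℝ (Set.range s)).topologicalClosure)) =
      (Submodule.span ℝ (Set.range s) : Set E) := by
    have h2 := Submodule.map_span (Submodule.span ℝ (Set.range s)).topologicalClosure.subtype
      (Set.range t)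
    have h3 : ((Submodule.span ℝ (Set.range s)).topologicalClosure.subtype '' Set.range t) =
        Set.range s := by
      rw [← Set.range_comp]
      congr 1
      funext i
      exact ht i
    rw [h3] at h2
    exact congrArg (fun W : Submodule ℝ E => (W : Set E)) h2
  rw [h1]
  exact w.2

theorem isFreeSpace_free (M : Type) [MetricSpace M] (o : M) :
    Stm.IsFreeSpace M o (Free M o) := by
  refine ⟨dlt o, dlt_base o, fun x y => ?_, dense_span_closure (delta o) (dlt o) fun x => rfl,
    fun f K hK hf0 hf => ?_⟩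
  · refine le_antisymm (norm_dlt_sub_le o x y) ?_
    let f : Lip0 M o := ⟨fun z => dist z x - dist o x, by simp, 1, fun a b => by
      have : dist a x - dist o x - (dist b x - dist o x) = dist a x - dist b x := by ring
      rw [this, one_mul]
      exact abs_dist_sub_le a b x⟩
    have hf : ‖f‖ ≤ 1 := Lip0.norm_le zero_le_one fun a b => by
      have : f a - f b = dist a x - dist b x := by
        change dist a x - dist o x - (dist b x - dist o x) = _
        ring
      rw [this, one_mul]
      exact abs_dist_sub_le a b x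
    have h1 : evL f (dlt o y - dlt o x) = dist x y := by
      rw [evL_apply]
      change f y - f x = _
      change dist y x - dist o x - (dist x x - dist o x) = _
      rw [dist_self, dist_comm y x]
      ring
    have h2 := abs_evL_le f (dlt o y - dlt o x)
    rw [h1, abs_of_nonneg dist_nonneg] at h2
    rw [norm_sub_rev]
    exact h2.trans (mul_le_of_le_one_left (norm_nonneg _) hf)
  · let g : Lip0 M o := ⟨f, hf0, K, hf⟩
    have hg : ‖g‖ ≤ K := Lip0.norm_le hK hf
    refine ⟨evL g, ?_, fun x => rfl⟩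
    refine (ContinuousLinearMap.opNorm_le_bound _ (norm_nonneg g) fun μ => ?_).trans hg
    exact abs_evL_le g μ

theorem isProjTensor_proj (F X : Type) [NormedAddCommGroup F] [NormedSpace ℝ F]
    [NormedAddCommGroup X] [NormedSpace ℝ X] : Stm.IsProjTensor F X (Proj F X) := by
  let τ₀ : F →ₗ[ℝ] X →ₗ[ℝ] Proj F X := LinearMap.mk₂ ℝ tm
    (fun μ ν x => tm_add_left38 μ ν x) (fun c μ x => tm_smul_left38 c μ x)
    (fun μ x y => tm_add_right38 μ x y) (fun c μ x => tm_smul_right38 c μ x)
  have hτ : ∀ μ x, τ₀ μ x = tm μ x := fun μ x => rfl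
  refine ⟨τ₀, fun μ x => ?_, ?_, fun B₀ C hC hB => ?_⟩
  · rw [hτ]
    exact norm_tm_le38 μ x
  · exact dense_span_closure (fun p : F × X => tmul p.1 p.2) (fun p : F × X => τ₀ p.1 p.2)
      fun p => rfl
  · have hB' : ∀ μ x, ‖B₀ μ x‖ ≤ C * ‖μ‖ * ‖x‖ := fun μ x => by
      rw [Real.norm_eq_abs, mul_assoc]
      exact hB μ x
    let B : F →L[ℝ] X →L[ℝ] ℝ := B₀.mkContinuous₂ C hB'
    have hBn : ‖B‖ ≤ C := B₀.mkContinuous₂_norm_le hC hB'
    let φ : Proj F X →L[ℝ] ℝ :=
      (ContinuousLinearMap.apply ℝ ℝ B).comp (Proj F X).subtypeL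
    refine ⟨φ, ContinuousLinearMap.opNorm_le_bound _ hC fun θ => ?_, fun μ x => rfl⟩
    have h1 : ‖(θ : (F →L[ℝ] X →L[ℝ] ℝ) →L[ℝ] ℝ) B‖ ≤
        ‖(θ : (F →L[ℝ] X →L[ℝ] ℝ) →L[ℝ] ℝ)‖ * ‖B‖ := ContinuousLinearMap.le_opNorm _ _
    have h2 : ‖(θ : (F →L[ℝ] X →L[ℝ] ℝ) →L[ℝ] ℝ)‖ * ‖B‖ ≤ C * ‖θ‖ := by
      rw [mul_comm]
      exact mul_le_mul_of_nonneg_right hBn (norm_nonneg _)
    exact h1.trans h2

theorem main' : ∃ (M : Type) (_ : MetricSpace M) (_ : CompactSpace M) (o : M)
    (F : Type) (_ : NormedAddCommGroup F) (_ : NormedSpace ℝ F) (_ : CompleteSpace F)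
    (X : Type) (_ : NormedAddCommGroup X) (_ : NormedSpace ℝ X) (_ : CompleteSpace X)
    (T : Type) (_ : NormedAddCommGroup T) (_ : NormedSpace ℝ T) (_ : CompleteSpace T),
    Stm.IsFreeSpace M o F ∧ Stm.IsProjTensor F X T ∧ Stm.Schur F ∧ Stm.Schur X ∧
      ¬ Stm.Schur T := by
  obtain ⟨M, iM, cM, o, X, iX, sX, cX, hF, hX, hT⟩ := main
  exact ⟨M, iM, cM, o, Free M o, inferInstance, inferInstance, inferInstance, X, iX, sX, cX,
    Proj (Free M o) X, inferInstance, inferInstance, inferInstance, isFreeSpace_free M o,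
    isProjTensor_proj (Free M o) X, hF, hX, hT⟩

end Pool.Agent.Helper25.SC
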