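import Pool.Agent.Helper25.SC.Hal

/-!
# Davie's vectors: definitions
-/

set_option autoImplicit false
set_option maxSynthPendingDepth 3

namespace Pool.Agent.Helper25.SC

open scoped ENNReal

/-- The rows `b k j`, `j : Gk (k + 1)`. -/
noncomputable def bb (k : ℕ) : Gk (k + 1) → Gk (k + 2) := (exists_half k).choose

/-- The rows `a k j`, `j : Gk k`. -/
noncomputable def aa (k : ℕ) : Gk k → Gk (k + 2) := (exists_half k).choose_spec.choose

theorem bb_inj (k : ℕ) : Function.Injective (bb k) := (exists_half k).choose_spec.choose_spec.1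

theorem aa_inj (k : ℕ) : Function.Injective (aa k) := (exists_half k).choose_spec.choose_spec.2.1

theorem bb_ne_aa (k : ℕ) (i : Gk (k + 1)) (j : Gk k) : bb k i ≠ aa k j :=
  (exists_half k).choose_spec.choose_spec.2.2.1 i j

theorem bb_sum (k : ℕ) {g h : Gk (k + 2)} (hgh : g ≠ h) :
    |∑ i, H (bb k i) g * H (bb k i) h| ≤ rk k :=
  (exists_half k).choose_spec.choose_spec.2.2.2.1 g h hgh

theorem aa_sum (k : ℕ) {g h : Gk (k + 2)} (hgh : g ≠ h) :
    |∑ i, H (aa k i) g * H (aa k i) h| ≤ rk k :=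
  (exists_half k).choose_spec.choose_spec.2.2.2.2 g h hgh

/-- The signs. -/
noncomputable def ee (k : ℕ) : Gk (k + 1) → Bool := (exists_signs k (bb k) (aa (k + 1))).choose

theorem ee_sum (k : ℕ) (g : Gk (k + 2)) (h : Gk (k + 3)) :
    |∑ j, sg (ee k j) * (H (bb k j) g * H (aa (k + 1) j) h)| ≤ rk k :=
  (exists_signs k (bb k) (aa (k + 1))).choose_spec g h

/-- The index set `G`: pairs `⟨k, g⟩`, `g : Gk (k + 2)`. -/
abbrev G := Σ k : ℕ, Gk (k + 2)

/-- `H` for indices of possibly different lengths (to avoid casts). -/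
def Hx {m m' : ℕ} (i : Gk m) (g : Gk m') : ℝ :=
  ∏ b : Fin m, (if i b && (if h : b.1 < m' then g ⟨b.1, h⟩ else false) then (-1 : ℝ) else 1)

theorem Hx_eq {m : ℕ} (i g : Gk m) : Hx i g = H i g := by
  unfold Hx H
  refine Finset.prod_congr rfl fun b _ => ?_
  simp

/-- The vectors `u k j`, as functions on `G`. -/
noncomputable def uf (k : ℕ) (j : Gk (k + 1)) : G → ℝ := fun x =>
  if x.1 = k then Hx (bb k j) x.2
  else if x.1 = k + 1 then sg (ee k j) * Hx (aa (k + 1) j) x.2 else 0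

theorem uf_same (k : ℕ) (j : Gk (k + 1)) (g : Gk (k + 2)) : uf k j ⟨k, g⟩ = H (bb k j) g := by
  simp [uf, Hx_eq]

theorem uf_succ (k : ℕ) (j : Gk (k + 1)) (g : Gk (k + 3)) :
    uf k j ⟨k + 1, g⟩ = sg (ee k j) * H (aa (k + 1) j) g := by
  simp [uf, Hx_eq]

theorem uf_other (k : ℕ) (j : Gk (k + 1)) (x : G) (h1 : x.1 ≠ k) (h2 : x.1 ≠ k + 1) :
    uf k j x = 0 := by
  simp [uf, h1, h2]

theorem abs_Hx {m m' : ℕ} (i : Gk m) (g : Gk m') : |Hx i g| = 1 := by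
  unfold Hx
  rw [Finset.abs_prod]
  refine Finset.prod_eq_one fun b _ => ?_
  split_ifs <;> simp

theorem abs_uf_le (k : ℕ) (j : Gk (k + 1)) (x : G) : |uf k j x| ≤ 1 := by
  unfold uf
  split_ifs
  · exact (abs_Hx _ _).le
  · rw [abs_mul, abs_sg, abs_Hx, one_mul]
  · simp

/-- The vectors `u k j` in `ℓ_∞(G)`. -/
noncomputable def uv (k : ℕ) (j : Gk (k + 1)) : lp (fun _ : G => ℝ) ∞ :=
  ⟨uf k j, memℓp_infty ⟨1, by rintro _ ⟨x, rfl⟩; exact abs_uf_le k j x⟩⟩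

theorem uv_apply (k : ℕ) (j : Gk (k + 1)) (x : G) : uv k j x = uf k j x := rfl

/-- The vectors `Φ g`. -/
noncomputable def Phi : G → lp (fun _ : G => ℝ) ∞
  | ⟨0, g⟩ => (2 : ℝ)⁻¹ • ∑ j : Gk 1, H (bb 0 j) g • uv 0 j
  | ⟨k + 1, g⟩ => ((2 : ℝ) ^ (k + 2))⁻¹ • ∑ j : Gk (k + 2), H (bb (k + 1) j) g • uv (k + 1) j
      - ((2 : ℝ) ^ (k + 1))⁻¹ • ∑ j : Gk (k + 1), (sg (ee k j) * H (aa (k + 1) j) g) • uv k j

end Pool.Agent.Helper25.SC
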